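import Mathlib
import Pool.Agent.H251.SP.Stm
import Pool.Agent.H985.Par.StmPar
import Pool.Agent.H225.Par.Sieve

/-!
# Chen's theorem with prescribed parity over `F_q[X]`, `q` even (helper985): statements of the parts

The engine is `Pool/Agent/H251/SP` (helper251 and co-authors): the Moebius function at shifted primes.
Here the sieve weights `Wt` of level `θ n` are inserted everywhere.
-/

namespace Pool.Agent.H985.CH

open Polynomial Finset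
open scoped Classical
open Pool.Agent.H985.Chow (mob)
open Pool.Agent.H985.KP (PA mobg)
open Pool.Agent.H985.Par (Sft S_brun)
open Pool.Agent.H694.Typ (Mn Irn PU)
open Pool.Agent.H251.SP (Rgh Smo bw cf S_fb S_bf S_wm S_mob S_ps S_comb)
open Pool.Agent.H225.Par (lf)

/-- The product of the `f + h i`. -/
noncomputable def Hh {K : Type} [Field K] {k : ℕ} (h : Fin k → K[X]) (f : K[X]) : K[X] :=
  ∏ i, (f + h i)

/-- The monic squarefree polynomials of degree at most `y`. -/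
noncomputable def SqM (K : Type) [Field K] [Fintype K] (y : ℕ) : Finset K[X] :=
  ((range (y + 1)).biUnion fun i => Mn K i).filter (fun E => Squarefree E)

/-- The weight of level `y` with the coefficients `lam`. -/
noncomputable def Wt {K : Type} [Field K] [Fintype K] {k : ℕ} (h : Fin k → K[X]) (lam : K[X] → ℝ)
    (y : ℕ) (f : K[X]) : ℝ :=
  ∑ E ∈ (SqM K y).filter (fun E => E ∣ Hh h f), lam E

/-- The shifts are nonzero and of degree less than `n`. -/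
def Shf {K : Type} [Field K] {k : ℕ} (n : ℕ) (h : Fin k → K[X]) : Prop :=
  ∀ i, h i ≠ 0 ∧ (h i).natDegree < n

/-- `lam` is bounded by 1. -/
def Bdd {K : Type} [Field K] (lam : K[X] → ℝ) : Prop := ∀ E, |lam E| ≤ 1

/-- No `f + h i` has an irreducible factor of degree at most `m`. -/
def Sif {K : Type} [Field K] {k : ℕ} (h : Fin k → K[X]) (m : ℕ) (f : K[X]) : Prop :=
  ∀ i, Sft m (f + h i)

/-- **Task MOMW.**  Moments of the weights. -/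
def S_momw : Prop :=
  ∀ (k r : ℕ) (K : Type) [Field K] [Fintype K], ∃ C : ℕ, ∀ (N y : ℕ) (D : K[X])
    (h : Fin k → K[X]), D.Monic → (∀ i, IsCoprime D (h i)) → r * y ≤ N →
    ∑ B ∈ Mn K N, (((SqM K y).filter (fun E => E ∣ Hh h (D * B))).card : ℝ) ^ r ≤
      ((N : ℝ) + 2) ^ C * (Fintype.card K : ℝ) ^ N

/-- **Task TAILW.**  Large divisors composed of small primes are rare, with the weight
`3 ^ (number of prime factors)`. -/
def S_tailw : Prop :=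
  ∀ (K : Type) [Field K] [Fintype K] (A₀ : ℕ) (η : ℝ), 0 < η → ∃ n₀ : ℕ, ∀ n : ℕ, n₀ ≤ n →
    ∀ z : ℕ, z ≤ A₀ * Nat.log 2 n →
      ∑ i ∈ Icc ⌈η * n⌉₊ n, (∑ d ∈ (Mn K i).filter (fun d => Squarefree d ∧ Smo z d),
        (3 : ℝ) ^ (PA d).ncard) / (Fintype.card K : ℝ) ^ i ≤ 1 / (n : ℝ) ^ A₀

/-- **Task TIIW.**  Type II sums with the weights. -/
def S_tiiw : Prop :=
  ∀ (K : Type) [Field K] [Fintype K] [CharP K 2] (k : ℕ) (ε : ℝ), 0 < ε →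
    ∃ (C : ℕ) (c θ : ℝ), 0 < c ∧ 0 < θ ∧ ∃ n₀ : ℕ, ∀ n : ℕ, n₀ ≤ n →
    ∀ (j y : ℕ) (h : Fin k → K[X]) (i₀ : Fin k) (lam α β : K[X] → ℝ), 1 ≤ j →
      (j : ℝ) ≤ (1 / 4 - ε) * n → (y : ℝ) ≤ θ * n → Shf n h → Bdd lam → Bdd α → Bdd β →
      |∑ p ∈ Irn K j, ∑ B ∈ Mn K (n - j),
        α p * β B * (Wt h lam y (p * B) * (mob (p * B + h i₀) : ℝ))| ≤
        (n : ℝ) ^ C * (Fintype.card K : ℝ) ^ n *
          ((Fintype.card K : ℝ) ^ (-(j : ℝ) / 64) + (Fintype.card K : ℝ) ^ (-c * n))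

/-- **Task TIW.**  Type I sums with the weights. -/
def S_tiw : Prop :=
  ∀ (K : Type) [Field K] [Fintype K] [CharP K 2] (k A₀ : ℕ) (δ : ℝ), 0 < δ →
    ∃ θ : ℝ, 0 < θ ∧ ∃ n₀ : ℕ, ∀ n : ℕ, n₀ ≤ n →
    ∀ (z y : ℕ) (D : K[X]) (h : Fin k → K[X]) (i₀ : Fin k) (lam : K[X] → ℝ),
      z ≤ A₀ * Nat.log 2 n → D.Monic → Squarefree D →
      2 * (D.natDegree : ℝ) ≤ (1 - δ) * n → (∀ i, IsCoprime D (h i)) → (y : ℝ) ≤ θ * n →
      Shf n h → Bdd lam →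
      |∑ B ∈ (Mn K (n - D.natDegree)).filter (Rgh z),
        Wt h lam y (D * B) * (mob (D * B + h i₀) : ℝ)| ≤
          (Fintype.card K : ℝ) ^ (n - D.natDegree) / (n : ℝ) ^ A₀

/-- **Task TWW.**  Type I sums twisted by the Moebius function, with the weights. -/
def S_tww : Prop :=
  ∀ (K : Type) [Field K] [Fintype K] [CharP K 2] (k A₀ : ℕ), ∃ θ : ℝ, 0 < θ ∧ ∃ n₀ : ℕ,
    ∀ n : ℕ, n₀ ≤ n → ∀ (z y : ℕ) (h : Fin k → K[X]) (i₀ : Fin k) (lam : K[X] → ℝ),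
      z ≤ A₀ * Nat.log 2 n → (y : ℝ) ≤ θ * n → Shf n h → Bdd lam →
      |∑ f ∈ (Mn K n).filter (Rgh z),
        Wt h lam y f * ((mob f : ℝ) * (mob (f + h i₀) : ℝ))| ≤
          (Fintype.card K : ℝ) ^ n / (n : ℝ) ^ A₀

/-- **Task BUCHW.**  The Buchstab identity with an explicit error term. -/
def S_buchw : Prop :=
  ∀ (K : Type) [Field K] [Fintype K] (N z l : ℕ) (φ : K[X] → ℝ), 1 ≤ z → z ≤ l → l ≤ N →
    |∑ f ∈ (Mn K N).filter (Rgh l), φ f - ∑ f ∈ (Mn K N).filter (Rgh z), φ f +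
      ∑ j ∈ Ico z l, ∑ p ∈ Irn K j, ∑ B ∈ Mn K (N - j), bw j B * φ (p * B)| ≤
        ∑ j ∈ Ico z l, ∑ p ∈ Irn K j, ∑ B ∈ (Mn K (N - j)).filter (fun B => p ∣ B), |φ (p * B)|

/-- **Task SQW.**  The multiples of squares of large primes. -/
def S_sqw : Prop :=
  ∀ (k : ℕ) (K : Type) [Field K] [Fintype K], ∃ C : ℕ, ∀ (N y z : ℕ) (D : K[X])
    (h : Fin k → K[X]) (lam : K[X] → ℝ), D.Monic → (∀ i, IsCoprime D (h i)) → 2 * y ≤ N →
    Bdd lam →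
    ∑ j ∈ Icc (max z 1) N, ∑ p ∈ Irn K j, ∑ B ∈ (Mn K (N - j)).filter (fun B => p ∣ B),
      |Wt h lam y (D * (p * B))| ≤
      ((N : ℝ) + 2) ^ C * (Fintype.card K : ℝ) ^ N * (Fintype.card K : ℝ) ^ (-(z : ℝ) / 2)

/-- The density of the sifted set among the irreducible polynomials: the product over the
irreducible `P` of degree at most `m` of `1 - ν_P / (|P| - 1)`, `ν_P` = number of the nonzero
residues of the `h i` modulo `P`. -/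
noncomputable def vp {K : Type} [Field K] [Fintype K] {k : ℕ} (m : ℕ) (h : Fin k → K[X]) : ℝ :=
  ∏ P ∈ PU K m, (lf (Fin.cons 0 h : Fin (k + 1) → K[X]) P /
    (1 - 1 / (Fintype.card K : ℝ) ^ P.natDegree))

/-- **Task VPL.**  Elementary properties of `vp`. -/
def S_vpl : Prop :=
  ∀ (K : Type) [Field K] [Fintype K] [CharP K 2] (k : ℕ), ∃ c : ℝ, 0 < c ∧ ∀ (m : ℕ) (h : Fin k → K[X]),
    1 ≤ m → 0 ≤ vp m h ∧
      ((∀ P ∈ PU K m, ∃ r : K[X], ¬ P ∣ r ∧ ∀ i, ¬ P ∣ r + h i) → c / (m : ℝ) ^ k ≤ vp m h) ∧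
      ((∃ P ∈ PU K m, ∀ r : K[X], ¬ P ∣ r → ∃ i, P ∣ r + h i) → vp m h = 0)

/-- **Task BRW.**  Sieve weights of the upper and of the lower sieve, in terms of `Wt`. -/
def S_brw : Prop :=
  ∀ (K : Type) [Field K] [Fintype K] (k : ℕ) (ε : ℝ), 0 < ε → ∃ A : ℕ,
    ∀ (m : ℕ) (h : Fin k → K[X]), 1 ≤ m → 0 < vp m h →
      ∃ lamU lamV : K[X] → ℝ, Bdd lamU ∧ Bdd lamV ∧
        (∀ E, (lamU E ≠ 0 ∨ lamV E ≠ 0) → ∀ P : K[X], Irreducible P → P ∣ E → P.natDegree ≤ m) ∧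
        (∀ f : K[X], (if Sif h m f then (1 : ℝ) else 0) ≤ Wt h lamU (A * m) f ∧
          Wt h lamV (A * m) f ≤ if Sif h m f then (1 : ℝ) else 0) ∧
        (∑ E ∈ SqM K (A * m), lamU E * ∏ P ∈ (PU K m).filter (fun P => P ∣ E),
            (1 - lf (Fin.cons 0 h : Fin (k + 1) → K[X]) P /
              (1 - 1 / (Fintype.card K : ℝ) ^ P.natDegree)) ≤ (1 + ε) * vp m h) ∧
        ((1 - ε) * vp m h ≤
          ∑ E ∈ SqM K (A * m), lamV E * ∏ P ∈ (PU K m).filter (fun P => P ∣ E),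
            (1 - lf (Fin.cons 0 h : Fin (k + 1) → K[X]) P /
              (1 - 1 / (Fintype.card K : ℝ) ^ P.natDegree)))

/-- **Task PAPW.**  The irreducible polynomials `p` such that `E` divides the product of the
`D p + h i`. -/
def S_papw : Prop :=
  ∀ (K : Type) [Field K] [Fintype K] [CharP K 2] (k : ℕ) (N : ℕ) (D E : K[X]) (h : Fin k → K[X]),
    1 ≤ N → D.Monic → E.Monic → Squarefree E → IsCoprime D E → E.natDegree < N →
    |((((Irn K N).filter (fun p => E ∣ Hh h (D * p))).card : ℝ)) -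
      (Fintype.card K : ℝ) ^ N / N * ∏ P ∈ (PU K E.natDegree).filter (fun P => P ∣ E),
        (1 - lf (Fin.cons 0 h : Fin (k + 1) → K[X]) P /
          (1 - 1 / (Fintype.card K : ℝ) ^ P.natDegree))| ≤
      ((k : ℝ) + 1) ^ E.natDegree * (2 * E.natDegree + 4 : ℝ) * Real.sqrt ((Fintype.card K : ℝ) ^ N)

/-- **Task PRSW.**  The sieve for the irreducible polynomials, simultaneously for the `D p + h i`. -/
def S_prsw : Prop :=
  ∀ (K : Type) [Field K] [Fintype K] [CharP K 2] (k : ℕ) (ε : ℝ), 0 < ε → ∃ (A : ℕ) (κ : ℝ),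
    0 < κ ∧ ∃ n₀ : ℕ, ∀ n : ℕ, n₀ ≤ n → ∀ (m : ℕ) (h : Fin k → K[X]), 1 ≤ m → (m : ℝ) ≤ κ * n →
      0 < vp m h →
      ∃ lamU lamV : K[X] → ℝ, Bdd lamU ∧ Bdd lamV ∧
        (∀ f : K[X], (if Sif h m f then (1 : ℝ) else 0) ≤ Wt h lamU (A * m) f ∧
          Wt h lamV (A * m) f ≤ if Sif h m f then (1 : ℝ) else 0) ∧
        ∀ (N : ℕ) (D : K[X]), n ≤ 5 * N → N ≤ n → D.Monic → Rgh (m + 1) D →
          ∑ p ∈ Irn K N, Wt h lamU (A * m) (D * p) ≤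
            (1 + ε) * (vp m h * (Fintype.card K : ℝ) ^ N / N) ∧
          (1 - ε) * (vp m h * (Fintype.card K : ℝ) ^ N / N) ≤
            ∑ p ∈ Irn K N, Wt h lamV (A * m) (D * p)

/-- The exceptional polynomials of `S_few`. -/
def Exc {K : Type} [Field K] (n : ℕ) (δ : ℝ) (f : K[X]) : Prop :=
  ¬ Squarefree f ∨ (PA f).ncard = 4 ∨
    ∃ D : K[X], D.Monic ∧ D ∣ f ∧ |2 * (D.natDegree : ℝ) - n| ≤ δ * n

/-- **Task FEWS.**  The exceptional `f` in the sifted set. -/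
def S_fews : Prop :=
  ∀ (K : Type) [Field K] [Fintype K] [CharP K 2] (k : ℕ), ∃ C : ℝ, 0 < C ∧ ∀ ε δ : ℝ, 0 < ε →
    ε ≤ 1 / 100 → 0 < δ → δ ≤ 1 / 10 → ∃ (κ : ℝ), 0 < κ ∧ ∃ n₀ : ℕ, ∀ n : ℕ, n₀ ≤ n →
    ∀ (l m : ℕ) (h : Fin k → K[X]), (1 / 4 - ε) * n ≤ l → 1 ≤ m → (m : ℝ) ≤ κ * n →
      0 < vp m h →
    (((Mn K n).filter (fun f => Rgh l f ∧ Exc n δ f ∧ Sif h m f)).card : ℝ) ≤
      C * (ε ^ 3 + δ) * (vp m h * (Fintype.card K : ℝ) ^ n / n)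

/-- **Task MAINA.**  The weighted sum over the polynomials without prime factors of degree less than
`l`, twisted by the Moebius function. -/
def S_maina : Prop :=
  ∀ (K : Type) [Field K] [Fintype K] [CharP K 2] (k A₁ : ℕ) (ε : ℝ), 0 < ε → ε ≤ 1 / 100 →
    ∃ θ : ℝ, 0 < θ ∧ ∃ n₀ : ℕ, ∀ n : ℕ, n₀ ≤ n →
    ∀ (l y : ℕ) (h : Fin k → K[X]) (i₀ : Fin k) (lam : K[X] → ℝ), (1 / 4 - ε) * n ≤ l →
      (l : ℝ) ≤ (1 / 4 - ε) * n + 1 → (y : ℝ) ≤ θ * n → Shf n h → Bdd lam →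
      |∑ f ∈ (Mn K n).filter (Rgh l), Wt h lam y f * (mob (f + h i₀) : ℝ) * (mob f : ℝ)| ≤
        (Fintype.card K : ℝ) ^ n / (n : ℝ) ^ A₁

/-- **Task MAINB.**  The weighted sum over the polynomials without prime factors of degree less than
`l`, twisted by a divisor sum of level less than `n / 2`. -/
def S_mainb : Prop :=
  ∀ (K : Type) [Field K] [Fintype K] [CharP K 2] (k A₁ : ℕ) (ε δ : ℝ), 0 < ε → ε ≤ 1 / 100 →
    0 < δ → ∃ θ : ℝ, 0 < θ ∧ ∃ n₀ : ℕ, ∀ n : ℕ, n₀ ≤ n →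
    ∀ (l y : ℕ) (h : Fin k → K[X]) (i₀ : Fin k) (lam : K[X] → ℝ), (1 / 4 - ε) * n ≤ l →
      (l : ℝ) ≤ (1 / 4 - ε) * n + 1 → (y : ℝ) ≤ θ * n → Shf n h → Bdd lam →
      |∑ f ∈ (Mn K n).filter (Rgh l), Wt h lam y f * (mob (f + h i₀) : ℝ) *
        ∑ i ∈ range (n + 1), ∑ D ∈ (Mn K i).filter (fun D => D ∣ f),
          (if 2 * (i : ℝ) ≤ (1 - δ) * n then cf D else 0)| ≤
        (Fintype.card K : ℝ) ^ n / (n : ℝ) ^ A₁

/-- **Task ASMW.**  The parity of `p + h i₀` for the irreducible `p` such that no `p + h i` has a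
small prime factor. -/
def S_chen : Prop :=
  ∀ (K : Type) [Field K] [Fintype K] [CharP K 2] (k : ℕ) (ε : ℝ), 0 < ε → ∃ κ : ℝ, 0 < κ ∧
    ∃ n₀ : ℕ, ∀ n : ℕ, n₀ ≤ n → ∀ (m : ℕ) (h : Fin k → K[X]) (i₀ : Fin k), 1 ≤ m →
      (m : ℝ) ≤ κ * n → Shf n h →
      |∑ p ∈ (Irn K n).filter (Sif h m), (mob (p + h i₀) : ℝ)| ≤
        ε * (vp m h * (Fintype.card K : ℝ) ^ n / n)

/-- **Task CNT.**  The number of these `p`. -/
def S_cnt : Prop :=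
  ∀ (K : Type) [Field K] [Fintype K] [CharP K 2] (k : ℕ) (ε : ℝ), 0 < ε → ∃ κ : ℝ, 0 < κ ∧
    ∃ n₀ : ℕ, ∀ n : ℕ, n₀ ≤ n → ∀ (m : ℕ) (h : Fin k → K[X]), 1 ≤ m → (m : ℝ) ≤ κ * n →
      |(((Irn K n).filter (Sif h m)).card : ℝ) - vp m h * (Fintype.card K : ℝ) ^ n / n| ≤
        ε * (vp m h * (Fintype.card K : ℝ) ^ n / n)

end Pool.Agent.H985.CH
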