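import Pool.Agent.H985.CH.Stm
import Pool.Agent.H251.SP.TW
import Pool.Agent.H523.RH2

/-!
# Task PAPW of project CH (helper348): prime polynomials `p` with `E` dividing the product of the
`D p + h i`
-/

set_option autoImplicit false
set_option linter.unusedSectionVars false

namespace Pool.Agent.H985.CH

open Polynomial Finset
open scoped Classical
open Pool.Agent.H985.Chow (mob)
open Pool.Agent.H985.KP (PA mobg)
open Pool.Agent.H694.Typ (Mn Irn mem_Mn mem_Irn card_Mn PU mem_PU)
open Pool.Agent.H225.Par (lf Om Om_card_le mod_eq_iff)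
open Pool.Agent.H341R2.Sharp (Mon mem_Mon)
open Pool.Agent.H523.FF (Ir mem_Ir PL mem_PL count_multi)
open Pool.Agent.H523.RH (Phi pnt Phi_prod)
open Pool.Agent.H251.SP (Smo)
open Pool.Agent.H251.SP.TW (ZZ mem_ZZ prod_ZZ)

namespace PAPWa

variable {K : Type} [Field K] [Fintype K]

lemma PU_prod {E : K[X]} (hE : E.Monic) (hs : Squarefree E) :
    ∏ P ∈ (PU K E.natDegree).filter (fun P => P ∣ E), P = E := by
  have h1 : (PU K E.natDegree).filter (fun P => P ∣ E) = ZZ (E.natDegree + 1) E := by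
    ext P
    rw [mem_filter, mem_PU, mem_ZZ hE.ne_zero]
    constructor
    · rintro ⟨⟨a, b, c⟩, d⟩
      exact ⟨a, b, d, by omega⟩
    · rintro ⟨a, b, c, d⟩
      exact ⟨⟨a, b, by omega⟩, c⟩
  rw [h1, prod_ZZ hE hs]
  intro P hP hPi hPE
  have := natDegree_le_of_dvd hPE hE.ne_zero
  omega

/-- the residues modulo `P` -/
noncomputable def RP {k : ℕ} (h : Fin k → K[X]) (D P : K[X]) : Finset K[X] :=
  (PL K P.natDegree).filter (fun r => ¬ P ∣ r ∧ P ∣ Hh h (D * r))

lemma dvd_Hh {k : ℕ} (h : Fin k → K[X]) {P : K[X]} (hP : Irreducible P) (f : K[X]) :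
    P ∣ Hh h f ↔ ∃ i, P ∣ f + h i := by
  unfold Hh
  constructor
  · intro hd
    obtain ⟨i, -, hi⟩ := hP.prime.exists_mem_finset_dvd hd
    exact ⟨i, hi⟩
  · rintro ⟨i, hi⟩
    exact hi.trans (Finset.dvd_prod_of_mem _ (mem_univ i))

lemma deg_unique {P a b : K[X]} (ha : a.degree < P.degree) (hb : b.degree < P.degree)
    (h : P ∣ a - b) : a = b := by
  by_contra hne
  have h1 := degree_le_of_dvd h (sub_ne_zero.mpr hne)
  have h2 : (a - b).degree < P.degree := lt_of_le_of_lt (degree_sub_le _ _) (max_lt ha hb)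
  exact absurd h1 (not_le.mpr h2)

lemma card_RP [CharP K 2] {k : ℕ} (h : Fin k → K[X]) {D P : K[X]} (hP : P.Monic)
    (hPi : Irreducible P) (hPD : ¬ P ∣ D) :
    (RP h D P).card + 1 = (Om (Fin.cons 0 h : Fin (k + 1) → K[X]) P).card := by
  have h0 : (0 : K[X]) ∈ Om (Fin.cons 0 h : Fin (k + 1) → K[X]) P := by
    unfold Om
    rw [mem_image]
    refine ⟨0, mem_univ _, ?_⟩
    rw [Fin.cons_zero, zero_modByMonic]
  rw [← card_erase_add_one h0]
  congr 1
  have hsub : ∀ a b : K[X], a + b = a - b := fun a b => (CharTwo.sub_eq_add a b).symm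
  refine Finset.card_bij (fun r _ => (D * r) %ₘ P) ?_ ?_ ?_
  · intro r hr
    unfold RP at hr
    rw [mem_filter, dvd_Hh h hPi] at hr
    obtain ⟨-, hr2, i, hi⟩ := hr
    rw [mem_erase]
    refine ⟨?_, ?_⟩
    · intro h1
      rw [modByMonic_eq_zero_iff_dvd hP] at h1
      rcases hPi.prime.dvd_or_dvd h1 with h2 | h2
      · exact hPD h2
      · exact hr2 h2
    · unfold Om
      rw [mem_image]
      refine ⟨i.succ, mem_univ _, ?_⟩
      rw [Fin.cons_succ]
      symm
      rw [mod_eq_iff hP, ← hsub]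
      exact hi
  · intro r hr r' hr' he
    unfold RP at hr hr'
    rw [mem_filter, mem_PL, ← degree_eq_natDegree hP.ne_zero] at hr hr'
    rw [mod_eq_iff hP, ← mul_sub] at he
    rcases hPi.prime.dvd_or_dvd he with h2 | h2
    · exact absurd h2 hPD
    · exact deg_unique hr.1 hr'.1 h2
  · intro y hy
    rw [mem_erase] at hy
    obtain ⟨hy0, hy1⟩ := hy
    unfold Om at hy1
    rw [mem_image] at hy1
    obtain ⟨j, -, hj⟩ := hy1
    have hj0 : j ≠ 0 := by
      rintro rfl
      rw [Fin.cons_zero, zero_modByMonic] at hj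
      exact hy0 hj.symm
    obtain ⟨i, rfl⟩ := Fin.exists_succ_eq.2 hj0
    rw [Fin.cons_succ] at hj
    obtain ⟨b, a, hab⟩ := (hPi.coprime_iff_not_dvd).2 hPD
    have hmod : ∀ x : K[X], P ∣ x %ₘ P - x := by
      intro x
      have h1 := modByMonic_add_div x P
      exact ⟨-(x /ₘ P), by linear_combination h1⟩
    have key : P ∣ D * ((a * h i) %ₘ P) - h i := by
      have e : D * ((a * h i) %ₘ P) - h i =
          D * ((a * h i) %ₘ P - a * h i) + P * (-(b * h i)) := by
        linear_combination (h i) * hab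
      rw [e]
      exact dvd_add ((hmod _).mul_left D) (dvd_mul_right _ _)
    refine ⟨(a * h i) %ₘ P, ?_, ?_⟩
    · unfold RP
      rw [mem_filter, mem_PL, ← degree_eq_natDegree hP.ne_zero, dvd_Hh h hPi]
      refine ⟨degree_modByMonic_lt _ hP, ?_, i, ?_⟩
      · intro hd
        apply hy0
        rw [← hj, modByMonic_eq_zero_iff_dvd hP]
        have h1 := dvd_sub (hd.mul_left D) key
        rwa [sub_sub_cancel] at h1
      · rw [hsub]
        exact key
    · rw [← hj, mod_eq_iff hP]
      exact key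

lemma cop_S {S : Finset K[X]} (hS : ∀ P ∈ S, P.Monic ∧ Irreducible P) (x : K[X]) :
    (∏ P ∈ S, P) ∣ x ↔ ∀ P ∈ S, P ∣ x := by
  constructor
  · intro h P hP
    exact (Finset.dvd_prod_of_mem (fun P => P) hP).trans h
  · intro h
    refine Finset.prod_dvd_of_coprime ?_ h
    intro P hP P' hP' hne
    refine ((hS P hP).2.coprime_iff_not_dvd).2 fun hd => hne ?_
    exact eq_of_monic_of_associated (hS P hP).1 (hS P' hP').1
      ((hS P hP).2.associated_of_dvd (hS P' hP').2 hd)

lemma Hh_congr {k : ℕ} (h : Fin k → K[X]) {E D a b : K[X]} (hab : E ∣ a - b)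
    (hE : E ∣ Hh h (D * b)) : E ∣ Hh h (D * a) := by
  have h1 : E ∣ Hh h (D * a) - Hh h (D * b) := by
    unfold Hh
    have h2 : ∀ s : Finset (Fin k), E ∣ ∏ i ∈ s, (D * a + h i) - ∏ i ∈ s, (D * b + h i) := by
      intro s
      induction s using Finset.induction_on with
      | empty => simp
      | insert i s hi ih =>
        rw [prod_insert hi, prod_insert hi]
        have e : (D * a + h i) * ∏ i ∈ s, (D * a + h i) - (D * b + h i) * ∏ i ∈ s, (D * b + h i) =
            (a - b) * (D * ∏ i ∈ s, (D * a + h i)) +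
              (D * b + h i) * (∏ i ∈ s, (D * a + h i) - ∏ i ∈ s, (D * b + h i)) := by ring
        rw [e]
        exact dvd_add (hab.mul_right _) (ih.mul_left _)
    exact h2 univ
  have := dvd_add h1 hE
  rwa [sub_add_cancel] at this

/-- one residue class -/
lemma one_class {E x : K[X]} {N : ℕ} (hN : 1 ≤ N) (hE : E.Monic) (hEN : E.natDegree < N)
    (hx : x.degree < E.degree) (hc : IsCoprime x E) :
    |(((Irn K N).filter (fun p => E ∣ p - x)).card : ℝ) -
      (Fintype.card K : ℝ) ^ N / N / Phi E 0| ≤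
      (2 * E.natDegree + 4 : ℝ) * Real.sqrt ((Fintype.card K : ℝ) ^ N) := by
  obtain ⟨f₀, hf₀⟩ : ∃ f₀ : K[X], f₀ = E * X ^ (N - E.natDegree) + x := ⟨_, rfl⟩
  have hm1 : (E * X ^ (N - E.natDegree)).Monic := hE.mul (monic_X_pow _)
  have hd1 : (E * X ^ (N - E.natDegree)).natDegree = N := by
    rw [hE.natDegree_mul (monic_X_pow _), natDegree_X_pow]
    omega
  have hlt : x.degree < (E * X ^ (N - E.natDegree)).degree := by
    refine hx.trans_le ?_
    rw [degree_eq_natDegree hE.ne_zero, degree_eq_natDegree hm1.ne_zero, hd1]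
    exact_mod_cast hEN.le
  have hm : f₀.Monic := by
    rw [hf₀]
    exact hm1.add_of_left hlt
  have hd : f₀.natDegree = N := by
    rw [hf₀, natDegree_add_eq_left_of_degree_lt hlt, hd1]
  have hfx : E ∣ f₀ - x := ⟨X ^ (N - E.natDegree), by rw [hf₀]; ring⟩
  have hcf : IsCoprime f₀ E := by
    rw [hf₀, add_comm]
    exact hc.add_mul_left_left _
  have hp := pnt hE 0 N hN (Nat.zero_le N) (mem_Mon.2 ⟨hm, hd⟩) hcf
  have hset : (Ir K N).filter
      (fun P => E ∣ P - f₀ ∧ (P - f₀).degree < ((N - 0 : ℕ) : WithBot ℕ)) =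
      (Irn K N).filter (fun p => E ∣ p - x) := by
    ext p
    rw [mem_filter, mem_filter, mem_Ir, mem_Irn]
    constructor
    · rintro ⟨⟨a1, a2, a3⟩, a4, -⟩
      refine ⟨⟨a1, a3, a2⟩, ?_⟩
      have := dvd_add a4 hfx
      have e : p - f₀ + (f₀ - x) = p - x := by ring
      rwa [e] at this
    · rintro ⟨⟨a1, a2, a3⟩, a4⟩
      refine ⟨⟨a1, a3, a2⟩, ?_, ?_⟩
      · have := dvd_sub a4 hfx
        have e : p - x - (f₀ - x) = p - f₀ := by ring
        rwa [e] at this
      · have h3 := degree_sub_lt_left (p := p) (q := f₀)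
          (by rw [degree_eq_natDegree a1.ne_zero, degree_eq_natDegree hm.ne_zero, a2, hd])
          a1.ne_zero (by rw [a1.leadingCoeff, hm.leadingCoeff])
        rw [degree_eq_natDegree a1.ne_zero, a2] at h3
        exact h3
  rw [hset] at hp
  have hsq : (Real.sqrt (Fintype.card K : ℝ)) ^ N = Real.sqrt ((Fintype.card K : ℝ) ^ N) := by
    have h1 : ((Real.sqrt (Fintype.card K : ℝ)) ^ N) ^ 2 = (Fintype.card K : ℝ) ^ N := by
      rw [← pow_mul, mul_comm, pow_mul, Real.sq_sqrt (by positivity)]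
    rw [← h1, Real.sqrt_sq (by positivity)]
  rw [hsq] at hp
  push_cast at hp
  rw [add_zero] at hp
  have hN1 : (1 : ℝ) ≤ N := by exact_mod_cast hN
  have hN0 : (0 : ℝ) < N := by linarith
  have e : ((((Irn K N).filter (fun p => E ∣ p - x)).card : ℝ) -
      (Fintype.card K : ℝ) ^ N / N / Phi E 0) = (1 / (N : ℝ)) *
      ((N : ℝ) * (((Irn K N).filter (fun p => E ∣ p - x)).card : ℝ) -
        (Fintype.card K : ℝ) ^ N / Phi E 0) := by
    field_simp
  rw [e, abs_mul, abs_of_pos (by positivity : (0 : ℝ) < 1 / N)]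
  refine le_trans ?_ hp
  refine mul_le_of_le_one_left (abs_nonneg _) ?_
  rw [div_le_one hN0]
  exact hN1

end PAPWa

open PAPWa

/-- **Task PAPW.** -/
theorem papw : S_papw := by
  intro K _ _ _ k N D E h hN hD hE hEs hDE hEN
  obtain ⟨q, hqdef⟩ : ∃ q : ℝ, q = Fintype.card K := ⟨_, rfl⟩
  have hq1 : (1 : ℝ) < q := by rw [hqdef]; exact_mod_cast Fintype.one_lt_card
  have hq0 : (0 : ℝ) < q := by linarith
  rw [← hqdef]
  obtain ⟨S, hS⟩ : ∃ S : Finset K[X], S = (PU K E.natDegree).filter (fun P => P ∣ E) := ⟨_, rfl⟩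
  rw [← hS]
  have hSE : ∏ P ∈ S, P = E := by rw [hS]; exact PU_prod hE hEs
  have hSP : ∀ P ∈ S, P.Monic ∧ Irreducible P := by
    intro P hP
    rw [hS, mem_filter, mem_PU] at hP
    exact ⟨hP.1.1, hP.1.2.1⟩
  have hSd : ∀ P ∈ S, ¬ P ∣ D := by
    intro P hP hd
    rw [hS, mem_filter] at hP
    exact (hSP P (by rw [hS, mem_filter]; exact hP)).2.not_isUnit (hDE.isUnit_of_dvd' hd hP.2)
  have hdeg : E.natDegree = ∑ P ∈ S, P.natDegree := by
    conv_lhs => rw [← hSE]
    exact natDegree_prod_of_monic _ _ fun P hP => (hSP P hP).1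
  obtain ⟨R, hR⟩ : ∃ R : Finset K[X], R = (PL K E.natDegree).filter
    (fun x => ∀ P ∈ S, ∃ r ∈ RP h D P, P ∣ x - r) := ⟨_, rfl⟩
  have hcardR : R.card = ∏ P ∈ S, (RP h D P).card := by
    rw [hR, count_multi (RP h D) S hSP ?_ E.natDegree hdeg.ge, ← hdeg, Nat.sub_self, pow_zero,
      mul_one]
    intro P hP r hr r' hr' hd
    unfold RP at hr hr'
    rw [mem_filter, mem_PL, ← degree_eq_natDegree (hSP P hP).1.ne_zero] at hr hr'
    exact deg_unique hr.1 hr'.1 hd
  have hRmem : ∀ x : K[X], x ∈ R ↔ x.degree < E.degree ∧ IsCoprime x E ∧ E ∣ Hh h (D * x) := by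
    intro x
    rw [hR, mem_filter, mem_PL, ← degree_eq_natDegree hE.ne_zero]
    refine and_congr_right fun hx => ?_
    have hmod : ∀ P : K[X], P ∣ x - x %ₘ P := by
      intro P
      have h1 := modByMonic_add_div x P
      exact ⟨x /ₘ P, by linear_combination -h1⟩
    constructor
    · intro hc
      constructor
      · rw [← hSE, IsCoprime.prod_right_iff]
        intro P hP
        rw [isCoprime_comm, (hSP P hP).2.coprime_iff_not_dvd]
        intro hd
        obtain ⟨r, hr, hxr⟩ := hc P hP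
        unfold RP at hr
        rw [mem_filter] at hr
        apply hr.2.1
        have := dvd_sub hd hxr
        rwa [sub_sub_cancel] at this
      · rw [← hSE, cop_S hSP]
        intro P hP
        obtain ⟨r, hr, hxr⟩ := hc P hP
        unfold RP at hr
        rw [mem_filter] at hr
        exact Hh_congr h hxr hr.2.2
    · rintro ⟨hc, hd⟩ P hP
      refine ⟨x %ₘ P, ?_, hmod P⟩
      have hPE : P ∣ E := by
        rw [← hSE]
        exact Finset.dvd_prod_of_mem (fun P => P) hP
      unfold RP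
      rw [mem_filter, mem_PL, ← degree_eq_natDegree (hSP P hP).1.ne_zero]
      refine ⟨degree_modByMonic_lt _ (hSP P hP).1, ?_, ?_⟩
      · intro h1
        have h2 : P ∣ x := by
          have := dvd_add (hmod P) h1
          rwa [sub_add_cancel] at this
        exact (hSP P hP).2.not_isUnit (hc.isUnit_of_dvd' h2 hPE)
      · refine Hh_congr h ?_ (hPE.trans hd)
        rw [dvd_sub_comm]
        exact hmod P
  -- the decomposition
  have hfib : (((Irn K N).filter (fun p => E ∣ Hh h (D * p))).card : ℝ) =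
      ∑ x ∈ R, (((Irn K N).filter (fun p => E ∣ p - x)).card : ℝ) := by
    have hmod : ∀ p : K[X], E ∣ p - p %ₘ E := by
      intro p
      have h1 := modByMonic_add_div p E
      exact ⟨p /ₘ E, by linear_combination -h1⟩
    rw [Finset.card_eq_sum_card_fiberwise (f := fun p => p %ₘ E) (t := R), Nat.cast_sum]
    · refine sum_congr rfl fun x hx => ?_
      rw [hRmem] at hx
      congr 2
      ext p
      rw [mem_filter, mem_filter, mem_filter]
      constructor
      · rintro ⟨⟨a1, a2⟩, a3⟩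
        exact ⟨a1, a3 ▸ hmod p⟩
      · rintro ⟨a1, a2⟩
        refine ⟨⟨a1, Hh_congr h a2 hx.2.2⟩, ?_⟩
        refine deg_unique (degree_modByMonic_lt _ hE) hx.1 ?_
        have := dvd_sub a2 (hmod p)
        have e : p - x - (p - p %ₘ E) = p %ₘ E - x := by ring
        rwa [e] at this
    · intro p hp
      rw [Finset.mem_coe, mem_filter, mem_Irn] at hp
      rw [Finset.mem_coe, hRmem]
      refine ⟨degree_modByMonic_lt _ hE, ?_, ?_⟩
      · have h1 : IsCoprime p E := by
          refine (hp.1.2.2.coprime_iff_not_dvd).2 fun hd => ?_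
          have := natDegree_le_of_dvd hd hE.ne_zero
          have h2 := hp.1.2.1
          omega
        have h2 : p %ₘ E = p + E * (-(p /ₘ E)) := by
          have h1 := modByMonic_add_div p E
          linear_combination h1
        change IsCoprime (p %ₘ E) E
        rw [h2]
        exact h1.add_mul_left_left _
      · refine Hh_congr h ?_ hp.2
        rw [dvd_sub_comm]
        exact hmod p
  -- the main term
  have hmain : q ^ N / N * ∏ P ∈ S, (1 - lf (Fin.cons 0 h : Fin (k + 1) → K[X]) P /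
      (1 - 1 / q ^ P.natDegree)) = ∑ x ∈ R, q ^ N / N / Phi E 0 := by
    rw [sum_const, nsmul_eq_mul, hcardR]
    have hPhi : (Phi E 0 : ℝ) = ∏ P ∈ S, (q ^ P.natDegree - 1) := by
      have h1 := Phi_prod S hSP 0
      rw [hSE, pow_zero, one_mul, ← hqdef] at h1
      exact h1
    rw [hPhi, Nat.cast_prod]
    have h2 : ∏ P ∈ S, (1 - lf (Fin.cons 0 h : Fin (k + 1) → K[X]) P /
        (1 - 1 / q ^ P.natDegree)) =
        (∏ P ∈ S, ((RP h D P).card : ℝ)) / ∏ P ∈ S, (q ^ P.natDegree - 1) := by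
      rw [← prod_div_distrib]
      refine prod_congr rfl fun P hP => ?_
      have h3 := card_RP h (hSP P hP).1 (hSP P hP).2 (hSd P hP)
      have h4 : (Om (Fin.cons 0 h : Fin (k + 1) → K[X]) P).card = ((RP h D P).card : ℝ) + 1 := by
        exact_mod_cast h3.symm
      have h5 : 1 < q ^ P.natDegree :=
        one_lt_pow₀ hq1 (hSP P hP).2.natDegree_pos.ne'
      unfold lf
      rw [h4, ← hqdef]
      have h6 : q ^ P.natDegree - 1 ≠ 0 := by linarith
      have h7 : q ^ P.natDegree ≠ 0 := by linarith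
      have h8 : 1 - 1 / q ^ P.natDegree = (q ^ P.natDegree - 1) / q ^ P.natDegree := by
        field_simp
      rw [h8]
      field_simp
      ring
    rw [h2]
    ring
  rw [hfib, hmain, ← sum_sub_distrib]
  refine (Finset.abs_sum_le_sum_abs _ _).trans ?_
  refine (sum_le_card_nsmul _ _ ((2 * E.natDegree + 4 : ℝ) * Real.sqrt (q ^ N))
    fun x hx => ?_).trans ?_
  · rw [hRmem] at hx
    have := one_class hN hE hEN hx.1 hx.2.1
    rw [← hqdef] at this
    exact this
  · rw [nsmul_eq_mul, mul_assoc]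
    refine mul_le_mul_of_nonneg_right ?_ (by positivity)
    have h1 : R.card ≤ (k + 1) ^ E.natDegree := by
      rw [hcardR, hdeg, ← Finset.prod_pow_eq_pow_sum]
      refine Finset.prod_le_prod' fun P hP => ?_
      have h3 := card_RP h (hSP P hP).1 (hSP P hP).2 (hSd P hP)
      have h4 := Om_card_le (Fin.cons 0 h : Fin (k + 1) → K[X]) P
      have h5 : k + 1 ≤ (k + 1) ^ P.natDegree :=
        Nat.le_self_pow (hSP P hP).2.natDegree_pos.ne' _
      omega
    exact_mod_cast h1

end Pool.Agent.H985.CH
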