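import Pool.Agent.H985.CH.Stm
import Pool.Agent.H251.SP.Asm1

/-!
# Chen's theorem with prescribed parity: the count and the final assembly (helper17 for helper985)
-/

set_option autoImplicit false
set_option linter.all false

namespace Pool.Agent.H985.CH

open Polynomial Finset
open scoped Classical
open Pool.Agent.H985.Chow (mob)
open Pool.Agent.H985.KP (PA mobg)
open Pool.Agent.H985.Par (Sft S_brun)
open Pool.Agent.H694.Typ (Mn Irn PU mem_Mn mem_Irn mem_PU wt wt_nonneg wt_add irn_one_le q_ge sum_PU)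
open Pool.Agent.H251.SP (Rgh Smo bw cf S_fb S_bf S_wm S_mob S_ps S_comb)
open Pool.Agent.H225.Par (lf)
open Pool.Agent.H251.SP.Asm (rgh_mono rgh_dvd rgh_mul rgh_irr mob_abs card_rough cf_abs MM mem_MM
  sum_MM)

namespace ChenX

/-- a sum of nonnegative terms over an image -/
theorem sum_image_le {α β : Type} [DecidableEq β] (s : Finset α) (g : α → β) (F : β → ℝ) (hF : ∀ b, 0 ≤ F b)
    (S : Finset β) (hS : S ⊆ s.image g) : ∑ b ∈ S, F b ≤ ∑ a ∈ s, F (g a) := by
  rw [Finset.sum_comp F g]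
  refine (Finset.sum_le_sum_of_subset_of_nonneg hS fun b _ _ => hF b).trans ?_
  refine Finset.sum_le_sum fun b hb => ?_
  rw [nsmul_eq_mul]
  have h1 : 1 ≤ (s.filter fun a => g a = b).card := by
    rw [Nat.one_le_iff_ne_zero, Finset.card_ne_zero]
    obtain ⟨a, ha, hab⟩ := mem_image.1 hb
    exact ⟨a, mem_filter.2 ⟨ha, hab⟩⟩
  have h2 : (1 : ℝ) ≤ ((s.filter fun a => g a = b).card : ℝ) := by exact_mod_cast h1
  nlinarith [hF b]

section dec
variable {K : Type} [Field K]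

theorem rgh_one (l : ℕ) : Rgh l (1 : K[X]) := by
  intro P _ b c
  exact absurd (isUnit_of_dvd_one c) b.not_isUnit

/-- one prime factor -/
theorem exists_dec {l : ℕ} {f : K[X]} (hf : f.Monic) (h1 : f ≠ 1) (hr : Rgh l f) :
    ∃ D p : K[X], p.Monic ∧ Irreducible p ∧ D.Monic ∧ f = D * p ∧ Rgh l D ∧ l ≤ p.natDegree ∧
      f.natDegree = D.natDegree + p.natDegree := by
  have hu : ¬ IsUnit f := fun h => h1 (hf.eq_one_of_isUnit h)
  obtain ⟨p, hp, hpi, D, hD⟩ := Polynomial.exists_monic_irreducible_factor f hu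
  have hDm : D.Monic := hp.of_mul_monic_left (hD ▸ hf)
  refine ⟨D, p, hp, hpi, hDm, by rw [hD, mul_comm], ?_, ?_, ?_⟩
  · exact rgh_dvd ⟨p, by rw [hD, mul_comm]⟩ hr
  · exact hr p hp hpi ⟨D, hD⟩
  · rw [hD, hp.natDegree_mul hDm, add_comm]

/-- an irreducible polynomial of large degree has no small prime factor -/
theorem not_dvd {n m : ℕ} {p P : K[X]} (hp : p.Monic) (hpi : Irreducible p) (hn : p.natDegree = n)
    (hP : P.Monic) (hPi : Irreducible P) (hm : P.natDegree ≤ m) (hmn : m < n) : ¬ P ∣ p := by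
  intro h
  have h1 : P = p := eq_of_monic_of_associated hP hp (hPi.associated_of_dvd hpi h)
  rw [h1] at hm
  omega

end dec

section fin
variable {K : Type} [Field K] [Fintype K]

/-- the sum of `1 / |D|` over the rough `D` of degree at most `N` -/
noncomputable def Zs (K : Type) [Field K] [Fintype K] (l N : ℕ) : ℝ :=
  ∑ D ∈ (MM K (N + 1)).filter (Rgh l), wt K D.natDegree

theorem Zs_nonneg (l N : ℕ) : 0 ≤ Zs K l N := sum_nonneg fun _ _ => wt_nonneg _

theorem wt_zero : wt K 0 = 1 := by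
  unfold Pool.Agent.H694.Typ.wt
  simp

/-- the sum of `1 / |p|` over the `p` of degree between `l` and `N` -/
theorem P_le (l N : ℕ) (hl : 1 ≤ l) (hN : N < 5 * l) :
    ∑ p ∈ (PU K N).filter (fun p => l ≤ p.natDegree), wt K p.natDegree ≤ 5 := by
  have hl0 : (0 : ℝ) < l := by exact_mod_cast hl
  rw [sum_filter, sum_PU]
  have h1 : ∀ j ∈ Icc 1 N, ∑ P ∈ Irn K j, (if l ≤ P.natDegree then wt K P.natDegree else 0) ≤
      1 / (l : ℝ) := by
    intro j hj
    rw [mem_Icc] at hj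
    have hj0 : (0 : ℝ) < j := by exact_mod_cast hj.1
    have e1 : ∑ P ∈ Irn K j, (if l ≤ P.natDegree then wt K P.natDegree else 0) =
        ((Irn K j).card : ℝ) * (if l ≤ j then wt K j else 0) := by
      rw [sum_congr rfl (fun P hP => by rw [(mem_Irn.1 hP).2.1]), sum_const, nsmul_eq_mul]
    rw [e1]
    by_cases h : l ≤ j
    · rw [if_pos h]
      have h2 : ((j * (Irn K j).card : ℕ) : ℝ) ≤ ((Fintype.card K ^ j : ℕ) : ℝ) := by
        exact_mod_cast irn_one_le (k := K) (d := j) (by omega)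
      push_cast at h2
      have hq : (0 : ℝ) < (Fintype.card K : ℝ) ^ j := by
        have := q_ge (k := K)
        positivity
      have h3 : ((Irn K j).card : ℝ) * wt K j ≤ 1 / j := by
        unfold Pool.Agent.H694.Typ.wt
        rw [le_div_iff₀ hj0, ← div_eq_mul_inv, div_mul_eq_mul_div, div_le_one hq]
        linarith
      refine h3.trans ?_
      have h4 : (l : ℝ) ≤ j := by exact_mod_cast h
      exact one_div_le_one_div_of_le hl0 h4
    · rw [if_neg h, mul_zero]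
      positivity
  refine (sum_le_sum h1).trans ?_
  rw [sum_const, Nat.card_Icc, nsmul_eq_mul, mul_one_div, div_le_iff₀ hl0]
  have h5 : ((N + 1 - 1 : ℕ) : ℝ) ≤ ((5 * l : ℕ) : ℝ) := by exact_mod_cast (by omega)
  push_cast at h5 ⊢
  linarith

theorem Zs_rec (l N : ℕ) (hl : 1 ≤ l) (hN : N < 5 * l) : Zs K l N ≤ 1 + 5 * Zs K l (N - l) := by
  set s : Finset (K[X] × K[X]) := ((MM K (N - l + 1)).filter (Rgh l)) ×ˢ
    ((PU K N).filter (fun p => l ≤ p.natDegree)) with hs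
  have h1 : (MM K (N + 1)).filter (Rgh l) ⊆
      insert 1 (s.image (fun x : K[X] × K[X] => x.1 * x.2)) := by
    intro f hf
    rw [mem_filter, mem_MM] at hf
    rw [mem_insert]
    by_cases hf1 : f = 1
    · exact Or.inl hf1
    · right
      obtain ⟨D, p, hp, hpi, hD, hfD, hDr, hlp, hdeg⟩ := exists_dec hf.1.1 hf1 hf.2
      rw [mem_image]
      refine ⟨(D, p), ?_, hfD.symm⟩
      rw [hs, mem_product, mem_filter, mem_filter, mem_MM, mem_PU]
      have h2 := hf.1.2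
      exact ⟨⟨⟨hD, by show D.natDegree < N - l + 1; omega⟩, hDr⟩,
        ⟨hp, hpi, by show p.natDegree ≤ N; omega⟩, hlp⟩
  have h2 : Zs K l N ≤ ∑ D ∈ insert 1 (s.image (fun x : K[X] × K[X] => x.1 * x.2)),
      wt K D.natDegree :=
    sum_le_sum_of_subset_of_nonneg h1 fun _ _ _ => wt_nonneg _
  have h3 : ∑ D ∈ insert 1 (s.image (fun x : K[X] × K[X] => x.1 * x.2)), wt K D.natDegree ≤
      1 + ∑ D ∈ s.image (fun x : K[X] × K[X] => x.1 * x.2), wt K D.natDegree := by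
    by_cases hm : (1 : K[X]) ∈ s.image (fun x : K[X] × K[X] => x.1 * x.2)
    · rw [insert_eq_of_mem hm]
      linarith
    · rw [sum_insert hm, natDegree_one, wt_zero]
  have h4 : ∑ D ∈ s.image (fun x : K[X] × K[X] => x.1 * x.2), wt K D.natDegree ≤
      ∑ x ∈ s, wt K (x.1 * x.2).natDegree :=
    sum_image_le s (fun x : K[X] × K[X] => x.1 * x.2) (fun D => wt K D.natDegree)
      (fun _ => wt_nonneg _) _ (Finset.Subset.refl _)
  have h5 : ∑ x ∈ s, wt K (x.1 * x.2).natDegree = Zs K l (N - l) *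
      ∑ p ∈ (PU K N).filter (fun p => l ≤ p.natDegree), wt K p.natDegree := by
    rw [hs, sum_product]
    unfold Zs
    rw [sum_mul]
    refine sum_congr rfl fun D hD => ?_
    rw [mul_sum]
    refine sum_congr rfl fun p hp => ?_
    rw [mem_filter, mem_MM] at hD
    rw [mem_filter, mem_PU] at hp
    show wt K (D * p).natDegree = _
    rw [hD.1.1.natDegree_mul hp.1.1, wt_add]
  have h6 := mul_le_mul_of_nonneg_left (P_le (K := K) l N hl hN) (Zs_nonneg (K := K) l (N - l))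
  linarith

theorem Zs_base (l N : ℕ) (h : N < l) : Zs K l N ≤ 1 := by
  have h1 : (MM K (N + 1)).filter (Rgh l) ⊆ {1} := by
    intro f hf
    rw [mem_filter, mem_MM] at hf
    rw [mem_singleton]
    by_contra hf1
    obtain ⟨D, p, hp, hpi, hD, hfD, hDr, hlp, hdeg⟩ := exists_dec hf.1.1 hf1 hf.2
    omega
  refine (sum_le_sum_of_subset_of_nonneg h1 fun _ _ _ => wt_nonneg _).trans ?_
  rw [sum_singleton, natDegree_one, wt_zero]

theorem Zs_le (l N : ℕ) (hl : 1 ≤ l) (hN : N < 5 * l) : Zs K l N ≤ 781 := by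
  have h1 : ∀ N : ℕ, N < 1 * l → Zs K l N ≤ 1 := fun N hN => Zs_base l N (by omega)
  have h2 : ∀ N : ℕ, N < 2 * l → Zs K l N ≤ 6 := by
    intro N hN
    have e1 := Zs_rec (K := K) l N hl (by omega)
    have e2 := h1 (N - l) (by omega)
    linarith
  have h3 : ∀ N : ℕ, N < 3 * l → Zs K l N ≤ 31 := by
    intro N hN
    have e1 := Zs_rec (K := K) l N hl (by omega)
    have e2 := h2 (N - l) (by omega)
    linarith
  have h4 : ∀ N : ℕ, N < 4 * l → Zs K l N ≤ 156 := by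
    intro N hN
    have e1 := Zs_rec (K := K) l N hl (by omega)
    have e2 := h3 (N - l) (by omega)
    linarith
  have e1 := Zs_rec (K := K) l N hl hN
  have e2 := h4 (N - l) (by omega)
  linarith

/-- the indicator function of the sifted set -/
noncomputable def sf {k : ℕ} (h : Fin k → K[X]) (m : ℕ) (f : K[X]) : ℝ := if Sif h m f then 1 else 0

/-- the sum of `W - 1` over the rough `f` -/
theorem oversum {k : ℕ} (h : Fin k → K[X]) (m n l : ℕ) (WU WV : K[X] → ℝ) (Y ε' : ℝ) (hn : 1 ≤ n)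
    (hl : 1 ≤ l) (hln : l ≤ n) (hn5 : n < 5 * l) (hml : m + 1 ≤ l) (hε' : 0 ≤ ε') (hY : 0 ≤ Y)
    (hW : ∀ f, sf h m f ≤ WU f ∧ WV f ≤ sf h m f)
    (hP : ∀ (N : ℕ) (D : K[X]), n ≤ 5 * N → N ≤ n → D.Monic → Rgh (m + 1) D →
      ∑ p ∈ Irn K N, WU (D * p) ≤ (1 + ε') * (Y * (Fintype.card K : ℝ) ^ N / N) ∧
        (1 - ε') * (Y * (Fintype.card K : ℝ) ^ N / N) ≤ ∑ p ∈ Irn K N, WV (D * p)) :
    ∑ f ∈ (Mn K n).filter (Rgh l), (WU f - sf h m f) ≤
      7810 * ε' * (Y * (Fintype.card K : ℝ) ^ n / n) := by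
  have hq := q_ge (k := K)
  have hn0 : (0 : ℝ) < n := by exact_mod_cast hn
  set s : Finset (Σ _ : K[X], K[X]) := ((MM K (n - l + 1)).filter (Rgh l)).sigma
    (fun D => Irn K (n - D.natDegree)) with hs
  have h1 : (Mn K n).filter (Rgh l) ⊆ s.image (fun x : (Σ _ : K[X], K[X]) => x.1 * x.2) := by
    intro f hf
    rw [mem_filter, mem_Mn] at hf
    have hf1 : f ≠ 1 := by
      rintro rfl
      have := hf.1.2
      rw [natDegree_one] at this
      omega
    obtain ⟨D, p, hp, hpi, hD, hfD, hDr, hlp, hdeg⟩ := exists_dec hf.1.1 hf1 hf.2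
    rw [mem_image]
    refine ⟨⟨D, p⟩, ?_, hfD.symm⟩
    rw [hs, mem_sigma, mem_filter, mem_MM, mem_Irn]
    have h2 := hf.1.2
    exact ⟨⟨⟨hD, by show D.natDegree < n - l + 1; omega⟩, hDr⟩, hp,
      by show p.natDegree = n - D.natDegree; omega, hpi⟩
  have h2 : ∑ f ∈ (Mn K n).filter (Rgh l), (WU f - sf h m f) ≤
      ∑ x ∈ s, (WU (x.1 * x.2) - sf h m (x.1 * x.2)) :=
    sum_image_le s (fun x : (Σ _ : K[X], K[X]) => x.1 * x.2) (fun f => WU f - sf h m f)
      (fun f => by linarith [(hW f).1]) _ h1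
  have h3 : ∑ x ∈ s, (WU (x.1 * x.2) - sf h m (x.1 * x.2)) =
      ∑ D ∈ (MM K (n - l + 1)).filter (Rgh l), ∑ p ∈ Irn K (n - D.natDegree),
        (WU (D * p) - sf h m (D * p)) := by
    rw [hs, sum_sigma]
  have h4 : ∀ D ∈ (MM K (n - l + 1)).filter (Rgh l), ∑ p ∈ Irn K (n - D.natDegree),
        (WU (D * p) - sf h m (D * p)) ≤
        10 * ε' * (Y * (Fintype.card K : ℝ) ^ n / n) * wt K D.natDegree := by
    intro D hD
    rw [mem_filter, mem_MM] at hD
    obtain ⟨⟨hDm, hDd⟩, hDr⟩ := hD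
    have e1 : ∑ p ∈ Irn K (n - D.natDegree), (WU (D * p) - sf h m (D * p)) ≤
        ∑ p ∈ Irn K (n - D.natDegree), (WU (D * p) - WV (D * p)) :=
      sum_le_sum fun p _ => by linarith [(hW (D * p)).2]
    have e1' : ∑ p ∈ Irn K (n - D.natDegree), (WU (D * p) - WV (D * p)) =
        ∑ p ∈ Irn K (n - D.natDegree), WU (D * p) - ∑ p ∈ Irn K (n - D.natDegree), WV (D * p) :=
      sum_sub_distrib _ _
    rw [e1'] at e1
    obtain ⟨e2, e3⟩ := hP (n - D.natDegree) D (by omega) (by omega) hDm (rgh_mono hml hDr)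
    have hN0 : (0 : ℝ) < ((n - D.natDegree : ℕ) : ℝ) := by exact_mod_cast (by omega)
    have e4 : Y * (Fintype.card K : ℝ) ^ (n - D.natDegree) / ((n - D.natDegree : ℕ) : ℝ) ≤
        5 * (Y * (Fintype.card K : ℝ) ^ n / n * wt K D.natDegree) := by
      have e5 : (Fintype.card K : ℝ) ^ (n - D.natDegree) =
          (Fintype.card K : ℝ) ^ n * wt K D.natDegree := by
        unfold Pool.Agent.H694.Typ.wt
        rw [pow_sub₀ _ (by positivity) (by omega)]
      rw [e5, div_le_iff₀ hN0]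
      have e6 : (n : ℝ) ≤ 5 * ((n - D.natDegree : ℕ) : ℝ) := by exact_mod_cast (by omega)
      have e7 : 0 ≤ Y * (Fintype.card K : ℝ) ^ n / n * wt K D.natDegree := by
        have := wt_nonneg (k := K) D.natDegree
        positivity
      calc Y * ((Fintype.card K : ℝ) ^ n * wt K D.natDegree) =
          Y * (Fintype.card K : ℝ) ^ n / n * wt K D.natDegree * n := by
            field_simp
        _ ≤ Y * (Fintype.card K : ℝ) ^ n / n * wt K D.natDegree *
            (5 * ((n - D.natDegree : ℕ) : ℝ)) := mul_le_mul_of_nonneg_left e6 e7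
        _ = _ := by ring
    have e8 := mul_le_mul_of_nonneg_left e4 hε'
    linarith
  rw [h3] at h2
  refine h2.trans ((sum_le_sum h4).trans ?_)
  rw [← mul_sum]
  have h5 := Zs_le (K := K) l (n - l) hl (by omega)
  have h6 : ∑ D ∈ (MM K (n - l + 1)).filter (Rgh l), wt K D.natDegree ≤ 781 := h5
  have h7 : 0 ≤ 10 * ε' * (Y * (Fintype.card K : ℝ) ^ n / n) := by positivity
  have h8 := mul_le_mul_of_nonneg_left h6 h7
  linarith

/-- the divisor sum -/
noncomputable def Tf (n : ℕ) (δ : ℝ) (f : K[X]) : ℝ :=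
  ∑ i ∈ range (n + 1), ∑ D ∈ (Mn K i).filter (fun D => D ∣ f),
    (if 2 * (i : ℝ) ≤ (1 - δ) * n then cf D else 0)

theorem Tf_abs {n l : ℕ} (δ : ℝ) {f : K[X]} (hf : f.Monic) (hd : f.natDegree = n)
    (hr : Rgh l f) (hn5 : n < 5 * l) : |Tf n δ f| ≤ 32 := by
  have h1 : Tf n δ f = ∑ D ∈ (MM K (n + 1)).filter (fun D => D ∣ f),
      (if 2 * (D.natDegree : ℝ) ≤ (1 - δ) * n then cf D else 0) := by
    rw [sum_filter, sum_MM]
    unfold Tf
    refine sum_congr rfl fun i _ => ?_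
    rw [sum_filter]
    refine sum_congr rfl fun D hD => ?_
    rw [(mem_Mn.1 hD).2]
  rw [h1]
  refine (abs_sum_le_sum_abs _ _).trans ?_
  have h2 : ∀ D ∈ (MM K (n + 1)).filter (fun D => D ∣ f),
      |(if 2 * (D.natDegree : ℝ) ≤ (1 - δ) * n then cf D else 0)| ≤ 2 := by
    intro D _
    split_ifs
    · exact cf_abs D
    · simp
  refine (sum_le_sum h2).trans ?_
  rw [sum_const, nsmul_eq_mul]
  have h3 : ((MM K (n + 1)).filter (fun D => D ∣ f)).card ≤ 16 := by
    refine card_rough hf.ne_zero hd.le hn5 _ ?_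
    intro D hD
    rw [mem_filter, mem_MM] at hD
    exact ⟨hD.1.1, hD.2, rgh_dvd hD.2 hr⟩
  have h4 : (((MM K (n + 1)).filter (fun D => D ∣ f)).card : ℝ) ≤ 16 := by exact_mod_cast h3
  linarith

/-- **the identity with exceptions and weights** -/
theorem ident {k n l m : ℕ} (h : Fin k → K[X]) (δ : ℝ) (φ WU : K[X] → ℝ) (hn : 1 ≤ n)
    (hδ : 0 < δ) (hln : l ≤ n) (hn5 : n < 5 * l) (hc : S_comb) (hφ : ∀ f, |φ f| ≤ 1)
    (hW : ∀ f, sf h m f ≤ WU f) :
    |3 * ∑ p ∈ (Irn K n).filter (Sif h m), φ p| ≤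
      |∑ f ∈ (Mn K n).filter (Rgh l), WU f * φ f * Tf n δ f| +
      |∑ f ∈ (Mn K n).filter (Rgh l), WU f * φ f * (mob f : ℝ)| +
      33 * ∑ f ∈ (Mn K n).filter (Rgh l), (WU f - sf h m f) +
      36 * (((Mn K n).filter (fun f => Rgh l f ∧ Exc n δ f ∧ Sif h m f)).card : ℝ) := by
  have hsf0 : ∀ f, 0 ≤ sf h m f := by
    intro f
    unfold sf
    split_ifs <;> norm_num
  have s1 : 3 * ∑ p ∈ (Irn K n).filter (Sif h m), φ p =
      ∑ f ∈ (Mn K n).filter (Rgh l),
        sf h m f * φ f * (3 * (if Irreducible f then (1 : ℝ) else 0)) := by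
    have e1 : ∑ p ∈ (Irn K n).filter (Sif h m), φ p =
        ∑ f ∈ Mn K n, (if Irreducible f then sf h m f * φ f else 0) := by
      unfold Pool.Agent.H694.Typ.Irn
      rw [sum_filter, sum_filter]
      refine sum_congr rfl fun f _ => ?_
      unfold sf
      split_ifs <;> simp
    rw [e1, sum_filter, mul_sum]
    refine sum_congr rfl fun f hf => ?_
    rw [mem_Mn] at hf
    by_cases h1 : Irreducible f
    · rw [if_pos h1, if_pos (rgh_irr hf.1 h1 (by omega)), if_pos h1]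
      ring
    · rw [if_neg h1, if_neg h1]
      split_ifs <;> ring
  have s2 : ∀ f ∈ (Mn K n).filter (Rgh l), ¬ Exc n δ f →
      3 * (if Irreducible f then (1 : ℝ) else 0) = Tf n δ f - (mob f : ℝ) := by
    intro f hf hex
    rw [mem_filter] at hf
    unfold Exc at hex
    rw [not_or, not_or, not_not] at hex
    obtain ⟨h1, h2, h3⟩ := hex
    exact hc K n l δ f hn hδ hf.1 hf.2 hn5 h1 h2 (by
      intro D hD hDf
      by_contra h4
      exact h3 ⟨D, hD, hDf, not_lt.1 h4⟩)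
  have sT : ∀ f ∈ (Mn K n).filter (Rgh l), |Tf n δ f| ≤ 32 := by
    intro f hf
    rw [mem_filter, mem_Mn] at hf
    exact Tf_abs δ hf.1.1 hf.1.2 hf.2 hn5
  have s3 : ∀ f ∈ (Mn K n).filter (Rgh l),
      |3 * (if Irreducible f then (1 : ℝ) else 0) - (Tf n δ f - (mob f : ℝ))| ≤ 36 := by
    intro f hf
    have e1 := sT f hf
    have e2 := mob_abs f
    rw [abs_le] at e1 e2 ⊢
    split_ifs <;> constructor <;> linarith [e1.1, e1.2, e2.1, e2.2]
  have s4 : |∑ f ∈ (Mn K n).filter (Rgh l),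
      sf h m f * φ f * (3 * (if Irreducible f then (1 : ℝ) else 0) - (Tf n δ f - (mob f : ℝ)))| ≤
      36 * (((Mn K n).filter (fun f => Rgh l f ∧ Exc n δ f ∧ Sif h m f)).card : ℝ) := by
    have e1 : ∑ f ∈ (Mn K n).filter (Rgh l),
        sf h m f * φ f * (3 * (if Irreducible f then (1 : ℝ) else 0) - (Tf n δ f - (mob f : ℝ))) =
        ∑ f ∈ (Mn K n).filter (fun f => Rgh l f ∧ Exc n δ f ∧ Sif h m f),
        sf h m f * φ f * (3 * (if Irreducible f then (1 : ℝ) else 0) -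
          (Tf n δ f - (mob f : ℝ))) := by
      symm
      refine sum_subset ?_ ?_
      · intro f hf
        rw [mem_filter] at hf ⊢
        exact ⟨hf.1, hf.2.1⟩
      · intro f hf hf'
        by_cases h1 : Exc n δ f
        · have h2 : ¬ Sif h m f := by
            intro h2
            exact hf' (mem_filter.2 ⟨(mem_filter.1 hf).1, (mem_filter.1 hf).2, h1, h2⟩)
          unfold sf
          rw [if_neg h2]
          ring
        · rw [s2 f hf h1, sub_self, mul_zero]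
    rw [e1]
    refine (abs_sum_le_sum_abs _ _).trans ?_
    refine (sum_le_sum (g := fun _ => (36 : ℝ)) fun f hf => ?_).trans ?_
    · rw [abs_mul, abs_mul]
      have e2 := s3 f (mem_filter.2 ⟨(mem_filter.1 hf).1, (mem_filter.1 hf).2.1⟩)
      have e3 : |sf h m f| ≤ 1 := by
        unfold sf
        split_ifs <;> simp
      calc |sf h m f| * |φ f| * _ ≤ 1 * 1 * 36 :=
            mul_le_mul (mul_le_mul e3 (hφ f) (abs_nonneg _) (by norm_num)) e2 (abs_nonneg _)
              (by norm_num)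
        _ = 36 := by norm_num
    · rw [sum_const, nsmul_eq_mul, mul_comm]
  have s5 : |∑ f ∈ (Mn K n).filter (Rgh l),
      (WU f - sf h m f) * φ f * (Tf n δ f - (mob f : ℝ))| ≤
      33 * ∑ f ∈ (Mn K n).filter (Rgh l), (WU f - sf h m f) := by
    refine (abs_sum_le_sum_abs _ _).trans ?_
    rw [mul_sum]
    refine sum_le_sum fun f hf => ?_
    have e0 : 0 ≤ WU f - sf h m f := by linarith [hW f]
    have e1 := sT f hf
    have e2 := mob_abs f
    have e3 : |Tf n δ f - (mob f : ℝ)| ≤ 33 := by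
      rw [abs_le] at e1 e2 ⊢
      constructor <;> linarith [e1.1, e1.2, e2.1, e2.2]
    rw [abs_mul, abs_mul, abs_of_nonneg e0]
    calc (WU f - sf h m f) * |φ f| * |Tf n δ f - (mob f : ℝ)| ≤
        (WU f - sf h m f) * 1 * 33 :=
          mul_le_mul (mul_le_mul_of_nonneg_left (hφ f) e0) e3 (abs_nonneg _) (by linarith)
      _ = _ := by ring
  have s6 : ∑ f ∈ (Mn K n).filter (Rgh l),
        sf h m f * φ f * (3 * (if Irreducible f then (1 : ℝ) else 0)) =
      ∑ f ∈ (Mn K n).filter (Rgh l), WU f * φ f * Tf n δ f -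
      ∑ f ∈ (Mn K n).filter (Rgh l), WU f * φ f * (mob f : ℝ) -
      ∑ f ∈ (Mn K n).filter (Rgh l), (WU f - sf h m f) * φ f * (Tf n δ f - (mob f : ℝ)) +
      ∑ f ∈ (Mn K n).filter (Rgh l),
      sf h m f * φ f * (3 * (if Irreducible f then (1 : ℝ) else 0) -
        (Tf n δ f - (mob f : ℝ))) := by
    rw [← sum_sub_distrib, ← sum_sub_distrib, ← sum_add_distrib]
    refine sum_congr rfl fun f _ => ?_
    ring
  rw [s1, s6]
  refine (abs_add_le _ _).trans (add_le_add ((abs_sub _ _).trans (add_le_add (abs_sub _ _) s5)) s4)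

/-- if the density vanishes the sifted set is empty -/
theorem empty {k : ℕ} [CharP K 2] (hv : S_vpl) (m n : ℕ) (h : Fin k → K[X]) (hm : 1 ≤ m)
    (hmn : m < n) (h0 : ¬ 0 < vp m h) : vp m h = 0 ∧ (Irn K n).filter (Sif h m) = ∅ := by
  obtain ⟨c, hc, hv⟩ := hv K k
  obtain ⟨v1, v2, v3⟩ := hv m h hm
  have h1 : ¬ ∀ P ∈ PU K m, ∃ r : K[X], ¬ P ∣ r ∧ ∀ i, ¬ P ∣ r + h i := by
    intro h2
    refine h0 (lt_of_lt_of_le ?_ (v2 h2))
    have : (0 : ℝ) < m := by exact_mod_cast hm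
    positivity
  push Not at h1
  obtain ⟨P, hP, h2⟩ := h1
  refine ⟨v3 ⟨P, hP, h2⟩, ?_⟩
  rw [filter_eq_empty_iff]
  intro p hp hS
  rw [mem_Irn] at hp
  rw [mem_PU] at hP
  obtain ⟨i, hi⟩ := h2 p (not_dvd hp.1 hp.2.2 hp.2.1 hP.1 hP.2.1 hP.2.2 hmn)
  have h3 := hS i P hP.1 hP.2.1 hi
  omega

end fin

end ChenX

namespace ChenX

theorem num1 {C η ε Y : ℝ} (hC0 : 0 < C) (hη0 : 0 < η) (hη1 : η ≤ 1 / 100)
    (hη2 : 72 * C * η ≤ ε) (hY0 : 0 < Y) : 36 * (C * (η ^ 3 + η) * Y) ≤ ε * Y := by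
  have e1 : η ^ 3 ≤ η := by
    have h1 : η ^ 2 ≤ 1 := by nlinarith
    calc η ^ 3 = η * η ^ 2 := by ring
      _ ≤ η * 1 := mul_le_mul_of_nonneg_left h1 hη0.le
      _ = η := mul_one _
  have e2 : C * (η ^ 3 + η) ≤ C * (η + η) := mul_le_mul_of_nonneg_left (by linarith) hC0.le
  have e3 : 36 * (C * (η ^ 3 + η)) ≤ ε := by linarith
  calc 36 * (C * (η ^ 3 + η) * Y) = 36 * (C * (η ^ 3 + η)) * Y := by ring
    _ ≤ ε * Y := mul_le_mul_of_nonneg_right e3 hY0.le

theorem num2 {ε c v q n : ℝ} (k : ℕ) (hε : 0 < ε) (hc : 0 < c) (hn : 0 < n) (hq : 0 < q)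
    (h1 : 2 ≤ n * (ε * c)) (h2 : c / n ^ k ≤ v) : q / n ^ (k + 2) ≤ ε / 2 * (v * q / n) := by
  have e1 : c / n ^ k * q / n ≤ v * q / n := by gcongr
  have e2 : q / n ^ (k + 2) ≤ ε / 2 * (c / n ^ k * q / n) := by
    have e3 : ε / 2 * (c / n ^ k * q / n) = (n * (ε * c)) / 2 * (q / n ^ (k + 2)) := by
      rw [pow_add]
      field_simp
    rw [e3]
    have e4 : (1 : ℝ) ≤ n * (ε * c) / 2 := by linarith
    have e5 : 0 ≤ q / n ^ (k + 2) := by positivity
    nlinarith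
  exact e2.trans (mul_le_mul_of_nonneg_left e1 (by positivity))

end ChenX

open ChenX

/-- **Task CNT.** -/
theorem cnt (hv : S_vpl) (hp : S_prsw) : S_cnt := by
  intro K _ _ _ k ε hε
  obtain ⟨A, κ, hκ, n₀, hpr⟩ := hp K k ε hε
  refine ⟨min κ (1 / 2), lt_min hκ (by norm_num), n₀ + 1, ?_⟩
  intro n hn m h hm hmn
  have hn0 : (0 : ℝ) < n := by exact_mod_cast (by omega)
  have h1 : (m : ℝ) ≤ κ * n := hmn.trans (mul_le_mul_of_nonneg_right (min_le_left _ _) hn0.le)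
  have h2 : (m : ℝ) ≤ 1 / 2 * n := hmn.trans (mul_le_mul_of_nonneg_right (min_le_right _ _) hn0.le)
  have h3 : m < n := by
    have : (m : ℝ) < n := by linarith
    exact_mod_cast this
  by_cases h0 : 0 < vp m h
  · obtain ⟨lamU, lamV, -, -, hW, hP⟩ := hpr n (by omega) m h hm h1 h0
    obtain ⟨e1, e2⟩ := hP n 1 (by omega) le_rfl monic_one (rgh_one _)
    have e3 : (((Irn K n).filter (Sif h m)).card : ℝ) =
        ∑ p ∈ Irn K n, (if Sif h m p then (1 : ℝ) else 0) := by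
      rw [card_filter]
      push_cast
      rfl
    have e4 : ∑ p ∈ Irn K n, (if Sif h m p then (1 : ℝ) else 0) ≤
        ∑ p ∈ Irn K n, Wt h lamU (A * m) (1 * p) := by
      refine sum_le_sum fun p _ => ?_
      rw [one_mul]
      exact (hW p).1
    have e5 : ∑ p ∈ Irn K n, Wt h lamV (A * m) (1 * p) ≤
        ∑ p ∈ Irn K n, (if Sif h m p then (1 : ℝ) else 0) := by
      refine sum_le_sum fun p _ => ?_
      rw [one_mul]
      exact (hW p).2
    rw [abs_le, e3]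
    constructor <;> linarith
  · obtain ⟨e1, e2⟩ := empty hv m n h hm h3 h0
    rw [e1, e2]
    simp

/-- **Task CHEN.** -/
theorem chen (hc : S_comb) (ha : S_maina) (hB : S_mainb) (hf : S_fews) (hv : S_vpl)
    (hp : S_prsw) : S_chen := by
  intro K _ _ _ k ε hε
  have hq := q_ge (k := K)
  obtain ⟨C, hC0, hC⟩ := hf K k
  obtain ⟨c, hc0, hvp⟩ := hv K k
  obtain ⟨η, hη⟩ : ∃ η : ℝ, η = min (1 / 100) (ε / (72 * C)) := ⟨_, rfl⟩
  have hη0 : 0 < η := by
    rw [hη]
    exact lt_min (by norm_num) (by positivity)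
  have hη1 : η ≤ 1 / 100 := by
    rw [hη]
    exact min_le_left _ _
  have hη2 : 72 * C * η ≤ ε := by
    have h1 : η ≤ ε / (72 * C) := by
      rw [hη]
      exact min_le_right _ _
    rw [le_div_iff₀ (by positivity)] at h1
    linarith
  obtain ⟨A, κ₁, hκ₁, n₁, h₁⟩ := hp K k (ε / 300000) (by positivity)
  obtain ⟨κ₂, hκ₂, n₂, h₂⟩ := hC η η hη0 hη1 hη0 (by linarith)
  obtain ⟨θ₁, hθ₁, n₃, h₃⟩ := ha K k (k + 2) η hη0 hη1
  obtain ⟨θ₂, hθ₂, n₄, h₄⟩ := hB K k (k + 2) η η hη0 hη1 hη0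
  obtain ⟨κ, hκ⟩ : ∃ κ : ℝ, κ = min (min κ₁ κ₂) (min (min (θ₁ / (A + 1)) (θ₂ / (A + 1))) (1 / 10)) :=
    ⟨_, rfl⟩
  have hκ0 : 0 < κ := by
    rw [hκ]
    refine lt_min (lt_min hκ₁ hκ₂) (lt_min (lt_min ?_ ?_) (by norm_num)) <;> positivity
  have k1 : κ ≤ κ₁ := by
    rw [hκ]
    exact (min_le_left _ _).trans (min_le_left _ _)
  have k2 : κ ≤ κ₂ := by
    rw [hκ]
    exact (min_le_left _ _).trans (min_le_right _ _)
  have k3 : κ ≤ θ₁ / (A + 1) := by
    rw [hκ]
    exact (min_le_right _ _).trans ((min_le_left _ _).trans (min_le_left _ _))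
  have k4 : κ ≤ θ₂ / (A + 1) := by
    rw [hκ]
    exact (min_le_right _ _).trans ((min_le_left _ _).trans (min_le_right _ _))
  have k5 : κ ≤ 1 / 10 := by
    rw [hκ]
    exact (min_le_right _ _).trans (min_le_right _ _)
  refine ⟨κ, hκ0, n₁ + n₂ + n₃ + n₄ + 10 + ⌈2 / (ε * c)⌉₊, ?_⟩
  intro n hn m h i₀ hm hmn hsh
  have hn10 : (10 : ℝ) ≤ n := by exact_mod_cast (by omega)
  have hn0 : (0 : ℝ) < n := by linarith
  have hm10 : (m : ℝ) ≤ 1 / 10 * n := hmn.trans (mul_le_mul_of_nonneg_right k5 hn0.le)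
  have hmltn : m < n := by
    have : (m : ℝ) < n := by linarith
    exact_mod_cast this
  by_cases h0 : 0 < vp m h
  swap
  · obtain ⟨e1, e2⟩ := empty hv m n h hm hmltn h0
    rw [e1, e2]
    simp
  -- the parameters
  obtain ⟨l, hl⟩ : ∃ l : ℕ, l = ⌊(1 / 4 - η) * n⌋₊ + 1 := ⟨_, rfl⟩
  have hk0 : 0 ≤ (1 / 4 - η) * n := by
    have : 0 ≤ 1 / 4 - η := by linarith
    positivity
  have hlge : (1 / 4 - η) * n ≤ l := by
    rw [hl]
    push_cast
    exact (Nat.lt_floor_add_one _).le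
  have hlle : (l : ℝ) ≤ (1 / 4 - η) * n + 1 := by
    rw [hl]
    push_cast
    have := Nat.floor_le hk0
    linarith
  have hl1 : 1 ≤ l := by omega
  have hl5 : n < 5 * l := by
    have e1 : (n : ℝ) < 5 * l := by nlinarith
    exact_mod_cast e1
  have hln : l ≤ n := by
    have e1 : (l : ℝ) ≤ n := by nlinarith
    exact_mod_cast e1
  have hml : m + 1 ≤ l := by
    have e1 : (m : ℝ) + 1 ≤ l := by nlinarith
    exact_mod_cast e1
  have hA0 : (0 : ℝ) < (A : ℝ) + 1 := by positivity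
  have hm0 : (0 : ℝ) ≤ m := Nat.cast_nonneg _
  have hy : ∀ θ : ℝ, κ ≤ θ / (A + 1) → ((A * m : ℕ) : ℝ) ≤ θ * n := by
    intro θ hθ
    rw [le_div_iff₀ hA0] at hθ
    push_cast
    calc (A : ℝ) * m ≤ (A + 1) * m := by linarith
      _ ≤ (A + 1) * (κ * n) := mul_le_mul_of_nonneg_left hmn hA0.le
      _ = κ * (A + 1) * n := by ring
      _ ≤ θ * n := mul_le_mul_of_nonneg_right hθ hn0.le
  obtain ⟨lamU, lamV, hU, hV, hW, hP⟩ := h₁ n (by omega) m h hm
    (hmn.trans (mul_le_mul_of_nonneg_right k1 hn0.le)) h0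
  have a1 := h₃ n (by omega) l (A * m) h i₀ lamU hlge hlle (hy θ₁ k3) hsh hU
  have a2 := h₄ n (by omega) l (A * m) h i₀ lamU hlge hlle (hy θ₂ k4) hsh hU
  have a3 := h₂ n (by omega) l m h hlge hm (hmn.trans (mul_le_mul_of_nonneg_right k2 hn0.le)) h0
  have a4 := oversum h m n l (Wt h lamU (A * m)) (Wt h lamV (A * m)) (vp m h) (ε / 300000)
    (by omega) hl1 hln hl5 hml (by positivity) h0.le hW (fun N D b1 b2 b3 b4 => hP N D b1 b2 b3 b4)
  have a5 := ident (n := n) (l := l) (m := m) h η (fun f => (mob (f + h i₀) : ℝ))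
    (Wt h lamU (A * m)) (by omega) hη0 hln hl5 hc (fun f => mob_abs _) (fun f => (hW f).1)
  obtain ⟨Y, hY⟩ : ∃ Y : ℝ, Y = vp m h * (Fintype.card K : ℝ) ^ n / n := ⟨_, rfl⟩
  have hqn : (0 : ℝ) < (Fintype.card K : ℝ) ^ n := by positivity
  have hY0 : 0 < Y := by
    rw [hY]
    positivity
  -- the density is not too small
  have b1 : c / (n : ℝ) ^ k ≤ vp m h := by
    have e1 : c / (m : ℝ) ^ k ≤ vp m h := by
      refine (hvp m h hm).2.1 ?_
      by_contra h5
      push Not at h5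
      have h6 := (hvp m h hm).2.2 h5
      linarith
    refine le_trans ?_ e1
    have hm1 : (1 : ℝ) ≤ m := by exact_mod_cast hm
    have hmn' : (m : ℝ) ≤ n := by exact_mod_cast hmltn.le
    gcongr
  have b2 : (Fintype.card K : ℝ) ^ n / (n : ℝ) ^ (k + 2) ≤ ε / 2 * Y := by
    have e1 : 2 / (ε * c) ≤ n := by
      refine (Nat.le_ceil _).trans ?_
      exact_mod_cast (show ⌈2 / (ε * c)⌉₊ ≤ n by omega)
    rw [div_le_iff₀ (by positivity)] at e1
    rw [hY]
    exact num2 k hε hc0 hn0 hqn e1 b1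
  have b3 : 36 * (C * (η ^ 3 + η) * Y) ≤ ε * Y := num1 hC0 hη0 hη1 hη2 hY0
  have b4 : 33 * (7810 * (ε / 300000) * Y) ≤ ε * Y := by
    have : 0 ≤ ε * Y := by positivity
    linarith
  rw [← hY] at a3 a4 ⊢
  rw [abs_mul, abs_of_pos (show (0 : ℝ) < 3 by norm_num)] at a5
  have a6 : |∑ f ∈ (Mn K n).filter (Rgh l), Wt h lamU (A * m) f * (mob (f + h i₀) : ℝ) *
      Tf n η f| ≤ (Fintype.card K : ℝ) ^ n / (n : ℝ) ^ (k + 2) := a2
  have b5 := mul_le_mul_of_nonneg_left a4 (show (0 : ℝ) ≤ 33 by norm_num)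
  have b6 := mul_le_mul_of_nonneg_left a3 (show (0 : ℝ) ≤ 36 by norm_num)
  linarith

end Pool.Agent.H985.CH

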