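import Mathlib
import Pool.Agent.H985.CH.Stm

/-!
# Project CH (helper985), task PRSW (helper71): the sieve for the irreducible polynomials
-/

set_option autoImplicit false
set_option linter.unusedSectionVars false

namespace Pool.Agent.H985.CH

open Polynomial Finset
open scoped Classical
open Pool.Agent.H694.Typ (Mn Irn PU mem_Mn card_Mn mem_Irn mem_PU q_ge)
open Pool.Agent.H251.SP (Rgh)
open Pool.Agent.H225.Par (lf)

namespace Prsw

section lemmas

variable {K : Type} [Field K] [Fintype K]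

lemma mem_SqM {y : ℕ} {E : K[X]} : E ∈ SqM K y ↔ E.Monic ∧ E.natDegree ≤ y ∧ Squarefree E := by
  unfold SqM
  rw [mem_filter, mem_biUnion]
  constructor
  · rintro ⟨⟨i, hi, hE⟩, hs⟩
    rw [mem_Mn] at hE
    rw [mem_range] at hi
    exact ⟨hE.1, by omega, hs⟩
  · rintro ⟨h1, h2, h3⟩
    exact ⟨⟨E.natDegree, mem_range.2 (by omega), mem_Mn.2 ⟨h1, rfl⟩⟩, h3⟩

lemma card_SqM (y : ℕ) : ((SqM K y).card : ℝ) ≤ ((y : ℝ) + 1) * (Fintype.card K : ℝ) ^ y := by
  have hq := q_ge (k := K)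
  have h1 : (SqM K y).card ≤ ∑ i ∈ range (y + 1), (Mn K i).card :=
    (card_le_card (filter_subset _ _)).trans card_biUnion_le
  have h2 : ((SqM K y).card : ℝ) ≤ ∑ i ∈ range (y + 1), (Fintype.card K : ℝ) ^ i := by
    have h3 : ((SqM K y).card : ℝ) ≤ ((∑ i ∈ range (y + 1), (Mn K i).card : ℕ) : ℝ) := by
      exact_mod_cast h1
    refine h3.trans (le_of_eq ?_)
    rw [Nat.cast_sum]
    exact sum_congr rfl fun i _ => by rw [card_Mn, Nat.cast_pow]
  refine h2.trans ?_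
  have h4 : ∑ i ∈ range (y + 1), (Fintype.card K : ℝ) ^ i ≤
      ∑ _i ∈ range (y + 1), (Fintype.card K : ℝ) ^ y :=
    sum_le_sum fun i hi => pow_le_pow_right₀ (by linarith) (by rw [mem_range] at hi; omega)
  rw [sum_const, card_range, nsmul_eq_mul] at h4
  push_cast at h4
  exact h4

/-- `E` with small prime factors and `D` with large ones are coprime -/
lemma cop {m : ℕ} {D E : K[X]} (hD : D.Monic) (hR : Rgh (m + 1) D)
    (hE : ∀ P : K[X], Irreducible P → P ∣ E → P.natDegree ≤ m) : IsCoprime D E := by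
  apply isCoprime_of_irreducible_dvd
  · rintro ⟨h, -⟩
    exact hD.ne_zero h
  · intro z hz h1 h2
    have h3 : (normalize z).Monic := monic_normalize hz.ne_zero
    have h4 : Irreducible (normalize z) := (normalize_associated z).symm.irreducible hz
    have h5 : normalize z ∣ D := (normalize_associated z).dvd.trans h1
    have h6 : normalize z ∣ E := (normalize_associated z).dvd.trans h2
    have h7 := hR _ h3 h4 h5
    have h8 := hE _ h4 h6
    omega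

/-- the two products agree -/
lemma filt {m : ℕ} {E : K[X]} (hE0 : E ≠ 0)
    (hE : ∀ P : K[X], Irreducible P → P ∣ E → P.natDegree ≤ m) :
    (PU K E.natDegree).filter (fun P => P ∣ E) = (PU K m).filter (fun P => P ∣ E) := by
  ext P
  rw [mem_filter, mem_filter, mem_PU, mem_PU]
  constructor
  · rintro ⟨⟨h1, h2, -⟩, h3⟩
    exact ⟨⟨h1, h2, hE P h2 h3⟩, h3⟩
  · rintro ⟨⟨h1, h2, -⟩, h3⟩
    exact ⟨⟨h1, h2, natDegree_le_of_dvd h3 hE0⟩, h3⟩

/-- the weighted sum over the irreducible polynomials -/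
lemma sum_Wt [CharP K 2] (hp : S_papw) {k m N y : ℕ} (D : K[X]) (h : Fin k → K[X])
    (lam : K[X] → ℝ) (hB : Bdd lam)
    (hs : ∀ E, lam E ≠ 0 → ∀ P : K[X], Irreducible P → P ∣ E → P.natDegree ≤ m)
    (hN : 1 ≤ N) (hy : y < N) (hD : D.Monic) (hR : Rgh (m + 1) D) :
    |∑ p ∈ Irn K N, Wt h lam y (D * p) - (Fintype.card K : ℝ) ^ N / N *
      ∑ E ∈ SqM K y, lam E * ∏ P ∈ (PU K m).filter (fun P => P ∣ E),
        (1 - lf (Fin.cons 0 h : Fin (k + 1) → K[X]) P /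
          (1 - 1 / (Fintype.card K : ℝ) ^ P.natDegree))| ≤
      ((SqM K y).card : ℝ) * (((k : ℝ) + 1) ^ y * (2 * y + 4 : ℝ) *
        Real.sqrt ((Fintype.card K : ℝ) ^ N)) := by
  have e1 : ∑ p ∈ Irn K N, Wt h lam y (D * p) =
      ∑ E ∈ SqM K y, lam E * (((Irn K N).filter (fun p => E ∣ Hh h (D * p))).card : ℝ) := by
    unfold Wt
    simp only [sum_filter]
    rw [sum_comm]
    refine sum_congr rfl fun E _ => ?_
    rw [← sum_filter, sum_const, nsmul_eq_mul, mul_comm]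
  rw [e1, mul_sum, ← sum_sub_distrib]
  refine (abs_sum_le_sum_abs _ _).trans ?_
  rw [← nsmul_eq_mul, ← sum_const]
  refine sum_le_sum fun E hE => ?_
  rw [mem_SqM] at hE
  obtain ⟨hE1, hE2, hE3⟩ := hE
  have hsq : 0 ≤ Real.sqrt ((Fintype.card K : ℝ) ^ N) := Real.sqrt_nonneg _
  by_cases h0 : lam E = 0
  · rw [h0, zero_mul, zero_mul, mul_zero, sub_zero, abs_zero]
    positivity
  · have h1 := hp K k N D E h hN hD hE1 hE3 (cop hD hR (hs E h0)) (by omega)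
    rw [filt hE1.ne_zero (hs E h0)] at h1
    have e2 : ∀ a b t v : ℝ, t * a - v * (t * b) = t * (a - v * b) := fun a b t v => by ring
    rw [e2, abs_mul]
    have h2 : |lam E| ≤ 1 := hB E
    refine (mul_le_mul h2 h1 (abs_nonneg _) zero_le_one).trans ?_
    rw [one_mul]
    have hk1 : (1 : ℝ) ≤ (k : ℝ) + 1 := by
      have : (0 : ℝ) ≤ k := Nat.cast_nonneg k
      linarith
    have h3 : ((k : ℝ) + 1) ^ E.natDegree ≤ ((k : ℝ) + 1) ^ y := pow_le_pow_right₀ hk1 hE2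
    have h4 : (2 * E.natDegree + 4 : ℝ) ≤ (2 * y + 4 : ℝ) := by
      have : (E.natDegree : ℝ) ≤ y := by exact_mod_cast hE2
      linarith
    exact mul_le_mul_of_nonneg_right (mul_le_mul h3 h4 (by positivity) (by positivity)) hsq

end lemmas

/-- the numerical inequality -/
lemma num (k : ℕ) (c : ℝ) (hc : 0 < c) : ∃ N₀ : ℕ, ∀ N : ℕ, N₀ ≤ N →
    12 * (N : ℝ) ^ (k + 3) ≤ c * ((2 : ℝ) ^ (3 / 8 : ℝ)) ^ N := by
  have hr : (1 : ℝ) < (2 : ℝ) ^ (3 / 8 : ℝ) := Real.one_lt_rpow (by norm_num) (by norm_num)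
  have h := (isLittleO_pow_const_const_pow_of_one_lt (R := ℝ) (k + 3) hr).def (c := c / 12) (by positivity)
  rw [Filter.eventually_atTop] at h
  obtain ⟨N₀, h⟩ := h
  refine ⟨N₀, fun N hN => ?_⟩
  have h1 := h N hN
  rw [Real.norm_of_nonneg (by positivity), Real.norm_of_nonneg (by positivity)] at h1
  linarith

/-- the error term -/
lemma err {q c ε v : ℝ} {k A m n N : ℕ} (hq : 2 ≤ q) (hc : 0 < c) (hε : 0 < ε) (hm : 1 ≤ m)
    (hN1 : 1 ≤ N) (hn : n ≤ 5 * N)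
    (hmn : (m : ℝ) ≤ 1 / (40 * (k + 2) * (A + 1)) * n) (hv : c / (m : ℝ) ^ k ≤ v)
    (hN : 12 * (N : ℝ) ^ (k + 3) ≤ (ε / 2 * c) * ((2 : ℝ) ^ (3 / 8 : ℝ)) ^ N) :
    A * m < N ∧
    (((A * m : ℕ) : ℝ) + 1) * q ^ (A * m) * (((k : ℝ) + 1) ^ (A * m) * (2 * ((A * m : ℕ) : ℝ) + 4 : ℝ) *
        Real.sqrt (q ^ N)) ≤ ε / 2 * (v * q ^ N / N) := by
  have hk : (0 : ℝ) ≤ k := Nat.cast_nonneg k
  have hA : (0 : ℝ) ≤ A := Nat.cast_nonneg A
  have hm1 : (1 : ℝ) ≤ m := by exact_mod_cast hm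
  have hNr : (1 : ℝ) ≤ N := by exact_mod_cast hN1
  have hnr : (n : ℝ) ≤ 5 * N := by exact_mod_cast hn
  have hq0 : 0 < q := by linarith
  have h1 : (8 : ℝ) * ((k + 2) * (A + 1) * m) ≤ N := by
    have h2 : (40 * ((k : ℝ) + 2) * (A + 1)) * m ≤ n := by
      have h3 : (m : ℝ) * (40 * ((k : ℝ) + 2) * (A + 1)) ≤ n := by
        rw [one_div, inv_mul_eq_div, le_div_iff₀ (by positivity)] at hmn
        exact hmn
      linarith
    nlinarith
  have hAm : (((A * m : ℕ) : ℝ)) ≤ (A + 1) * m := by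
    push_cast
    nlinarith
  have hJ : 8 * ((k + 2) * (A * m) : ℕ) ≤ N := by
    have h3 : (8 : ℝ) * (((k + 2) * (A * m) : ℕ) : ℝ) ≤ N := by
      refine le_trans ?_ h1
      push_cast
      have : ((k : ℝ) + 2) * (A * m) ≤ (k + 2) * (A + 1) * m := by
        rw [mul_assoc]
        exact mul_le_mul_of_nonneg_left (by nlinarith) (by positivity)
      linarith
    exact_mod_cast h3
  have hAm16 : 16 * (A * m) ≤ N := by nlinarith
  have hlt : A * m < N := by omega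
  refine ⟨hlt, ?_⟩
  have hmN : (m : ℝ) ≤ N := by nlinarith
  -- powers
  have hp1 : ((k : ℝ) + 1) ≤ q ^ (k + 1) := by
    have h3 : ((k : ℝ) + 1) ≤ 2 ^ (k + 1) := by
      have : (k + 1 : ℕ) ≤ 2 ^ (k + 1) := Nat.lt_two_pow_self.le
      exact_mod_cast this
    exact h3.trans (pow_le_pow_left₀ (by norm_num) hq _)
  have hp2 : q ^ (A * m) * ((k : ℝ) + 1) ^ (A * m) ≤ q ^ ((k + 2) * (A * m)) := by
    calc q ^ (A * m) * ((k : ℝ) + 1) ^ (A * m) ≤ q ^ (A * m) * (q ^ (k + 1)) ^ (A * m) :=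
          mul_le_mul_of_nonneg_left (pow_le_pow_left₀ (by positivity) hp1 _) (by positivity)
      _ = q ^ ((k + 2) * (A * m)) := by
          rw [← pow_mul, ← pow_add]
          congr 1
          ring
  have hp3 : q ^ ((k + 2) * (A * m)) ≤ q ^ ((N : ℝ) / 8) := by
    rw [← Real.rpow_natCast]
    apply Real.rpow_le_rpow_of_exponent_le (by linarith)
    have h3 : (8 : ℝ) * (((k + 2) * (A * m) : ℕ) : ℝ) ≤ N := by exact_mod_cast hJ
    linarith
  have hs : Real.sqrt (q ^ N) = q ^ ((N : ℝ) / 2) := by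
    rw [Real.sqrt_eq_rpow, ← Real.rpow_natCast, ← Real.rpow_mul hq0.le]
    congr 1
    ring
  have hr8 : ((2 : ℝ) ^ (3 / 8 : ℝ)) ^ N ≤ q ^ (3 * (N : ℝ) / 8) := by
    rw [← Real.rpow_natCast, ← Real.rpow_mul (by norm_num)]
    have e : (3 / 8 : ℝ) * (N : ℝ) = 3 * (N : ℝ) / 8 := by ring
    rw [e]
    exact Real.rpow_le_rpow (by norm_num) hq (by positivity)
  have hsplit : q ^ N = q ^ ((N : ℝ) / 8) * q ^ ((N : ℝ) / 2) * q ^ (3 * (N : ℝ) / 8) := by
    rw [← Real.rpow_add hq0, ← Real.rpow_add hq0, ← Real.rpow_natCast]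
    congr 1
    ring
  have hv0 : 0 < c / (m : ℝ) ^ k := by positivity
  rw [hs]
  have ha : (((A * m : ℕ) : ℝ) + 1) * (2 * ((A * m : ℕ) : ℝ) + 4) ≤ 12 * (N : ℝ) ^ 2 := by
    have h3 : ((A * m : ℕ) : ℝ) ≤ N := by exact_mod_cast hlt.le
    have h4 : (0 : ℝ) ≤ ((A * m : ℕ) : ℝ) := Nat.cast_nonneg _
    generalize ((A * m : ℕ) : ℝ) = t at h3 h4
    nlinarith
  have hx : 0 < q ^ ((N : ℝ) / 8) := Real.rpow_pos_of_pos hq0 _
  have hy : 0 < q ^ ((N : ℝ) / 2) := Real.rpow_pos_of_pos hq0 _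
  have hz : 0 < q ^ (3 * (N : ℝ) / 8) := Real.rpow_pos_of_pos hq0 _
  calc (((A * m : ℕ) : ℝ) + 1) * q ^ (A * m) * (((k : ℝ) + 1) ^ (A * m) * (2 * ((A * m : ℕ) : ℝ) + 4 : ℝ) *
        q ^ ((N : ℝ) / 2))
      = ((((A * m : ℕ) : ℝ) + 1) * (2 * ((A * m : ℕ) : ℝ) + 4)) *
          ((q ^ (A * m) * ((k : ℝ) + 1) ^ (A * m)) * q ^ ((N : ℝ) / 2)) := by ring
    _ ≤ (12 * (N : ℝ) ^ 2) * (q ^ ((N : ℝ) / 8) * q ^ ((N : ℝ) / 2)) := by
        refine mul_le_mul ha ?_ (by positivity) (by positivity)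
        exact mul_le_mul_of_nonneg_right (hp2.trans hp3) hy.le
    _ ≤ ε / 2 * (v * q ^ N / N) := by
        rw [hsplit, mul_div_assoc', le_div_iff₀ (by positivity)]
        have h5 : c ≤ v * (m : ℝ) ^ k := by
          rw [div_le_iff₀ (by positivity)] at hv
          exact hv
        have hvpos : 0 < v := hv0.trans_le hv
        have h6 : c ≤ v * (N : ℝ) ^ k := by
          refine h5.trans ?_
          exact mul_le_mul_of_nonneg_left (pow_le_pow_left₀ (by linarith) hmN _) hvpos.le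
        have h7 : 12 * (N : ℝ) ^ (k + 3) ≤ (ε / 2 * (v * (N : ℝ) ^ k)) * q ^ (3 * (N : ℝ) / 8) := by
          refine hN.trans ?_
          refine mul_le_mul ?_ hr8 (by positivity) (by positivity)
          exact mul_le_mul_of_nonneg_left h6 (by positivity)
        have h8 : 12 * (N : ℝ) ^ 3 ≤ ε / 2 * v * q ^ (3 * (N : ℝ) / 8) := by
          have hNk : 0 < (N : ℝ) ^ k := by positivity
          refine le_of_mul_le_mul_right ?_ hNk
          calc 12 * (N : ℝ) ^ 3 * (N : ℝ) ^ k = 12 * (N : ℝ) ^ (k + 3) := by ring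
            _ ≤ (ε / 2 * (v * (N : ℝ) ^ k)) * q ^ (3 * (N : ℝ) / 8) := h7
            _ = ε / 2 * v * q ^ (3 * (N : ℝ) / 8) * (N : ℝ) ^ k := by ring
        have h9 := mul_le_mul_of_nonneg_right h8 (mul_pos hx hy).le
        calc 12 * (N : ℝ) ^ 2 * (q ^ ((N : ℝ) / 8) * q ^ ((N : ℝ) / 2)) * N
            = 12 * (N : ℝ) ^ 3 * (q ^ ((N : ℝ) / 8) * q ^ ((N : ℝ) / 2)) := by ring
          _ ≤ ε / 2 * v * q ^ (3 * (N : ℝ) / 8) * (q ^ ((N : ℝ) / 8) * q ^ ((N : ℝ) / 2)) := h9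
          _ = ε / 2 * (v * (q ^ ((N : ℝ) / 8) * q ^ ((N : ℝ) / 2) * q ^ (3 * (N : ℝ) / 8))) := by ring

end Prsw

open Prsw in
/-- **Task PRSW** -/
theorem prsw (hv : S_vpl) (hb : S_brw) (hp : S_papw) : S_prsw := by
  intro K _ _ _ k ε hε
  obtain ⟨c, hc, hv⟩ := hv K k
  obtain ⟨A, hb⟩ := hb K k (ε / 2) (by positivity)
  obtain ⟨N₀, hnum⟩ := num k (ε / 2 * c) (by positivity)
  refine ⟨A, 1 / (40 * (k + 2) * (A + 1)), by positivity, 5 * N₀ + 1, ?_⟩
  intro n hn m h hm hmn hvp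
  obtain ⟨lamU, lamV, hU, hV, hsupp, hsif, hUs, hVs⟩ := hb m h hm hvp
  have hlow : c / (m : ℝ) ^ k ≤ vp m h := by
    refine (hv m h hm).2.1 ?_
    by_contra hno
    push Not at hno
    obtain ⟨P, hP, hno⟩ := hno
    have := (hv m h hm).2.2 ⟨P, hP, hno⟩
    linarith
  refine ⟨lamU, lamV, hU, hV, hsif, ?_⟩
  intro N D hnN hNn hD hR
  have hN1 : 1 ≤ N := by omega
  have hq := q_ge (k := K)
  obtain ⟨hlt, herr⟩ := err (q := (Fintype.card K : ℝ)) (v := vp m h) hq hc hε hm hN1 hnN hmn hlow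
    (hnum N (by omega))
  have hcard := card_SqM (K := K) (A * m)
  have hNr : (0 : ℝ) < N := by exact_mod_cast hN1
  have hq0 : (0 : ℝ) < (Fintype.card K : ℝ) ^ N / N := by positivity
  have hbound : ((SqM K (A * m)).card : ℝ) * (((k : ℝ) + 1) ^ (A * m) * (2 * ((A * m : ℕ) : ℝ) + 4 : ℝ) *
        Real.sqrt ((Fintype.card K : ℝ) ^ N)) ≤ ε / 2 * (vp m h * (Fintype.card K : ℝ) ^ N / N) :=
    (mul_le_mul_of_nonneg_right hcard (by positivity)).trans herr
  have e1 : ∀ x : ℝ, (Fintype.card K : ℝ) ^ N / N * (x * vp m h) = x * (vp m h * (Fintype.card K : ℝ) ^ N / N) :=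
    fun x => by ring
  constructor
  · have h1 := (sum_Wt hp D h lamU hU (fun E hE => hsupp E (Or.inl hE)) hN1 hlt hD hR).trans hbound
    have h2 := mul_le_mul_of_nonneg_left hUs hq0.le
    rw [e1] at h2
    have h3 := (abs_le.1 h1).2
    have e3 : (1 + ε) * (vp m h * (Fintype.card K : ℝ) ^ N / N) =
      ε / 2 * (vp m h * (Fintype.card K : ℝ) ^ N / N) + (1 + ε / 2) * (vp m h * (Fintype.card K : ℝ) ^ N / N) := by
      ring
    rw [e3]
    linarith
  · have h1 := (sum_Wt hp D h lamV hV (fun E hE => hsupp E (Or.inr hE)) hN1 hlt hD hR).trans hbound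
    have h2 := mul_le_mul_of_nonneg_left hVs hq0.le
    rw [e1] at h2
    have h3 := (abs_le.1 h1).1
    have e3 : (1 - ε) * (vp m h * (Fintype.card K : ℝ) ^ N / N) =
      (1 - ε / 2) * (vp m h * (Fintype.card K : ℝ) ^ N / N) - ε / 2 * (vp m h * (Fintype.card K : ℝ) ^ N / N) := by
      ring
    rw [e3]
    linarith

end Pool.Agent.H985.CH
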