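import Mathlib
import Pool.Agent.H985.CH.Stm
import Pool.Agent.H251.SP.Asm

/-!
# Chen's theorem with parity: the part with the divisor sum (task MAINB, helper113 for helper985)
-/

set_option autoImplicit false
set_option linter.all false

namespace Pool.Agent.H985.CH.MainbAux

open Polynomial Finset UniqueFactorizationMonoid
open scoped Classical
open Pool.Agent.H985.Chow (mob)
open Pool.Agent.H985.KP (PA mobg)
open Pool.Agent.H694.Typ (Mn Irn mem_Mn mem_Irn card_Mn card_dvd card_dvd_le no_dvd irn_one_le q_ge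
  wt wt_nonneg wt_add)
open Pool.Agent.H251.SP (Rgh Smo bw cf)
open Pool.Agent.H251.SP.Asm (rgh_mono rgh_dvd rgh_mul mob_abs card_rough cf_abs MM mem_MM sum_MM
  sum_dvd sum_MM_pow bw_abs card_Irn_le log_small pow_small log_pow)

section alg
variable {K : Type} [Field K]

/-- the coefficient restricted to the good divisors -/
noncomputable def ccg {k : ℕ} (n l : ℕ) (δ : ℝ) (h : Fin k → K[X]) (D : K[X]) : ℝ :=
  if 2 * (D.natDegree : ℝ) ≤ (1 - δ) * n ∧ Squarefree D ∧ Rgh l D ∧ ∀ i, IsCoprime D (h i) then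
    cf D else 0

theorem ccg_abs {k : ℕ} (n l : ℕ) (δ : ℝ) (h : Fin k → K[X]) (D : K[X]) :
    |ccg n l δ h D| ≤ 2 := by
  unfold ccg
  split_ifs
  · exact cf_abs D
  · simp

/-- the original coefficient -/
noncomputable def cco (n : ℕ) (δ : ℝ) (D : K[X]) : ℝ :=
  if 2 * (D.natDegree : ℝ) ≤ (1 - δ) * n then cf D else 0

theorem cco_abs (n : ℕ) (δ : ℝ) (D : K[X]) : |cco n δ D| ≤ 2 := by
  unfold cco
  split_ifs
  · exact cf_abs D
  · simp

end alg

variable {K : Type} [Field K] [Fintype K]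

theorem sum_div_le {n l : ℕ} {C : K[X]} (hC : C ≠ 0) (hn : C.natDegree ≤ n) (hl : n < 5 * l)
    (N : ℕ) (u : K[X] → ℝ) (hu : ∀ D, |u D| ≤ 2) (hu0 : ∀ D, D ∣ C → ¬ Rgh l D → u D = 0) :
    |∑ D ∈ (MM K N).filter (fun D => D ∣ C), u D| ≤ 32 := by
  have h1 : ∑ D ∈ (MM K N).filter (fun D => D ∣ C), u D =
      ∑ D ∈ ((MM K N).filter (fun D => D ∣ C)).filter (fun D => Rgh l D), u D := by
    symm
    refine sum_subset (filter_subset _ _) ?_
    intro D hD hD'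
    exact hu0 D (mem_filter.1 hD).2 (fun h => hD' (mem_filter.2 ⟨hD, h⟩))
  rw [h1]
  refine (abs_sum_le_sum_abs _ _).trans ?_
  refine (sum_le_sum fun D _ => hu D).trans ?_
  rw [sum_const, nsmul_eq_mul]
  have h3 : (((MM K N).filter (fun D => D ∣ C)).filter (fun D => Rgh l D)).card ≤ 16 := by
    refine card_rough hC hn hl _ ?_
    intro D hD
    rw [mem_filter, mem_filter, mem_MM] at hD
    exact ⟨hD.1.1.1, hD.1.2, hD.2⟩
  have h4 : ((((MM K N).filter (fun D => D ∣ C)).filter (fun D => Rgh l D)).card : ℝ) ≤ 16 := by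
    exact_mod_cast h3
  linarith

/-- **Part B, abstract form.** -/
theorem partB {n z l k : ℕ} (δ : ℝ) (h : Fin k → K[X]) (Φ : K[X] → ℝ) (X Y : ℝ) (hX : 0 ≤ X)
    (hY : 0 ≤ Y) (hln : 2 * l ≤ n) (hl5 : n < 5 * l) (hδ : 0 ≤ δ)
    (hT : ∀ D : K[X], D.Monic → Squarefree D → Rgh l D → (∀ i, IsCoprime D (h i)) →
      2 * (D.natDegree : ℝ) ≤ (1 - δ) * n → 2 * D.natDegree ≤ n →
      |∑ B ∈ (Mn K (n - D.natDegree)).filter (Rgh l), Φ (D * B) +
        ∑ j ∈ Ico z l, ∑ p ∈ Irn K j, ∑ B ∈ Mn K (n - D.natDegree - j),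
          bw j B * Φ (D * (p * B))| ≤ (Fintype.card K : ℝ) ^ (n - D.natDegree) * Y)
    (H : ∀ j ∈ Ico z l, ∀ β : K[X] → ℝ, (∀ B, |β B| ≤ 1) →
      |∑ p ∈ Irn K j, ∑ B ∈ Mn K (n - j), β B * Φ (p * B)| ≤ X) :
    |∑ f ∈ (Mn K n).filter (Rgh l),
      Φ f * ∑ D ∈ (MM K (n + 1)).filter (fun D => D ∣ f), ccg n l δ h D| ≤
      2 * (n + 1) * (Fintype.card K : ℝ) ^ n * Y + n * (32 * X) := by
  have hq := q_ge (k := K)
  have hn0 : (0 : ℝ) ≤ n := Nat.cast_nonneg n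
  -- the sum over `D`
  have s1 : ∑ f ∈ (Mn K n).filter (Rgh l),
      Φ f * ∑ D ∈ (MM K (n + 1)).filter (fun D => D ∣ f), ccg n l δ h D =
      ∑ D ∈ MM K (n + 1), ccg n l δ h D *
        ∑ f ∈ ((Mn K n).filter (Rgh l)).filter (fun f => D ∣ f), Φ f := by
    have e1 : ∀ f ∈ (Mn K n).filter (Rgh l),
        Φ f * ∑ D ∈ (MM K (n + 1)).filter (fun D => D ∣ f), ccg n l δ h D =
        ∑ D ∈ MM K (n + 1), (if D ∣ f then ccg n l δ h D * Φ f else 0) := by
      intro f _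
      rw [sum_filter, mul_sum]
      refine sum_congr rfl fun D _ => ?_
      split_ifs <;> ring
    rw [sum_congr rfl e1, sum_comm]
    refine sum_congr rfl fun D _ => ?_
    rw [← sum_filter, mul_sum]
  -- the type II sum of `D`
  obtain ⟨T2, hT2⟩ : ∃ T2 : K[X] → ℝ, ∀ D, T2 D = ∑ j ∈ Ico z l, ∑ p ∈ Irn K j,
      ∑ B ∈ Mn K (n - D.natDegree - j), bw j B * Φ (D * (p * B)) := ⟨_, fun _ => rfl⟩
  have s2 : ∀ D ∈ MM K (n + 1), |ccg n l δ h D *
      ∑ f ∈ ((Mn K n).filter (Rgh l)).filter (fun f => D ∣ f), Φ f + ccg n l δ h D * T2 D| ≤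
      2 * Y * (Fintype.card K : ℝ) ^ (n - D.natDegree) := by
    intro D hD
    rw [mem_MM] at hD
    by_cases hc : 2 * (D.natDegree : ℝ) ≤ (1 - δ) * n ∧ Squarefree D ∧ Rgh l D ∧
        ∀ i, IsCoprime D (h i)
    · obtain ⟨hc1, hc2, hc3, hc4⟩ := hc
      have hDn : 2 * D.natDegree ≤ n := by
        have e1 : 0 ≤ δ * n := by positivity
        have e2 : 2 * (D.natDegree : ℝ) ≤ n := by linarith
        exact_mod_cast e2
      have e1 : ∑ f ∈ ((Mn K n).filter (Rgh l)).filter (fun f => D ∣ f), Φ f =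
          ∑ B ∈ (Mn K (n - D.natDegree)).filter (Rgh l), Φ (D * B) := by
        have e2 : ((Mn K n).filter (Rgh l)).filter (fun f => D ∣ f) =
            ((Mn K n).filter (fun f => D ∣ f)).filter (Rgh l) := filter_comm _ _ _
        rw [e2, sum_filter, sum_dvd hD.1 (by omega) (fun f => if Rgh l f then Φ f else 0),
          sum_filter]
        refine sum_congr rfl fun B _ => ?_
        by_cases h3 : Rgh l B
        · rw [if_pos h3, if_pos (rgh_mul.2 ⟨hc3, h3⟩)]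
        · rw [if_neg h3, if_neg (fun h => h3 (rgh_mul.1 h).2)]
      have e5 := hT D hD.1 hc2 hc3 hc4 hc1 hDn
      rw [← hT2 D] at e5
      rw [← mul_add, abs_mul, e1]
      calc |ccg n l δ h D| * |∑ B ∈ (Mn K (n - D.natDegree)).filter (Rgh l), Φ (D * B) + T2 D|
          ≤ 2 * ((Fintype.card K : ℝ) ^ (n - D.natDegree) * Y) :=
            mul_le_mul (ccg_abs _ _ _ _ _) e5 (abs_nonneg _) (by norm_num)
        _ = _ := by ring
    · have e1 : ccg n l δ h D = 0 := by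
        unfold ccg
        rw [if_neg hc]
      rw [e1, zero_mul, zero_mul, add_zero, abs_zero]
      positivity
  have s3 : |∑ D ∈ MM K (n + 1), ccg n l δ h D *
        ∑ f ∈ ((Mn K n).filter (Rgh l)).filter (fun f => D ∣ f), Φ f +
        ∑ D ∈ MM K (n + 1), ccg n l δ h D * T2 D| ≤
      2 * (n + 1) * (Fintype.card K : ℝ) ^ n * Y := by
    rw [← sum_add_distrib]
    refine (abs_sum_le_sum_abs _ _).trans ((sum_le_sum s2).trans ?_)
    rw [← mul_sum, sum_MM_pow]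
    exact le_of_eq (by ring)
  -- the type II part
  have s4 : ∑ D ∈ MM K (n + 1), ccg n l δ h D * T2 D = ∑ j ∈ Ico z l, ∑ p ∈ Irn K j,
      ∑ C ∈ Mn K (n - j), (∑ D ∈ (MM K (n + 1)).filter (fun D => D ∣ C),
        ccg n l δ h D * bw j (C / D)) * Φ (p * C) := by
    have e1 : ∀ D ∈ MM K (n + 1), ccg n l δ h D * T2 D = ∑ j ∈ Ico z l, ∑ p ∈ Irn K j,
        ∑ C ∈ Mn K (n - j),
          (if D ∣ C then ccg n l δ h D * bw j (C / D) * Φ (p * C) else 0) := by
      intro D hD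
      rw [mem_MM] at hD
      by_cases hc : 2 * (D.natDegree : ℝ) ≤ (1 - δ) * n ∧ Squarefree D ∧ Rgh l D ∧
        ∀ i, IsCoprime D (h i)
      · obtain ⟨hc1, hc2, hc3, hc4⟩ := hc
        have hDn : 2 * D.natDegree ≤ n := by
          have e1 : 0 ≤ δ * n := by positivity
          have e2 : 2 * (D.natDegree : ℝ) ≤ n := by linarith
          exact_mod_cast e2
        rw [hT2, mul_sum]
        refine sum_congr rfl fun j hj => ?_
        rw [mem_Ico] at hj
        rw [mul_sum]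
        refine sum_congr rfl fun p hp => ?_
        rw [mul_sum, ← sum_filter, sum_dvd hD.1 (by omega)
          (fun C => ccg n l δ h D * bw j (C / D) * Φ (p * C))]
        have e2 : n - D.natDegree - j = n - j - D.natDegree := by omega
        rw [e2]
        refine sum_congr rfl fun B _ => ?_
        rw [mul_div_cancel_left₀ _ hD.1.ne_zero]
        have e3 : D * (p * B) = p * (D * B) := by ring
        rw [e3]
        ring
      · have e1 : ccg n l δ h D = 0 := by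
          unfold ccg
          rw [if_neg hc]
        rw [e1, zero_mul]
        symm
        refine sum_eq_zero fun j _ => sum_eq_zero fun p _ => sum_eq_zero fun C _ => ?_
        split_ifs <;> simp
    rw [sum_congr rfl e1, sum_comm]
    refine sum_congr rfl fun j _ => ?_
    rw [sum_comm]
    refine sum_congr rfl fun p _ => ?_
    rw [sum_comm]
    refine sum_congr rfl fun C _ => ?_
    rw [← sum_filter, sum_mul]
  have s5 : ∀ j ∈ Ico z l, |∑ p ∈ Irn K j, ∑ C ∈ Mn K (n - j),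
      (∑ D ∈ (MM K (n + 1)).filter (fun D => D ∣ C), ccg n l δ h D * bw j (C / D)) *
        Φ (p * C)| ≤ 32 * X := by
    intro j hj
    have e1 := H j hj (fun C => if C ∈ Mn K (n - j) then
      (∑ D ∈ (MM K (n + 1)).filter (fun D => D ∣ C), ccg n l δ h D * bw j (C / D)) / 32 else 0)
      (by
        intro C
        split_ifs with h1
        · rw [mem_Mn] at h1
          rw [abs_div, abs_of_pos (show (0 : ℝ) < 32 by norm_num), div_le_one (by norm_num)]
          refine sum_div_le h1.1.ne_zero (by omega) hl5 _ _ (fun D => ?_) (fun D _ hD => ?_)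
          · rw [abs_mul]
            calc |ccg n l δ h D| * |bw j (C / D)| ≤ 2 * 1 :=
                  mul_le_mul (ccg_abs _ _ _ _ _) (bw_abs _ _) (abs_nonneg _) (by norm_num)
              _ = 2 := by norm_num
          · unfold ccg
            rw [if_neg (fun hh => hD hh.2.2.1), zero_mul]
        · simp)
    have e2 : ∑ p ∈ Irn K j, ∑ C ∈ Mn K (n - j),
        (∑ D ∈ (MM K (n + 1)).filter (fun D => D ∣ C), ccg n l δ h D * bw j (C / D)) *
          Φ (p * C) = 32 * ∑ p ∈ Irn K j, ∑ C ∈ Mn K (n - j),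
        (if C ∈ Mn K (n - j) then
      (∑ D ∈ (MM K (n + 1)).filter (fun D => D ∣ C), ccg n l δ h D * bw j (C / D)) / 32 else 0) *
        Φ (p * C) := by
      rw [mul_sum]
      refine sum_congr rfl fun p _ => ?_
      rw [mul_sum]
      refine sum_congr rfl fun C hC => ?_
      rw [if_pos hC]
      ring
    rw [e2, abs_mul, abs_of_pos (show (0 : ℝ) < 32 by norm_num)]
    linarith
  have s6 : |∑ D ∈ MM K (n + 1), ccg n l δ h D * T2 D| ≤ n * (32 * X) := by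
    rw [s4]
    refine (abs_sum_le_sum_abs _ _).trans ((sum_le_sum s5).trans ?_)
    rw [sum_const, Nat.card_Ico, nsmul_eq_mul]
    refine mul_le_mul_of_nonneg_right ?_ (by positivity)
    exact_mod_cast (Nat.sub_le _ _).trans (by omega)
  rw [s1]
  rw [abs_le] at s3 s6 ⊢
  constructor <;> linarith [s3.1, s3.2, s6.1, s6.2]

/-- the number of the weights -/
noncomputable def ta {k : ℕ} (h : Fin k → K[X]) (y : ℕ) (f : K[X]) : ℝ :=
  (((SqM K y).filter (fun E => E ∣ Hh h f)).card : ℝ)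

theorem ta_nonneg {k : ℕ} (h : Fin k → K[X]) (y : ℕ) (f : K[X]) : 0 ≤ ta h y f :=
  Nat.cast_nonneg _

theorem wt_abs {k : ℕ} (h : Fin k → K[X]) {lam : K[X] → ℝ} (hl : Bdd lam) (y : ℕ) (f : K[X]) :
    |Wt h lam y f| ≤ ta h y f := by
  unfold Wt ta
  refine (abs_sum_le_sum_abs _ _).trans ((sum_le_sum fun E _ => hl E).trans ?_)
  rw [sum_const, nsmul_eq_mul, mul_one]

/-- the bad polynomials -/
def Bd {k : ℕ} (h : Fin k → K[X]) (f : K[X]) : Prop :=
  ¬ Squarefree f ∨ ∃ i, ¬ IsCoprime f (h i)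

theorem exists_monic {f : K[X]} (hf : f ≠ 0) (hu : ¬ IsUnit f) :
    ∃ P : K[X], P.Monic ∧ Irreducible P ∧ P ∣ f := by
  obtain ⟨P, hP, hPf⟩ := WfDvdMonoid.exists_irreducible_factor hu hf
  refine ⟨normalize P, monic_normalize hP.ne_zero, (normalize_associated P).symm.irreducible hP,
    ?_⟩
  exact (normalize_associated P).dvd.trans hPf

theorem card_fac {l n : ℕ} (hl : 1 ≤ l) {g : K[X]} (hg : g ≠ 0) (hn : g.natDegree ≤ n) :
    ((normalizedFactors g).toFinset.filter (fun P => l ≤ P.natDegree)).card ≤ n := by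
  set s : Multiset K[X] := (normalizedFactors g).filter (fun P => l ≤ P.natDegree) with hs
  have h1 : Multiset.card s * 1 ≤ n := by
    have h2 : Multiset.card (Multiset.map natDegree s) • 1 ≤ (Multiset.map natDegree s).sum := by
      refine Multiset.card_nsmul_le_sum ?_
      intro x hx
      rw [Multiset.mem_map] at hx
      obtain ⟨P, hP, rfl⟩ := hx
      exact hl.trans (Multiset.mem_filter.1 hP).2
    rw [Multiset.card_map, smul_eq_mul] at h2
    have h3 : (Multiset.map natDegree s).sum = s.prod.natDegree := by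
      refine (natDegree_multiset_prod_of_monic s ?_).symm
      intro P hP
      have h4 := (mem_normalizedFactors_iff' hg).1 (Multiset.mem_filter.1 hP).1
      rw [← h4.2.1]
      exact monic_normalize h4.1.ne_zero
    have h4 : s.prod ∣ g := by
      refine (Multiset.prod_dvd_prod_of_le (Multiset.filter_le _ _)).trans ?_
      exact (prod_normalizedFactors hg).dvd
    have h5 := natDegree_le_of_dvd h4 hg
    omega
  have h2 : (normalizedFactors g).toFinset.filter (fun P => l ≤ P.natDegree) ⊆ s.toFinset := by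
    intro P hP
    rw [mem_filter, Multiset.mem_toFinset] at hP
    rw [Multiset.mem_toFinset, hs, Multiset.mem_filter]
    exact hP
  exact (card_le_card h2).trans ((Multiset.toFinset_card_le _).trans (by omega))

/-- few bad polynomials -/
theorem card_bad {n l k : ℕ} (hl : 1 ≤ l) (h : Fin k → K[X]) (hh : Shf n h) :
    (((Mn K n).filter (fun f => Rgh l f ∧ Bd h f)).card : ℝ) ≤
      ((k : ℝ) + 1) * (n + 1) * ((Fintype.card K : ℝ) ^ n * wt K l) := by
  have hq := q_ge (k := K)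
  have hsub : (Mn K n).filter (fun f => Rgh l f ∧ Bd h f) ⊆
      ((Icc l n).biUnion fun j => (Irn K j).biUnion fun P => (Mn K n).filter (fun f => P ^ 2 ∣ f)) ∪
      (univ : Finset (Fin k)).biUnion fun i =>
        ((normalizedFactors (h i)).toFinset.filter (fun P => l ≤ P.natDegree)).biUnion fun P =>
          (Mn K n).filter (fun f => P ∣ f) := by
    intro f hf
    rw [mem_filter] at hf
    obtain ⟨hf1, hf2, hf3⟩ := hf
    have hfm := (mem_Mn.1 hf1)
    rw [mem_union]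
    rcases hf3 with hf3 | ⟨i, hf3⟩
    · left
      rw [squarefree_iff_no_irreducibles hfm.1.ne_zero] at hf3
      push Not at hf3
      obtain ⟨P0, hP0, hP0f⟩ := hf3
      have hP : (normalize P0).Monic := monic_normalize hP0.ne_zero
      have hPi : Irreducible (normalize P0) := (normalize_associated P0).symm.irreducible hP0
      have hPf : (normalize P0) ^ 2 ∣ f := by
        refine dvd_trans ?_ hP0f
        rw [← pow_two]
        exact ((normalize_associated P0).pow_pow).dvd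
      have hd := hf2 _ hP hPi ((dvd_pow_self _ two_ne_zero).trans hPf)
      have hd2 := natDegree_le_of_dvd hPf hfm.1.ne_zero
      rw [natDegree_pow, hfm.2] at hd2
      rw [mem_biUnion]
      refine ⟨(normalize P0).natDegree, mem_Icc.2 ⟨hd, by omega⟩, ?_⟩
      rw [mem_biUnion]
      exact ⟨normalize P0, mem_Irn.2 ⟨hP, rfl, hPi⟩, mem_filter.2 ⟨hf1, hPf⟩⟩
    · right
      have hi := (hh i).1
      have h1 : ¬ IsUnit (gcd f (h i)) := by
        intro hu
        exact hf3 ((gcd_isUnit_iff f (h i)).1 hu)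
      have h2 : gcd f (h i) ≠ 0 := gcd_ne_zero_of_right hi
      obtain ⟨P, hP, hPi, hPg⟩ := exists_monic h2 h1
      have hPf : P ∣ f := hPg.trans (gcd_dvd_left _ _)
      have hPh : P ∣ h i := hPg.trans (gcd_dvd_right _ _)
      rw [mem_biUnion]
      refine ⟨i, mem_univ i, ?_⟩
      rw [mem_biUnion]
      refine ⟨P, ?_, mem_filter.2 ⟨hf1, hPf⟩⟩
      rw [mem_filter, Multiset.mem_toFinset, mem_normalizedFactors_iff' hi]
      exact ⟨⟨hPi, hP.normalize_eq_self, hPh⟩, hf2 P hP hPi hPf⟩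
  have hw : 0 ≤ wt K l := wt_nonneg l
  have hwm : ∀ j, l ≤ j → wt K j ≤ wt K l := by
    intro j hj
    unfold Pool.Agent.H694.Typ.wt
    exact inv_anti₀ (by positivity) (pow_le_pow_right₀ (by linarith) hj)
  have hA : (((Icc l n).biUnion fun j => (Irn K j).biUnion fun P =>
      (Mn K n).filter (fun f => P ^ 2 ∣ f)).card : ℝ) ≤
      ((n : ℝ) + 1) * ((Fintype.card K : ℝ) ^ n * wt K l) := by
    have h1 : ((Icc l n).biUnion fun j => (Irn K j).biUnion fun P =>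
      (Mn K n).filter (fun f => P ^ 2 ∣ f)).card ≤ ∑ j ∈ Icc l n, ∑ P ∈ Irn K j,
        ((Mn K n).filter (fun f => P ^ 2 ∣ f)).card :=
      card_biUnion_le.trans (sum_le_sum fun j _ => card_biUnion_le)
    have h2 : ∀ j ∈ Icc l n, ∑ P ∈ Irn K j, (((Mn K n).filter (fun f => P ^ 2 ∣ f)).card : ℝ) ≤
        (Fintype.card K : ℝ) ^ n * wt K l := by
      intro j hj
      rw [mem_Icc] at hj
      have h3 : ∀ P ∈ Irn K j, (((Mn K n).filter (fun f => P ^ 2 ∣ f)).card : ℝ) ≤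
          (Fintype.card K : ℝ) ^ n * (wt K j * wt K j) := by
        intro P hP
        rw [mem_Irn] at hP
        refine (card_dvd_le (hP.1.pow 2)).trans ?_
        rw [natDegree_pow, hP.2.1, two_mul, wt_add]
      refine (sum_le_sum h3).trans ?_
      rw [sum_const, nsmul_eq_mul]
      have h4 := card_Irn_le (K := K) j
      have h5 : (Fintype.card K : ℝ) ^ j * wt K j = 1 := by
        unfold Pool.Agent.H694.Typ.wt
        exact mul_inv_cancel₀ (by positivity)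
      have hwj : 0 ≤ wt K j := wt_nonneg j
      calc ((Irn K j).card : ℝ) * ((Fintype.card K : ℝ) ^ n * (wt K j * wt K j)) ≤
            (Fintype.card K : ℝ) ^ j * ((Fintype.card K : ℝ) ^ n * (wt K j * wt K j)) :=
            mul_le_mul_of_nonneg_right h4 (by positivity)
        _ = (Fintype.card K : ℝ) ^ n * wt K j * ((Fintype.card K : ℝ) ^ j * wt K j) := by ring
        _ = (Fintype.card K : ℝ) ^ n * wt K j := by rw [h5, mul_one]
        _ ≤ (Fintype.card K : ℝ) ^ n * wt K l :=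
            mul_le_mul_of_nonneg_left (hwm j hj.1) (by positivity)
    calc _ ≤ ((∑ j ∈ Icc l n, ∑ P ∈ Irn K j,
        ((Mn K n).filter (fun f => P ^ 2 ∣ f)).card : ℕ) : ℝ) := by exact_mod_cast h1
      _ = ∑ j ∈ Icc l n, ∑ P ∈ Irn K j, (((Mn K n).filter (fun f => P ^ 2 ∣ f)).card : ℝ) := by
          push_cast
          rfl
      _ ≤ ∑ j ∈ Icc l n, (Fintype.card K : ℝ) ^ n * wt K l := sum_le_sum h2
      _ ≤ _ := by
          rw [sum_const, nsmul_eq_mul, Nat.card_Icc]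
          refine mul_le_mul_of_nonneg_right ?_ (by positivity)
          have : n + 1 - l ≤ n + 1 := Nat.sub_le _ _
          exact_mod_cast this
  have hB : (((univ : Finset (Fin k)).biUnion fun i =>
        ((normalizedFactors (h i)).toFinset.filter (fun P => l ≤ P.natDegree)).biUnion fun P =>
          (Mn K n).filter (fun f => P ∣ f)).card : ℝ) ≤
      (k : ℝ) * (n * ((Fintype.card K : ℝ) ^ n * wt K l)) := by
    have h1 : ((univ : Finset (Fin k)).biUnion fun i =>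
        ((normalizedFactors (h i)).toFinset.filter (fun P => l ≤ P.natDegree)).biUnion fun P =>
          (Mn K n).filter (fun f => P ∣ f)).card ≤ ∑ i : Fin k,
        ∑ P ∈ (normalizedFactors (h i)).toFinset.filter (fun P => l ≤ P.natDegree),
          ((Mn K n).filter (fun f => P ∣ f)).card :=
      card_biUnion_le.trans (sum_le_sum fun i _ => card_biUnion_le)
    have h2 : ∀ i : Fin k,
        ∑ P ∈ (normalizedFactors (h i)).toFinset.filter (fun P => l ≤ P.natDegree),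
          (((Mn K n).filter (fun f => P ∣ f)).card : ℝ) ≤
        n * ((Fintype.card K : ℝ) ^ n * wt K l) := by
      intro i
      have h3 : ∀ P ∈ (normalizedFactors (h i)).toFinset.filter (fun P => l ≤ P.natDegree),
          (((Mn K n).filter (fun f => P ∣ f)).card : ℝ) ≤
          (Fintype.card K : ℝ) ^ n * wt K l := by
        intro P hP
        rw [mem_filter, Multiset.mem_toFinset, mem_normalizedFactors_iff' (hh i).1] at hP
        have hPm : P.Monic := by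
          rw [← hP.1.2.1]
          exact monic_normalize hP.1.1.ne_zero
        exact (card_dvd_le hPm).trans (mul_le_mul_of_nonneg_left (hwm _ hP.2) (by positivity))
      refine (sum_le_sum h3).trans ?_
      rw [sum_const, nsmul_eq_mul]
      refine mul_le_mul_of_nonneg_right ?_ (by positivity)
      exact_mod_cast card_fac hl (hh i).1 (hh i).2.le
    calc _ ≤ ((∑ i : Fin k,
        ∑ P ∈ (normalizedFactors (h i)).toFinset.filter (fun P => l ≤ P.natDegree),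
          ((Mn K n).filter (fun f => P ∣ f)).card : ℕ) : ℝ) := by exact_mod_cast h1
      _ = ∑ i : Fin k, ∑ P ∈ (normalizedFactors (h i)).toFinset.filter (fun P => l ≤ P.natDegree),
          (((Mn K n).filter (fun f => P ∣ f)).card : ℝ) := by
          push_cast
          rfl
      _ ≤ ∑ i : Fin k, n * ((Fintype.card K : ℝ) ^ n * wt K l) := sum_le_sum fun i _ => h2 i
      _ = _ := by
          rw [sum_const, card_univ, Fintype.card_fin, nsmul_eq_mul]
  have h1 := (card_le_card hsub).trans (card_union_le _ _)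
  have h2 : (((Mn K n).filter (fun f => Rgh l f ∧ Bd h f)).card : ℝ) ≤
      ((n : ℝ) + 1) * ((Fintype.card K : ℝ) ^ n * wt K l) +
        (k : ℝ) * (n * ((Fintype.card K : ℝ) ^ n * wt K l)) := by
    refine le_trans ?_ (add_le_add hA hB)
    exact_mod_cast h1
  refine h2.trans ?_
  have h3 : 0 ≤ (Fintype.card K : ℝ) ^ n * wt K l := by positivity
  have h4 : (0 : ℝ) ≤ (k : ℝ) * ((Fintype.card K : ℝ) ^ n * wt K l) := by positivity
  nlinarith

/-- the sum of the weights over the bad polynomials -/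
theorem sum_bad {n l k y C : ℕ} (hl : 1 ≤ l) (h : Fin k → K[X]) (hh : Shf n h)
    (hm : ∑ B ∈ Mn K n, (ta h y B) ^ 2 ≤ ((n : ℝ) + 2) ^ C * (Fintype.card K : ℝ) ^ n) :
    ∑ f ∈ (Mn K n).filter (fun f => Rgh l f ∧ Bd h f), ta h y f ≤
      (((n : ℝ) + 2) ^ C + ((k : ℝ) + 1) * (n + 1)) * (Fintype.card K : ℝ) ^ n *
        (1 / 2) ^ (l / 2) := by
  have hq := q_ge (k := K)
  have hqn : (0 : ℝ) < (Fintype.card K : ℝ) ^ n := by positivity
  obtain ⟨t, ht⟩ : ∃ t : ℝ, t = (1 / 2) ^ (l / 2) := ⟨_, rfl⟩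
  have ht0 : 0 < t := by
    rw [ht]
    positivity
  have h1 := card_bad hl h hh
  have hwt : wt K l ≤ t * t := by
    have e1 := Pool.Agent.H694.Typ.wt_le_half (k := K) l
    refine e1.trans ?_
    rw [ht, ← pow_add]
    exact pow_le_pow_of_le_one (by norm_num) (by norm_num) (by omega)
  have h2 : ∀ f ∈ (Mn K n).filter (fun f => Rgh l f ∧ Bd h f),
      ta h y f ≤ t * (ta h y f) ^ 2 + t⁻¹ := by
    intro f _
    have e1 : 0 ≤ (t * ta h y f - 1) ^ 2 := sq_nonneg _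
    have e2 : 0 ≤ ta h y f := ta_nonneg h y f
    have e3 : t * ta h y f ≤ t * (t * (ta h y f) ^ 2 + t⁻¹) := by
      rw [mul_add, mul_inv_cancel₀ ht0.ne']
      nlinarith
    exact le_of_mul_le_mul_left e3 ht0
  refine (sum_le_sum h2).trans ?_
  rw [sum_add_distrib, ← mul_sum, sum_const, nsmul_eq_mul]
  have h3 : ∑ f ∈ (Mn K n).filter (fun f => Rgh l f ∧ Bd h f), (ta h y f) ^ 2 ≤
      ((n : ℝ) + 2) ^ C * (Fintype.card K : ℝ) ^ n :=
    (sum_le_sum_of_subset_of_nonneg (filter_subset _ _) fun _ _ _ => sq_nonneg _).trans hm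
  have h4 : (((Mn K n).filter (fun f => Rgh l f ∧ Bd h f)).card : ℝ) * t⁻¹ ≤
      ((k : ℝ) + 1) * (n + 1) * (Fintype.card K : ℝ) ^ n * t := by
    have e1 : ((k : ℝ) + 1) * (n + 1) * ((Fintype.card K : ℝ) ^ n * wt K l) ≤
        ((k : ℝ) + 1) * (n + 1) * ((Fintype.card K : ℝ) ^ n * (t * t)) := by gcongr
    calc (((Mn K n).filter (fun f => Rgh l f ∧ Bd h f)).card : ℝ) * t⁻¹ ≤
          (((k : ℝ) + 1) * (n + 1) * ((Fintype.card K : ℝ) ^ n * (t * t))) * t⁻¹ :=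
          mul_le_mul_of_nonneg_right (h1.trans e1) (by positivity)
      _ = ((k : ℝ) + 1) * (n + 1) * (Fintype.card K : ℝ) ^ n * t * (t * t⁻¹) := by ring
      _ = _ := by rw [mul_inv_cancel₀ ht0.ne', mul_one]
  rw [← ht]
  have h5 := mul_le_mul_of_nonneg_left h3 ht0.le
  nlinarith

/-- the saving of `z` -/
theorem q_log (E n : ℕ) (q s : ℝ) (hq : 2 ≤ q) (hn : 1 ≤ n)
    (hs : ((E * Nat.log 2 n : ℕ) : ℝ) ≤ s) : q ^ (-s) ≤ 2 ^ E / (n : ℝ) ^ E := by
  refine le_trans ?_ (log_pow E n q hq hn)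
  rw [← Real.rpow_natCast, ← Real.rpow_neg (by linarith)]
  exact Real.rpow_le_rpow_of_exponent_le (by linarith) (by linarith)

/-- comparison of powers -/
theorem pow_cmp {n a b e : ℕ} (hn : 1 ≤ n) (h : a + b ≤ e) :
    (n : ℝ) ^ a / (n : ℝ) ^ e ≤ 1 / (n : ℝ) ^ b := by
  have hn0 : (0 : ℝ) < n := by exact_mod_cast hn
  have hn1 : (1 : ℝ) ≤ n := by exact_mod_cast hn
  rw [div_le_div_iff₀ (by positivity) (by positivity), one_mul, ← pow_add]
  exact pow_le_pow_right₀ hn1 h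

/-- the final computation -/
theorem numeric (n C C' C'' A₁ k A₀ E L : ℕ) (Q q2 q64 qc S : ℝ) (hn : 1 ≤ n)
    (hQ : 0 < Q) (hE : C + C' + A₁ + 6 ≤ E) (hA : A₁ + 2 ≤ A₀)
    (h2 : q2 ≤ 2 ^ E / (n : ℝ) ^ E) (h64 : q64 ≤ 2 ^ E / (n : ℝ) ^ E)
    (hc : (n : ℝ) ^ E * qc ≤ 1)
    (hL : ((n : ℝ) ^ (C'' + A₁ + 3)) * (1 / 2) ^ L ≤ 1)
    (hk : 3 ^ C'' + 2 * (k + 1) ≤ n)
    (hbig : 4 + 4 * 3 ^ C' * 2 ^ E + 32 * (2 ^ E + 1) + 64 ≤ (n : ℝ))
    (hS : S ≤ 2 * (n + 1) * Q * (1 / (n : ℝ) ^ A₀ + ((n : ℝ) + 2) ^ C' * q2) +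
      n * (32 * ((n : ℝ) ^ C * Q * (q64 + qc))) +
      64 * ((((n : ℝ) + 2) ^ C'' + ((k : ℝ) + 1) * (n + 1)) * Q * (1 / 2) ^ L)) :
    S ≤ Q / (n : ℝ) ^ A₁ := by
  have hn0 : (0 : ℝ) < n := by exact_mod_cast hn
  have hn1 : (1 : ℝ) ≤ n := by exact_mod_cast hn
  obtain ⟨w, hw⟩ : ∃ w : ℝ, w = 1 / (n : ℝ) ^ (A₁ + 1) := ⟨_, rfl⟩
  have hw0 : 0 < w := by
    rw [hw]
    positivity
  have hw2 : 1 / (n : ℝ) ^ (A₁ + 2) * n = w := by
    rw [hw, pow_succ (n : ℝ) (A₁ + 1)]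
    field_simp
  have h3n : (n : ℝ) + 2 ≤ 3 * n := by linarith
  have h1 : 2 * ((n : ℝ) + 1) * (1 / (n : ℝ) ^ A₀) ≤ 4 * w := by
    have e1 : 1 / (n : ℝ) ^ A₀ ≤ 1 / (n : ℝ) ^ (A₁ + 2) :=
      one_div_le_one_div_of_le (by positivity) (pow_le_pow_right₀ hn1 hA)
    have e2 : (0 : ℝ) < 1 / (n : ℝ) ^ (A₁ + 2) := by positivity
    calc 2 * ((n : ℝ) + 1) * (1 / (n : ℝ) ^ A₀) ≤ (4 * n) * (1 / (n : ℝ) ^ (A₁ + 2)) :=
          mul_le_mul (by linarith) e1 (by positivity) (by positivity)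
      _ = 4 * (1 / (n : ℝ) ^ (A₁ + 2) * n) := by ring
      _ = 4 * w := by rw [hw2]
  have h2' : 2 * ((n : ℝ) + 1) * (((n : ℝ) + 2) ^ C' * q2) ≤ 4 * 3 ^ C' * 2 ^ E * w := by
    have e1 : ((n : ℝ) + 2) ^ C' ≤ 3 ^ C' * (n : ℝ) ^ C' := by
      rw [← mul_pow]
      exact pow_le_pow_left₀ (by positivity) h3n _
    have e2 : (n : ℝ) ^ C' / (n : ℝ) ^ E ≤ 1 / (n : ℝ) ^ (A₁ + 2) := pow_cmp hn (by omega)
    have e3 : ((n : ℝ) + 2) ^ C' * q2 ≤ 3 ^ C' * 2 ^ E * (1 / (n : ℝ) ^ (A₁ + 2)) := by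
      calc ((n : ℝ) + 2) ^ C' * q2 ≤ ((n : ℝ) + 2) ^ C' * (2 ^ E / (n : ℝ) ^ E) :=
            mul_le_mul_of_nonneg_left h2 (by positivity)
        _ ≤ (3 ^ C' * (n : ℝ) ^ C') * (2 ^ E / (n : ℝ) ^ E) :=
            mul_le_mul_of_nonneg_right e1 (by positivity)
        _ = 3 ^ C' * 2 ^ E * ((n : ℝ) ^ C' / (n : ℝ) ^ E) := by ring
        _ ≤ _ := mul_le_mul_of_nonneg_left e2 (by positivity)
    calc 2 * ((n : ℝ) + 1) * (((n : ℝ) + 2) ^ C' * q2) ≤
          2 * ((n : ℝ) + 1) * (3 ^ C' * 2 ^ E * (1 / (n : ℝ) ^ (A₁ + 2))) :=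
          mul_le_mul_of_nonneg_left e3 (by positivity)
      _ ≤ (4 * n) * (3 ^ C' * 2 ^ E * (1 / (n : ℝ) ^ (A₁ + 2))) :=
          mul_le_mul_of_nonneg_right (by linarith) (by positivity)
      _ = 4 * 3 ^ C' * 2 ^ E * (1 / (n : ℝ) ^ (A₁ + 2) * n) := by ring
      _ = _ := by rw [hw2]
  have hqc : qc ≤ 1 / (n : ℝ) ^ E := by
    rw [le_div_iff₀ (by positivity)]
    linarith
  have h3 : (n : ℝ) * (32 * ((n : ℝ) ^ C * (q64 + qc))) ≤ 32 * (2 ^ E + 1) * w := by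
    have e1 : q64 + qc ≤ (2 ^ E + 1) / (n : ℝ) ^ E := by
      rw [add_div]
      exact add_le_add h64 hqc
    have e2 : (n : ℝ) ^ (C + 1) / (n : ℝ) ^ E ≤ 1 / (n : ℝ) ^ (A₁ + 1) := pow_cmp hn (by omega)
    calc (n : ℝ) * (32 * ((n : ℝ) ^ C * (q64 + qc))) ≤
          (n : ℝ) * (32 * ((n : ℝ) ^ C * ((2 ^ E + 1) / (n : ℝ) ^ E))) := by gcongr
      _ = 32 * (2 ^ E + 1) * ((n : ℝ) ^ (C + 1) / (n : ℝ) ^ E) := by
          rw [pow_succ]
          ring
      _ ≤ 32 * (2 ^ E + 1) * (1 / (n : ℝ) ^ (A₁ + 1)) :=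
          mul_le_mul_of_nonneg_left e2 (by positivity)
      _ = _ := by rw [hw]
  have h4 : (((n : ℝ) + 2) ^ C'' + ((k : ℝ) + 1) * (n + 1)) * (1 / 2) ^ L ≤ w := by
    have e1 : ((n : ℝ) + 2) ^ C'' ≤ 3 ^ C'' * (n : ℝ) ^ (C'' + 1) := by
      calc ((n : ℝ) + 2) ^ C'' ≤ (3 * n) ^ C'' := pow_le_pow_left₀ (by positivity) h3n _
        _ = 3 ^ C'' * (n : ℝ) ^ C'' := by rw [mul_pow]
        _ ≤ 3 ^ C'' * (n : ℝ) ^ (C'' + 1) :=
            mul_le_mul_of_nonneg_left (pow_le_pow_right₀ hn1 (by omega)) (by positivity)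
    have e2 : ((k : ℝ) + 1) * (n + 1) ≤ 2 * ((k : ℝ) + 1) * (n : ℝ) ^ (C'' + 1) := by
      have e3 : (n : ℝ) ≤ (n : ℝ) ^ (C'' + 1) := by
        calc (n : ℝ) = (n : ℝ) ^ 1 := (pow_one _).symm
          _ ≤ (n : ℝ) ^ (C'' + 1) := pow_le_pow_right₀ hn1 (by omega)
      calc ((k : ℝ) + 1) * (n + 1) ≤ ((k : ℝ) + 1) * (2 * n) := by gcongr; linarith
        _ ≤ ((k : ℝ) + 1) * (2 * (n : ℝ) ^ (C'' + 1)) := by gcongr
        _ = _ := by ring
    have e3 : (3 : ℝ) ^ C'' + 2 * ((k : ℝ) + 1) ≤ n := by exact_mod_cast hk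
    have e4 : ((n : ℝ) + 2) ^ C'' + ((k : ℝ) + 1) * (n + 1) ≤ (n : ℝ) ^ (C'' + 2) := by
      calc ((n : ℝ) + 2) ^ C'' + ((k : ℝ) + 1) * (n + 1) ≤
            (3 ^ C'' + 2 * ((k : ℝ) + 1)) * (n : ℝ) ^ (C'' + 1) := by linarith
        _ ≤ n * (n : ℝ) ^ (C'' + 1) := mul_le_mul_of_nonneg_right e3 (by positivity)
        _ = (n : ℝ) ^ (C'' + 2) := by ring
    rw [hw, le_div_iff₀ (by positivity)]
    calc (((n : ℝ) + 2) ^ C'' + ((k : ℝ) + 1) * (n + 1)) * (1 / 2) ^ L * (n : ℝ) ^ (A₁ + 1) ≤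
          (n : ℝ) ^ (C'' + 2) * (1 / 2) ^ L * (n : ℝ) ^ (A₁ + 1) := by gcongr
      _ = (n : ℝ) ^ (C'' + A₁ + 3) * (1 / 2) ^ L := by
          rw [show C'' + A₁ + 3 = (C'' + 2) + (A₁ + 1) by ring, pow_add (n : ℝ) (C'' + 2)]
          ring
      _ ≤ 1 := hL
  have h5 : 2 * ((n : ℝ) + 1) * Q * (1 / (n : ℝ) ^ A₀ + ((n : ℝ) + 2) ^ C' * q2) +
      n * (32 * ((n : ℝ) ^ C * Q * (q64 + qc))) +
      64 * ((((n : ℝ) + 2) ^ C'' + ((k : ℝ) + 1) * (n + 1)) * Q * (1 / 2) ^ L) =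
      Q * (2 * ((n : ℝ) + 1) * (1 / (n : ℝ) ^ A₀) + 2 * ((n : ℝ) + 1) * (((n : ℝ) + 2) ^ C' * q2) +
        (n : ℝ) * (32 * ((n : ℝ) ^ C * (q64 + qc))) +
        64 * ((((n : ℝ) + 2) ^ C'' + ((k : ℝ) + 1) * (n + 1)) * (1 / 2) ^ L)) := by ring
  rw [h5] at hS
  refine hS.trans ?_
  have h6 : 2 * ((n : ℝ) + 1) * (1 / (n : ℝ) ^ A₀) + 2 * ((n : ℝ) + 1) * (((n : ℝ) + 2) ^ C' * q2) +
        (n : ℝ) * (32 * ((n : ℝ) ^ C * (q64 + qc))) +
        64 * ((((n : ℝ) + 2) ^ C'' + ((k : ℝ) + 1) * (n + 1)) * (1 / 2) ^ L) ≤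
      (4 + 4 * 3 ^ C' * 2 ^ E + 32 * (2 ^ E + 1) + 64) * w := by linarith
  have h7 : (4 + 4 * 3 ^ C' * 2 ^ E + 32 * (2 ^ E + 1) + 64) * w ≤ n * w :=
    mul_le_mul_of_nonneg_right hbig hw0.le
  have h8 : (n : ℝ) * w = 1 / (n : ℝ) ^ A₁ := by
    rw [hw, pow_succ]
    field_simp
  calc Q * _ ≤ Q * (n * w) := mul_le_mul_of_nonneg_left (h6.trans h7) hQ.le
    _ = Q / (n : ℝ) ^ A₁ := by rw [h8, mul_one_div]

end Pool.Agent.H985.CH.MainbAux

namespace Pool.Agent.H985.CH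

open Polynomial Finset
open scoped Classical
open Pool.Agent.H985.Chow (mob)
open Pool.Agent.H694.Typ (Mn Irn mem_Mn mem_Irn q_ge)
open Pool.Agent.H251.SP (Rgh Smo bw cf)
open Pool.Agent.H251.SP.Asm (rgh_mono rgh_dvd mob_abs MM mem_MM sum_MM log_small pow_small)
open MainbAux

/-- **Task MAINB.** -/
theorem mainb (h2 : S_tiiw) (h3 : S_tiw) (hb : S_buchw) (hs : S_sqw) (hm : S_momw) :
    S_mainb := by
  intro K _ _ _ k A₁ ε δ hε hε1 hδ
  have hq := q_ge (k := K)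
  obtain ⟨C, c, θ2, hc0, hθ2, n2, h2'⟩ := h2 K k ε hε
  obtain ⟨C', hC'⟩ := hs k K
  obtain ⟨C'', hC''⟩ := hm k 2 K
  obtain ⟨E, hE⟩ : ∃ E : ℕ, E = C + C' + A₁ + 6 := ⟨_, rfl⟩
  obtain ⟨A₀, hA₀⟩ : ∃ A₀ : ℕ, A₀ = 64 * E + 10 := ⟨_, rfl⟩
  obtain ⟨θ3, hθ3, n3, h3'⟩ := h3 K k A₀ δ hδ
  obtain ⟨n5, h5⟩ := log_small (64 * E + 1)
  obtain ⟨n6, h6⟩ := pow_small E (Fintype.card K : ℝ) c hq hc0
  obtain ⟨n7, h7⟩ := pow_small (C'' + A₁ + 3) 2 (1 / 10) le_rfl (by norm_num)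
  obtain ⟨P3, hP3⟩ : ∃ P3 : ℕ, P3 = 3 ^ C'' := ⟨_, rfl⟩
  refine ⟨min (min θ2 θ3) (1 / 4), lt_min (lt_min hθ2 hθ3) (by norm_num),
    n2 + n3 + n5 + n6 + n7 + 25 + ⌈(4 + 4 * 3 ^ C' * 2 ^ E + 32 * (2 ^ E + 1) + 64 : ℝ)⌉₊ +
      (P3 + 2 * (k + 1)), ?_⟩
  intro n hn l y h i₀ lam hl1 hl2 hy hSh hlam
  have hn25 : 25 ≤ n := by omega
  have hn1 : (1 : ℝ) ≤ n := by exact_mod_cast (show 1 ≤ n by omega)
  have hn0 : (0 : ℝ) < n := by linarith
  have hnr : (25 : ℝ) ≤ n := by exact_mod_cast hn25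
  have hbig : (4 + 4 * 3 ^ C' * 2 ^ E + 32 * (2 ^ E + 1) + 64 : ℝ) ≤ n := by
    refine (Nat.le_ceil _).trans ?_
    exact_mod_cast (show ⌈(4 + 4 * 3 ^ C' * 2 ^ E + 32 * (2 ^ E + 1) + 64 : ℝ)⌉₊ ≤ n by omega)
  have hk : 3 ^ C'' + 2 * (k + 1) ≤ n := by
    rw [← hP3]
    omega
  have hy2 : (y : ℝ) ≤ θ2 * n :=
    hy.trans (mul_le_mul_of_nonneg_right ((min_le_left _ _).trans (min_le_left _ _)) hn0.le)
  have hy3 : (y : ℝ) ≤ θ3 * n :=
    hy.trans (mul_le_mul_of_nonneg_right ((min_le_left _ _).trans (min_le_right _ _)) hn0.le)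
  have hy4 : 4 * y ≤ n := by
    have e1 : (y : ℝ) ≤ 1 / 4 * n :=
      hy.trans (mul_le_mul_of_nonneg_right (min_le_right _ _) hn0.le)
    have e2 : (4 * y : ℝ) ≤ n := by linarith
    exact_mod_cast e2
  -- the parameters
  have hlog : 1 ≤ Nat.log 2 n := (Nat.le_log_iff_pow_le (by norm_num) (by omega)).2 (by omega)
  obtain ⟨z, hz⟩ : ∃ z : ℕ, z = 64 * E * Nat.log 2 n + 1 := ⟨_, rfl⟩
  have hz1 : 1 ≤ z := by omega
  have hz5 : 5 * z ≤ n := by
    have e1 := h5 n (by omega)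
    have e2 : z ≤ (64 * E + 1) * Nat.log 2 n := by
      rw [hz, add_mul, one_mul]
      omega
    omega
  have hzA : z ≤ A₀ * Nat.log 2 n := by
    rw [hz, hA₀, add_mul]
    omega
  have hl024 : (24 / 100 : ℝ) * n ≤ l := by
    refine le_trans ?_ hl1
    exact mul_le_mul_of_nonneg_right (by linarith) hn0.le
  have hzl : z ≤ l := by
    have e1 : (5 * z : ℝ) ≤ n := by exact_mod_cast hz5
    have e2 : (z : ℝ) ≤ l := by linarith
    exact_mod_cast e2
  have hl5 : n < 5 * l := by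
    have e1 : (n : ℝ) < 5 * l := by linarith
    exact_mod_cast e1
  have hln : 2 * l ≤ n := by
    have e1 : (l : ℝ) ≤ n / 4 + 1 := by
      have : (1 / 4 - ε) * n ≤ n / 4 := by nlinarith
      linarith
    have e2 : (2 * l : ℝ) ≤ n := by linarith
    exact_mod_cast e2
  have hzE : E * Nat.log 2 n ≤ z / 64 := by
    rw [hz]
    have : 64 * E * Nat.log 2 n = 64 * (E * Nat.log 2 n) := by ring
    omega
  have hzE' : ((E * Nat.log 2 n : ℕ) : ℝ) ≤ (z : ℝ) / 64 := by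
    have e1 : 64 * (E * Nat.log 2 n) ≤ z := by omega
    have e2 : (64 : ℝ) * ((E * Nat.log 2 n : ℕ) : ℝ) ≤ z := by exact_mod_cast e1
    linarith
  have hzr : (0 : ℝ) ≤ z := Nat.cast_nonneg z
  have hqz64 : (Fintype.card K : ℝ) ^ (-(z : ℝ) / 64) ≤ 2 ^ E / (n : ℝ) ^ E := by
    rw [neg_div]
    exact q_log E n _ _ hq (by omega) hzE'
  have hqz2 : (Fintype.card K : ℝ) ^ (-(z : ℝ) / 2) ≤ 2 ^ E / (n : ℝ) ^ E := by
    rw [neg_div]
    exact q_log E n _ _ hq (by omega) (hzE'.trans (by linarith))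
  have hqn : (0 : ℝ) < (Fintype.card K : ℝ) ^ n := by positivity
  -- the function
  obtain ⟨Φ, hΦ⟩ : ∃ Φ : K[X] → ℝ, ∀ f, Φ f = Wt h lam y f * (mob (f + h i₀) : ℝ) :=
    ⟨_, fun _ => rfl⟩
  have hΦW : ∀ f, |Φ f| ≤ |Wt h lam y f| := by
    intro f
    rw [hΦ, abs_mul]
    exact mul_le_of_le_one_right (abs_nonneg _) (mob_abs _)
  obtain ⟨Y, hY⟩ : ∃ Y : ℝ, Y = 1 / (n : ℝ) ^ A₀ + ((n : ℝ) + 2) ^ C' *
    (Fintype.card K : ℝ) ^ (-(z : ℝ) / 2) := ⟨_, rfl⟩
  have hqz2p : 0 < (Fintype.card K : ℝ) ^ (-(z : ℝ) / 2) := Real.rpow_pos_of_pos (by linarith) _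
  have hqz64p : 0 < (Fintype.card K : ℝ) ^ (-(z : ℝ) / 64) := Real.rpow_pos_of_pos (by linarith) _
  have hqcp : 0 < (Fintype.card K : ℝ) ^ (-c * n) := Real.rpow_pos_of_pos (by linarith) _
  have hY0 : 0 ≤ Y := by
    rw [hY]
    positivity
  obtain ⟨X, hX⟩ : ∃ X : ℝ, X = (n : ℝ) ^ C * (Fintype.card K : ℝ) ^ n *
    ((Fintype.card K : ℝ) ^ (-(z : ℝ) / 64) + (Fintype.card K : ℝ) ^ (-c * n)) := ⟨_, rfl⟩
  have hX0 : 0 ≤ X := by
    rw [hX]
    positivity
  have hB := partB (z := z) (l := l) (n := n) δ h Φ X Y hX0 hY0 hln hl5 hδ.le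
    (by
      intro D hD hDs hDr hDc hDn hDn2
      have hd := hb K (n - D.natDegree) z l (fun B => Φ (D * B)) hz1 hzl (by omega)
      have e1 : |∑ B ∈ (Mn K (n - D.natDegree)).filter (Rgh z), Φ (D * B)| ≤
          (Fintype.card K : ℝ) ^ (n - D.natDegree) / (n : ℝ) ^ A₀ := by
        have e2 := h3' n (by omega) z y D h i₀ lam hzA hD hDs hDn hDc hy3 hSh hlam
        simpa only [hΦ] using e2
      have e3 := hC' (n - D.natDegree) y z D h lam hD hDc (by omega) hlam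
      have e4 : ∑ j ∈ Ico z l, ∑ p ∈ Irn K j,
          ∑ B ∈ (Mn K (n - D.natDegree - j)).filter (fun B => p ∣ B), |Φ (D * (p * B))| ≤
          ∑ j ∈ Icc (max z 1) (n - D.natDegree), ∑ p ∈ Irn K j,
            ∑ B ∈ (Mn K (n - D.natDegree - j)).filter (fun B => p ∣ B),
              |Wt h lam y (D * (p * B))| := by
        refine (sum_le_sum fun j _ => sum_le_sum fun p _ => sum_le_sum fun B _ =>
          hΦW (D * (p * B))).trans ?_
        refine sum_le_sum_of_subset_of_nonneg ?_ ?_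
        · intro j hj
          rw [mem_Ico] at hj
          rw [mem_Icc]
          exact ⟨max_le hj.1 (by omega), by omega⟩
        · intro j _ _
          exact sum_nonneg fun p _ => sum_nonneg fun B _ => abs_nonneg _
      have e5 : (((n - D.natDegree : ℕ) : ℝ) + 2) ^ C' ≤ ((n : ℝ) + 2) ^ C' := by
        refine pow_le_pow_left₀ (by positivity) ?_ _
        have : ((n - D.natDegree : ℕ) : ℝ) ≤ n := by exact_mod_cast Nat.sub_le _ _
        linarith
      have e6 : (((n - D.natDegree : ℕ) : ℝ) + 2) ^ C' *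
          (Fintype.card K : ℝ) ^ (n - D.natDegree) * (Fintype.card K : ℝ) ^ (-(z : ℝ) / 2) ≤
          ((n : ℝ) + 2) ^ C' *
          (Fintype.card K : ℝ) ^ (n - D.natDegree) * (Fintype.card K : ℝ) ^ (-(z : ℝ) / 2) :=
        mul_le_mul_of_nonneg_right (mul_le_mul_of_nonneg_right e5 (by positivity)) hqz2p.le
      have e7 : (Fintype.card K : ℝ) ^ (n - D.natDegree) * Y =
          (Fintype.card K : ℝ) ^ (n - D.natDegree) / (n : ℝ) ^ A₀ + ((n : ℝ) + 2) ^ C' *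
          (Fintype.card K : ℝ) ^ (n - D.natDegree) * (Fintype.card K : ℝ) ^ (-(z : ℝ) / 2) := by
        rw [hY]
        ring
      rw [e7]
      have e8 := (hd.trans e4).trans (e3.trans e6)
      rw [abs_le] at e1 e8 ⊢
      constructor <;> linarith [e1.1, e1.2, e8.1, e8.2])
    (by
      intro j hj β hβ
      rw [mem_Ico] at hj
      have hjn : (j : ℝ) ≤ (1 / 4 - ε) * n := by
        have e1 : (j : ℝ) + 1 ≤ l := by exact_mod_cast hj.2
        linarith
      have e1 := h2' n (by omega) j y h i₀ lam (fun _ => 1) β (by omega) hjn hy2 hSh hlam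
        (fun _ => by simp) hβ
      have e2 : ∑ p ∈ Irn K j, ∑ B ∈ Mn K (n - j), β B * Φ (p * B) =
          ∑ p ∈ Irn K j, ∑ B ∈ Mn K (n - j),
            (1 : ℝ) * β B * (Wt h lam y (p * B) * (mob (p * B + h i₀) : ℝ)) := by
        refine sum_congr rfl fun p _ => sum_congr rfl fun B _ => ?_
        rw [hΦ, one_mul]
      rw [e2, hX]
      refine e1.trans ?_
      refine mul_le_mul_of_nonneg_left ?_ (by positivity)
      have e3 : (Fintype.card K : ℝ) ^ (-(j : ℝ) / 64) ≤ (Fintype.card K : ℝ) ^ (-(z : ℝ) / 64) := by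
        refine Real.rpow_le_rpow_of_exponent_le (by linarith) ?_
        have : (z : ℝ) ≤ j := by exact_mod_cast hj.1
        linarith
      linarith)
  -- the divisor sums
  obtain ⟨T, hT⟩ : ∃ T : K[X] → ℝ, ∀ f, T f =
      ∑ D ∈ (MM K (n + 1)).filter (fun D => D ∣ f), cco n δ D := ⟨_, fun _ => rfl⟩
  obtain ⟨T', hT'⟩ : ∃ T' : K[X] → ℝ, ∀ f, T' f =
      ∑ D ∈ (MM K (n + 1)).filter (fun D => D ∣ f), ccg n l δ h D := ⟨_, fun _ => rfl⟩
  have hTi : ∀ f : K[X], ∑ i ∈ range (n + 1), ∑ D ∈ (Mn K i).filter (fun D => D ∣ f),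
      (if 2 * (i : ℝ) ≤ (1 - δ) * n then cf D else 0) = T f := by
    intro f
    rw [hT, sum_filter, sum_MM]
    refine sum_congr rfl fun i _ => ?_
    rw [sum_filter]
    refine sum_congr rfl fun D hD => ?_
    unfold cco
    rw [(mem_Mn.1 hD).2]
  have hTT : ∀ f ∈ (Mn K n).filter (Rgh l), ¬ Bd h f → T f = T' f := by
    intro f hf hfb
    rw [mem_filter] at hf
    unfold Bd at hfb
    push Not at hfb
    rw [hT, hT']
    refine sum_congr rfl fun D hD => ?_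
    rw [mem_filter] at hD
    unfold cco ccg
    by_cases h8 : 2 * (D.natDegree : ℝ) ≤ (1 - δ) * n
    · rw [if_pos h8, if_pos ⟨h8, hfb.1.squarefree_of_dvd hD.2, rgh_dvd hD.2 hf.2,
        fun i => (hfb.2 i).of_isCoprime_of_dvd_left hD.2⟩]
    · rw [if_neg h8, if_neg (fun hh => h8 hh.1)]
  have hTb : ∀ f ∈ (Mn K n).filter (Rgh l), |T f - T' f| ≤ 64 := by
    intro f hf
    rw [mem_filter, mem_Mn] at hf
    have e1 : |T f| ≤ 32 := by
      rw [hT]
      exact sum_div_le hf.1.1.ne_zero (by omega) hl5 _ _ (fun D => cco_abs n δ D)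
        (fun D hD hr => absurd (rgh_dvd hD hf.2) hr)
    have e2 : |T' f| ≤ 32 := by
      rw [hT']
      exact sum_div_le hf.1.1.ne_zero (by omega) hl5 _ _ (fun D => ccg_abs n l δ h D)
        (fun D hD hr => absurd (rgh_dvd hD hf.2) hr)
    refine (abs_sub _ _).trans ?_
    linarith
  have hmom : ∑ B ∈ Mn K n, (ta h y B) ^ 2 ≤
      ((n : ℝ) + 2) ^ C'' * (Fintype.card K : ℝ) ^ n := by
    have e1 := hC'' n y 1 h monic_one (fun i => isCoprime_one_left) (by omega)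
    simp only [one_mul] at e1
    exact e1
  have hbad := sum_bad (K := K) (n := n) (l := l) (y := y) (C := C'') (by omega) h hSh hmom
  have hdiff : |∑ f ∈ (Mn K n).filter (Rgh l), Φ f * T f -
      ∑ f ∈ (Mn K n).filter (Rgh l), Φ f * T' f| ≤
      64 * ∑ f ∈ (Mn K n).filter (fun f => Rgh l f ∧ Bd h f), ta h y f := by
    rw [← sum_sub_distrib]
    have e1 : ∑ f ∈ (Mn K n).filter (Rgh l), (Φ f * T f - Φ f * T' f) =
        ∑ f ∈ (Mn K n).filter (fun f => Rgh l f ∧ Bd h f), (Φ f * T f - Φ f * T' f) := by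
      symm
      refine sum_subset ?_ ?_
      · intro f hf
        rw [mem_filter] at hf ⊢
        exact ⟨hf.1, hf.2.1⟩
      · intro f hf hf'
        have e2 : ¬ Bd h f := fun hh => hf' (mem_filter.2 ⟨(mem_filter.1 hf).1,
          (mem_filter.1 hf).2, hh⟩)
        rw [hTT f hf e2, sub_self]
    rw [e1, mul_sum]
    refine (abs_sum_le_sum_abs _ _).trans (sum_le_sum fun f hf => ?_)
    rw [← mul_sub, abs_mul]
    have e2 := hTb f (mem_filter.2 ⟨(mem_filter.1 hf).1, (mem_filter.1 hf).2.1⟩)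
    have e3 : |Φ f| ≤ ta h y f := (hΦW f).trans (wt_abs h hlam y f)
    calc |Φ f| * |T f - T' f| ≤ ta h y f * 64 :=
          mul_le_mul e3 e2 (abs_nonneg _) (ta_nonneg h y f)
      _ = 64 * ta h y f := by ring
  have hSe : ∑ f ∈ (Mn K n).filter (Rgh l), Wt h lam y f * (mob (f + h i₀) : ℝ) *
        ∑ i ∈ range (n + 1), ∑ D ∈ (Mn K i).filter (fun D => D ∣ f),
          (if 2 * (i : ℝ) ≤ (1 - δ) * n then cf D else 0) =
      ∑ f ∈ (Mn K n).filter (Rgh l), Φ f * T f :=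
    sum_congr rfl fun f _ => by rw [hTi, hΦ]
  have hB' : |∑ f ∈ (Mn K n).filter (Rgh l), Φ f * T' f| ≤
      2 * (n + 1) * (Fintype.card K : ℝ) ^ n * Y + n * (32 * X) := by
    have e1 : ∑ f ∈ (Mn K n).filter (Rgh l), Φ f * T' f = ∑ f ∈ (Mn K n).filter (Rgh l),
      Φ f * ∑ D ∈ (MM K (n + 1)).filter (fun D => D ∣ f), ccg n l δ h D :=
      sum_congr rfl fun f _ => by rw [hT']
    rw [e1]
    exact hB
  rw [hSe]
  have hL : ((n : ℝ) ^ (C'' + A₁ + 3)) * (1 / 2) ^ (l / 2) ≤ 1 := by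
    refine le_trans ?_ (h7 n (by omega))
    refine mul_le_mul_of_nonneg_left ?_ (by positivity)
    have e1 : ((1 : ℝ) / 2) ^ (l / 2) = (2 : ℝ) ^ (-((l / 2 : ℕ) : ℝ)) := by
      rw [Real.rpow_neg (by norm_num), Real.rpow_natCast, one_div, inv_pow]
    rw [e1]
    refine Real.rpow_le_rpow_of_exponent_le (by norm_num) ?_
    have e2 : l ≤ 2 * (l / 2) + 1 := by omega
    have e3 : (l : ℝ) ≤ 2 * ((l / 2 : ℕ) : ℝ) + 1 := by exact_mod_cast e2
    linarith
  refine numeric n C C' C'' A₁ k A₀ E (l / 2) ((Fintype.card K : ℝ) ^ n)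
    ((Fintype.card K : ℝ) ^ (-(z : ℝ) / 2)) ((Fintype.card K : ℝ) ^ (-(z : ℝ) / 64))
    ((Fintype.card K : ℝ) ^ (-c * n)) _ (by omega) hqn (by omega) (by omega) hqz2 hqz64
    (h6 n (by omega)) hL hk hbig ?_
  have e1 : |∑ f ∈ (Mn K n).filter (Rgh l), Φ f * T f| ≤
      |∑ f ∈ (Mn K n).filter (Rgh l), Φ f * T' f| +
      |∑ f ∈ (Mn K n).filter (Rgh l), Φ f * T f - ∑ f ∈ (Mn K n).filter (Rgh l), Φ f * T' f| := by
    have e2 := abs_add_le (∑ f ∈ (Mn K n).filter (Rgh l), Φ f * T' f)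
      (∑ f ∈ (Mn K n).filter (Rgh l), Φ f * T f - ∑ f ∈ (Mn K n).filter (Rgh l), Φ f * T' f)
    rw [add_sub_cancel] at e2
    exact e2
  refine e1.trans (add_le_add ?_ ?_)
  · rw [hX, hY] at hB'
    exact hB'
  · exact hdiff.trans (mul_le_mul_of_nonneg_left hbad (by norm_num))

end Pool.Agent.H985.CH
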