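import Pool.Agent.H985.CH.Stm
import Pool.Agent.H251.SP.Ti
import Pool.Agent.H251.SP.TW

/-!
# Task TIW of project CH (helper348): type I sums with the weights
-/

set_option autoImplicit false

namespace Pool.Agent.H985.CH

open Polynomial Finset
open scoped Classical
open Pool.Agent.H985.Chow (mob)
open Pool.Agent.H985.KP (PA mobg)
open Pool.Agent.H694.Typ (Mn Irn mem_Mn card_Mn PU mem_PU card_dvd_le no_dvd wt)
open Pool.Agent.H251.SP (Rgh Smo S_mob S_ps)
open Pool.Agent.H251.SP.TiN (Pz mem_Pz cop_pz prod_monic prod_dvd_iff prod_inj sieve_id prod_sqf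
  prod_smo card_small In In_mob)
open Pool.Agent.H251.SP.TW (abs_mob mobg_one dvd_prod_irr)

namespace TIWa

/-- pairs with a given union -/
lemma pair_card {α : Type} [DecidableEq α] (A : Finset (Finset α)) (U : Finset α) :
    ((A ×ˢ A).filter (fun p => p.1 ∪ p.2 = U)).card ≤ 3 ^ U.card := by
  have h1 : ((A ×ˢ A).filter (fun p => p.1 ∪ p.2 = U)).card ≤
      (U.powerset.sigma (fun T => T.powerset)).card := by
    refine Finset.card_le_card_of_injOn (fun p => ⟨p.1, p.1 ∩ p.2⟩) ?_ ?_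
    · intro p hp
      rw [Finset.mem_coe, mem_filter] at hp
      rw [Finset.mem_coe, mem_sigma, mem_powerset, mem_powerset]
      refine ⟨?_, inter_subset_left⟩
      rw [← hp.2]
      exact subset_union_left
    · intro p hp p' hp' he
      rw [Finset.mem_coe, mem_filter] at hp hp'
      simp only [Sigma.mk.injEq] at he
      obtain ⟨e1, e2⟩ := he
      rw [heq_iff_eq] at e2
      have hu : p.1 ∪ p.2 = p'.1 ∪ p'.2 := hp.2.trans hp'.2.symm
      refine Prod.ext e1 ?_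
      ext x
      by_cases hx : x ∈ p.1
      · have hx' : x ∈ p'.1 := e1 ▸ hx
        constructor
        · intro h
          have : x ∈ p.1 ∩ p.2 := mem_inter.2 ⟨hx, h⟩
          rw [e2] at this
          exact (mem_inter.1 this).2
        · intro h
          have : x ∈ p'.1 ∩ p'.2 := mem_inter.2 ⟨hx', h⟩
          rw [← e2] at this
          exact (mem_inter.1 this).2
      · have hx' : x ∉ p'.1 := e1 ▸ hx
        constructor
        · intro h
          have : x ∈ p.1 ∪ p.2 := mem_union_right _ h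
          rw [hu] at this
          exact (mem_union.1 this).resolve_left hx'
        · intro h
          have : x ∈ p'.1 ∪ p'.2 := mem_union_right _ h
          rw [← hu] at this
          exact (mem_union.1 this).resolve_left hx
  refine h1.trans (le_of_eq ?_)
  rw [card_sigma]
  have h2 := Finset.sum_pow_mul_eq_add_pow (2 : ℕ) 1 U
  simp only [one_pow, mul_one] at h2
  rw [show (3 : ℕ) = 2 + 1 from rfl, ← h2]
  exact sum_congr rfl fun T _ => card_powerset T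

lemma pair_sum {α : Type} [DecidableEq α] (A : Finset (Finset α)) (f : Finset α → ℝ)
    (hA : ∀ T ∈ A, ∀ T' ∈ A, T ∪ T' ∈ A) (hf : ∀ U, 0 ≤ f U) :
    ∑ T ∈ A, ∑ T' ∈ A, f (T ∪ T') ≤ ∑ U ∈ A, 3 ^ U.card * f U := by
  rw [← sum_product', ← Finset.sum_fiberwise_of_maps_to (s := A ×ˢ A) (t := A)
    (g := fun p => p.1 ∪ p.2) (fun p hp => by
      rw [mem_product] at hp
      exact hA _ hp.1 _ hp.2)]
  refine sum_le_sum fun U _ => ?_
  have h1 : ∑ p ∈ (A ×ˢ A).filter (fun p => p.1 ∪ p.2 = U), f (p.1 ∪ p.2) =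
      (((A ×ˢ A).filter (fun p => p.1 ∪ p.2 = U)).card : ℝ) * f U := by
    rw [← nsmul_eq_mul, ← sum_const]
    refine sum_congr rfl fun p hp => ?_
    rw [(mem_filter.1 hp).2]
  rw [h1]
  refine mul_le_mul_of_nonneg_right ?_ (hf U)
  exact_mod_cast pair_card A U

section main

variable {K : Type} [Field K] [Fintype K]

/-- the expansion -/
lemma sum_exp (N z : ℕ) (φ : K[X] → ℝ) :
    ∑ B ∈ (Mn K N).filter (Rgh z), φ B =
    ∑ T ∈ (Pz K z).powerset, (-1) ^ T.card *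
      ∑ B ∈ (Mn K N).filter (fun B => (∏ P ∈ T, P) ∣ B), φ B := by
  have e1 : ∑ B ∈ (Mn K N).filter (Rgh z), φ B =
      ∑ B ∈ Mn K N, (if Rgh z B then (1 : ℝ) else 0) * φ B := by
    rw [Finset.sum_filter]
    refine Finset.sum_congr rfl fun B _ => ?_
    split_ifs <;> ring
  rw [e1]
  simp_rw [sieve_id z, Finset.sum_mul]
  rw [Finset.sum_comm]
  refine Finset.sum_congr rfl fun T _ => ?_
  rw [Finset.mul_sum, Finset.sum_filter]
  refine Finset.sum_congr rfl fun B _ => ?_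
  split_ifs <;> ring

lemma deg_mono {z : ℕ} {T T' : Finset K[X]} (hT' : T' ⊆ Pz K z) (h : T ⊆ T') :
    (∏ P ∈ T, P).natDegree ≤ (∏ P ∈ T', P).natDegree := by
  refine natDegree_le_of_dvd (Finset.prod_dvd_prod_of_subset _ _ _ h) (prod_monic hT').ne_zero

lemma PA_prod {z : ℕ} {T : Finset K[X]} (hT : T ⊆ Pz K z) : PA (∏ P ∈ T, P) = (T : Set K[X]) := by
  ext P
  unfold PA
  rw [Finset.mem_coe]
  change P.Monic ∧ Irreducible P ∧ P ∣ _ ↔ _
  constructor
  · rintro ⟨h1, h2, h3⟩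
    exact dvd_prod_irr (fun Q hQ => ⟨(mem_Pz.1 (hT hQ)).1, (mem_Pz.1 (hT hQ)).2.1⟩) h1 h2 h3
  · intro h
    have h1 := mem_Pz.1 (hT h)
    exact ⟨h1.1, h1.2.1, Finset.dvd_prod_of_mem (fun P => P) h⟩

/-- the second moment of the number of large smooth divisors -/
lemma sum_sq_le (n N z Y : ℕ) (hN : N ≤ n) :
    ∑ B ∈ Mn K N, ((((Pz K z).powerset.filter (fun T => Y ≤ (∏ P ∈ T, P).natDegree)).filter
      (fun T => (∏ P ∈ T, P) ∣ B)).card : ℝ) ^ 2 ≤
    (Fintype.card K : ℝ) ^ N * ∑ i ∈ Icc Y n, (∑ d ∈ (Mn K i).filter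
      (fun d => Squarefree d ∧ Smo z d), (3 : ℝ) ^ (PA d).ncard) / (Fintype.card K : ℝ) ^ i := by
  obtain ⟨A, hA⟩ : ∃ A : Finset (Finset K[X]), A = (Pz K z).powerset.filter
    (fun T => Y ≤ (∏ P ∈ T, P).natDegree) := ⟨_, rfl⟩
  rw [← hA]
  have hAm : ∀ T, T ∈ A ↔ T ⊆ Pz K z ∧ Y ≤ (∏ P ∈ T, P).natDegree := by
    intro T
    rw [hA, mem_filter, mem_powerset]
  have hq0 : (0 : ℝ) < Fintype.card K := by exact_mod_cast Fintype.card_pos
  have e1 : ∑ B ∈ Mn K N, ((A.filter (fun T => (∏ P ∈ T, P) ∣ B)).card : ℝ) ^ 2 =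
      ∑ T ∈ A, ∑ T' ∈ A, (((Mn K N).filter (fun B => (∏ P ∈ T ∪ T', P) ∣ B)).card : ℝ) := by
    have h1 : ∀ B ∈ Mn K N, ((A.filter (fun T => (∏ P ∈ T, P) ∣ B)).card : ℝ) ^ 2 =
        ∑ T ∈ A, ∑ T' ∈ A, (if (∏ P ∈ T ∪ T', P) ∣ B then (1 : ℝ) else 0) := by
      intro B _
      rw [sq, Finset.card_filter, Nat.cast_sum, Finset.sum_mul_sum]
      refine sum_congr rfl fun T hT => sum_congr rfl fun T' hT' => ?_
      have hT1 := ((hAm T).1 hT).1
      have hT2 := ((hAm T').1 hT').1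
      have h2 : (∏ P ∈ T ∪ T', P) ∣ B ↔ (∏ P ∈ T, P) ∣ B ∧ (∏ P ∈ T', P) ∣ B := by
        rw [prod_dvd_iff hT1, prod_dvd_iff hT2, prod_dvd_iff (union_subset hT1 hT2)]
        constructor
        · intro h
          exact ⟨fun P hP => h P (mem_union_left _ hP), fun P hP => h P (mem_union_right _ hP)⟩
        · rintro ⟨h, h'⟩ P hP
          rcases mem_union.1 hP with h3 | h3
          · exact h P h3
          · exact h' P h3
      rw [h2]
      by_cases a1 : (∏ P ∈ T, P) ∣ B <;> by_cases a2 : (∏ P ∈ T', P) ∣ B <;> simp [a1, a2]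
    rw [sum_congr rfl h1, sum_comm]
    refine sum_congr rfl fun T _ => ?_
    rw [sum_comm]
    refine sum_congr rfl fun T' _ => ?_
    rw [Finset.card_filter, Nat.cast_sum]
    refine sum_congr rfl fun B _ => ?_
    split_ifs <;> simp
  rw [e1]
  have hcl : ∀ T ∈ A, ∀ T' ∈ A, T ∪ T' ∈ A := by
    intro T hT T' hT'
    rw [hAm] at hT hT' ⊢
    refine ⟨union_subset hT.1 hT'.1, hT.2.trans ?_⟩
    exact deg_mono (union_subset hT.1 hT'.1) subset_union_left
  refine (pair_sum A (fun U => (((Mn K N).filter (fun B => (∏ P ∈ U, P) ∣ B)).card : ℝ)) hcl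
    (fun U => Nat.cast_nonneg _)).trans ?_
  obtain ⟨s, hs⟩ : ∃ s : Finset (Finset K[X]), s = A.filter
    (fun T => (∏ P ∈ T, P).natDegree ≤ n) := ⟨_, rfl⟩
  have hsm : ∀ T, T ∈ s ↔ T ∈ A ∧ (∏ P ∈ T, P).natDegree ≤ n := by
    intro T
    rw [hs, mem_filter]
  have h1 : ∑ U ∈ A, 3 ^ U.card * (((Mn K N).filter (fun B => (∏ P ∈ U, P) ∣ B)).card : ℝ) =
      ∑ U ∈ s, 3 ^ U.card * (((Mn K N).filter (fun B => (∏ P ∈ U, P) ∣ B)).card : ℝ) := by
    symm
    refine Finset.sum_subset (by rw [hs]; exact filter_subset _ _) ?_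
    intro T hT hT'
    rw [hsm] at hT'
    have h2 : ¬ (∏ P ∈ T, P).natDegree ≤ n := fun h => hT' ⟨hT, h⟩
    have h3 : (Mn K N).filter (fun B => (∏ P ∈ T, P) ∣ B) = ∅ := by
      rw [Finset.filter_eq_empty_iff]
      intro B hB
      exact no_dvd (by omega) hB
    rw [h3, card_empty, Nat.cast_zero, mul_zero]
  rw [h1]
  have h2 : ∑ U ∈ s, 3 ^ U.card * (((Mn K N).filter (fun B => (∏ P ∈ U, P) ∣ B)).card : ℝ) ≤
      ∑ U ∈ s, (Fintype.card K : ℝ) ^ N * ((3 : ℝ) ^ U.card *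
        ((Fintype.card K : ℝ) ^ (∏ P ∈ U, P).natDegree)⁻¹) := by
    refine sum_le_sum fun U hU => ?_
    have h3 := card_dvd_le (n := N) (prod_monic ((hAm U).1 ((hsm U).1 hU).1).1)
    unfold wt at h3
    calc (3 : ℝ) ^ U.card * (((Mn K N).filter (fun B => (∏ P ∈ U, P) ∣ B)).card : ℝ)
        ≤ (3 : ℝ) ^ U.card * ((Fintype.card K : ℝ) ^ N *
          ((Fintype.card K : ℝ) ^ (∏ P ∈ U, P).natDegree)⁻¹) := by gcongr
      _ = _ := by ring
  refine h2.trans ?_
  rw [← Finset.mul_sum]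
  refine mul_le_mul_of_nonneg_left ?_ (by positivity)
  rw [← Finset.sum_fiberwise_of_maps_to (s := s) (t := Icc Y n)
    (g := fun T => (∏ P ∈ T, P).natDegree) (fun T hT => by
      rw [hsm, hAm] at hT
      exact mem_Icc.2 ⟨hT.1.2, hT.2⟩)]
  refine Finset.sum_le_sum fun i _ => ?_
  rw [div_eq_mul_inv, Finset.sum_mul]
  have h3 : ∀ T ∈ s.filter (fun T => (∏ P ∈ T, P).natDegree = i),
      (3 : ℝ) ^ T.card * ((Fintype.card K : ℝ) ^ (∏ P ∈ T, P).natDegree)⁻¹ =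
      (fun d : K[X] => (3 : ℝ) ^ (PA d).ncard * ((Fintype.card K : ℝ) ^ i)⁻¹) (∏ P ∈ T, P) := by
    intro T hT
    rw [mem_filter] at hT
    simp only
    rw [hT.2, PA_prod ((hAm T).1 ((hsm T).1 hT.1).1).1, Set.ncard_coe_finset]
  have hinj : ∀ T ∈ s.filter (fun T => (∏ P ∈ T, P).natDegree = i),
      ∀ T' ∈ s.filter (fun T => (∏ P ∈ T, P).natDegree = i), ∏ P ∈ T, P = ∏ P ∈ T', P → T = T' := by
    intro T hT T' hT' he
    rw [mem_filter, hsm, hAm] at hT hT'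
    exact prod_inj hT.1.1.1 hT'.1.1.1 he
  rw [Finset.sum_congr rfl h3, ← Finset.sum_image (f := fun d : K[X] => (3 : ℝ) ^ (PA d).ncard *
    ((Fintype.card K : ℝ) ^ i)⁻¹) hinj]
  refine sum_le_sum_of_subset_of_nonneg ?_ fun d _ _ => by positivity
  intro d hd
  rw [mem_image] at hd
  obtain ⟨T, hT, rfl⟩ := hd
  rw [mem_filter, hsm, hAm] at hT
  rw [mem_filter, mem_Mn]
  exact ⟨⟨prod_monic hT.1.1.1, hT.2⟩, prod_sqf hT.1.1.1, prod_smo hT.1.1.1⟩

/-- the large divisors -/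
lemma large (n N z Y : ℕ) (hN : N ≤ n) (φ : K[X] → ℝ) (M τ : ℝ)
    (hM : ∑ B ∈ Mn K N, φ B ^ 2 ≤ M * (Fintype.card K : ℝ) ^ N)
    (hτ : ∑ i ∈ Icc Y n, (∑ d ∈ (Mn K i).filter
      (fun d => Squarefree d ∧ Smo z d), (3 : ℝ) ^ (PA d).ncard) / (Fintype.card K : ℝ) ^ i ≤ τ) :
    |∑ T ∈ (Pz K z).powerset.filter (fun T => ¬ (∏ P ∈ T, P).natDegree < Y), (-1) ^ T.card *
      ∑ B ∈ (Mn K N).filter (fun B => (∏ P ∈ T, P) ∣ B), φ B| ≤
      (Fintype.card K : ℝ) ^ N * Real.sqrt (M * τ) := by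
  have hq0 : (0 : ℝ) < Fintype.card K := by exact_mod_cast Fintype.card_pos
  obtain ⟨A, hA⟩ : ∃ A : Finset (Finset K[X]), A = (Pz K z).powerset.filter
    (fun T => Y ≤ (∏ P ∈ T, P).natDegree) := ⟨_, rfl⟩
  have hA' : (Pz K z).powerset.filter (fun T => ¬ (∏ P ∈ T, P).natDegree < Y) = A := by
    rw [hA]
    refine filter_congr fun T _ => ?_
    rw [not_lt]
  rw [hA']
  have h1 : |∑ T ∈ A, (-1) ^ T.card *
      ∑ B ∈ (Mn K N).filter (fun B => (∏ P ∈ T, P) ∣ B), φ B| ≤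
      ∑ B ∈ Mn K N, |φ B| * ((A.filter (fun T => (∏ P ∈ T, P) ∣ B)).card : ℝ) := by
    refine (Finset.abs_sum_le_sum_abs _ _).trans ?_
    have h2 : ∀ T ∈ A, |(-1) ^ T.card *
        ∑ B ∈ (Mn K N).filter (fun B => (∏ P ∈ T, P) ∣ B), φ B| ≤
        ∑ B ∈ Mn K N, if (∏ P ∈ T, P) ∣ B then |φ B| else 0 := by
      intro T _
      rw [abs_mul, abs_pow, abs_neg, abs_one, one_pow, one_mul, ← sum_filter]
      exact Finset.abs_sum_le_sum_abs _ _
    refine (sum_le_sum h2).trans (le_of_eq ?_)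
    rw [sum_comm]
    refine sum_congr rfl fun B _ => ?_
    rw [← sum_filter, sum_const, nsmul_eq_mul, mul_comm]
  refine h1.trans ?_
  have h2 := sum_sq_le (K := K) n N z Y hN
  rw [← hA] at h2
  have h3 := Finset.sum_mul_sq_le_sq_mul_sq (Mn K N) (fun B => |φ B|)
    (fun B => ((A.filter (fun T => (∏ P ∈ T, P) ∣ B)).card : ℝ))
  simp only [sq_abs] at h3
  have hM0 : 0 ≤ M * (Fintype.card K : ℝ) ^ N := le_trans (sum_nonneg fun B _ => sq_nonneg _) hM
  have hτ0 : 0 ≤ τ := le_trans (sum_nonneg fun i _ => div_nonneg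
    (sum_nonneg fun d _ => by positivity) (by positivity)) hτ
  have h4 : (∑ B ∈ Mn K N, |φ B| * ((A.filter (fun T => (∏ P ∈ T, P) ∣ B)).card : ℝ)) ^ 2 ≤
      (Fintype.card K : ℝ) ^ N * (Fintype.card K : ℝ) ^ N * (M * τ) := by
    refine h3.trans ?_
    calc (∑ B ∈ Mn K N, φ B ^ 2) * ∑ B ∈ Mn K N,
          ((A.filter (fun T => (∏ P ∈ T, P) ∣ B)).card : ℝ) ^ 2
        ≤ (M * (Fintype.card K : ℝ) ^ N) * ((Fintype.card K : ℝ) ^ N * τ) := by
          refine mul_le_mul hM (h2.trans ?_) (sum_nonneg fun B _ => sq_nonneg _) hM0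
          exact mul_le_mul_of_nonneg_left hτ (by positivity)
      _ = _ := by ring
  have h5 := Real.le_sqrt_of_sq_le h4
  rw [Real.sqrt_mul (by positivity), Real.sqrt_mul_self (by positivity)] at h5
  exact h5

/-- a condition modulo `E` -/
lemma res_sum {k : ℕ} (h : Fin k → K[X]) {E : K[X]} (hE : E.Monic) (f : K[X]) (x : ℝ) :
    (if E ∣ Hh h f then x else 0) =
      ∑ r ∈ (Mn K E.natDegree).filter (fun r => E ∣ Hh h r), if E ∣ f - r then x else 0 := by
  have hdiv : ∀ a b : K[X], E ∣ a - b → (E ∣ Hh h a ↔ E ∣ Hh h b) := by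
    intro a b hab
    have h1 : E ∣ Hh h a - Hh h b := by
      unfold Hh
      have h2 : ∀ s : Finset (Fin k), E ∣ ∏ i ∈ s, (a + h i) - ∏ i ∈ s, (b + h i) := by
        intro s
        induction s using Finset.induction_on with
        | empty => simp
        | insert i s hi ih =>
          rw [prod_insert hi, prod_insert hi]
          have e : (a + h i) * ∏ i ∈ s, (a + h i) - (b + h i) * ∏ i ∈ s, (b + h i) =
              (a - b) * ∏ i ∈ s, (a + h i) +
                (b + h i) * (∏ i ∈ s, (a + h i) - ∏ i ∈ s, (b + h i)) := by ring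
          rw [e]
          exact dvd_add (hab.mul_right _) (ih.mul_left _)
      exact h2 univ
    constructor
    · intro h3
      have := dvd_sub h3 h1
      rwa [sub_sub_cancel] at this
    · intro h3
      have := dvd_add h1 h3
      rwa [sub_add_cancel] at this
  obtain ⟨r₀, hr₀⟩ : ∃ r₀ : K[X], r₀ = E + f %ₘ E := ⟨_, rfl⟩
  have hlt : (f %ₘ E).degree < E.degree := degree_modByMonic_lt f hE
  have hr1 : r₀ ∈ Mn K E.natDegree := by
    rw [mem_Mn, hr₀]
    refine ⟨hE.add_of_left hlt, ?_⟩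
    exact natDegree_add_eq_left_of_degree_lt hlt
  have hr2 : E ∣ f - r₀ := by
    have h2 := modByMonic_add_div f E
    refine ⟨f /ₘ E - 1, ?_⟩
    rw [hr₀]
    linear_combination -h2
  by_cases hc : E ∣ Hh h f
  · rw [if_pos hc, sum_eq_single_of_mem r₀ (mem_filter.2 ⟨hr1, (hdiv f r₀ hr2).1 hc⟩), if_pos hr2]
    intro r hr hne
    rw [if_neg]
    intro hd
    apply hne
    rw [mem_filter, mem_Mn] at hr
    have h3 : E ∣ r₀ - r := by
      have e : r₀ - r = (f - r) - (f - r₀) := by ring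
      rw [e]
      exact dvd_sub hd hr2
    have h4 : (r₀ - r).degree < E.degree := by
      have h5 := mem_Mn.1 hr1
      have h6 : r₀.degree = r.degree := by
        rw [degree_eq_natDegree h5.1.ne_zero, degree_eq_natDegree hr.1.1.ne_zero, h5.2, hr.1.2]
      have h7 := degree_sub_lt_left h6 h5.1.ne_zero (by rw [h5.1.leadingCoeff, hr.1.1.leadingCoeff])
      rwa [degree_eq_natDegree h5.1.ne_zero, h5.2, ← degree_eq_natDegree hE.ne_zero] at h7
    have h5 : r₀ - r = 0 := by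
      by_contra hne'
      exact absurd (degree_le_of_dvd h3 hne') (not_le.2 h4)
    exact (sub_eq_zero.1 h5).symm
  · rw [if_neg hc]
    symm
    refine sum_eq_zero fun r hr => ?_
    rw [if_neg]
    intro hd
    exact hc ((hdiv f r hd).2 (mem_filter.1 hr).2)

lemma mem_SqM {y : ℕ} {E : K[X]} : E ∈ SqM K y ↔ E.Monic ∧ E.natDegree ≤ y ∧ Squarefree E := by
  unfold SqM
  rw [mem_filter, mem_biUnion]
  constructor
  · rintro ⟨⟨i, hi, hE⟩, hs⟩
    rw [mem_range] at hi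
    rw [mem_Mn] at hE
    exact ⟨hE.1, by omega, hs⟩
  · rintro ⟨h1, h2, h3⟩
    exact ⟨⟨E.natDegree, mem_range.2 (by omega), mem_Mn.2 ⟨h1, rfl⟩⟩, h3⟩

lemma card_SqM (y : ℕ) : ((SqM K y).card : ℝ) ≤ (Fintype.card K : ℝ) ^ (y + 1) := by
  have h1 : (SqM K y).card ≤ Fintype.card K ^ (y + 1) := by
    unfold SqM
    refine (card_filter_le _ _).trans (Finset.card_biUnion_le.trans ?_)
    simp_rw [card_Mn]
    exact Pool.Agent.H251.SP.TiN.geo_le (y + 1)
  exact_mod_cast h1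

/-- expansion of the weights -/
lemma W_exp {k : ℕ} (h : Fin k → K[X]) (lam : K[X] → ℝ) (hlam : Bdd lam) (y : ℕ)
    (S : Finset K[X]) (g : K[X] → K[X]) (ψ : K[X] → ℝ) (S₀ : ℝ) (hS₀ : 0 ≤ S₀)
    (hb : ∀ E : K[X], E.Monic → E.natDegree ≤ y → ∀ r,
      |∑ B ∈ S.filter (fun B => E ∣ g B - r), ψ B| ≤ S₀) :
    |∑ B ∈ S, Wt h lam y (g B) * ψ B| ≤ (Fintype.card K : ℝ) ^ (2 * y + 1) * S₀ := by
  have hq1 : (1 : ℝ) ≤ Fintype.card K := by exact_mod_cast Fintype.card_pos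
  have e1 : ∑ B ∈ S, Wt h lam y (g B) * ψ B =
      ∑ E ∈ SqM K y, lam E * ∑ r ∈ (Mn K E.natDegree).filter (fun r => E ∣ Hh h r),
        ∑ B ∈ S.filter (fun B => E ∣ g B - r), ψ B := by
    unfold Wt
    have h1 : ∀ B ∈ S, (∑ E ∈ (SqM K y).filter (fun E => E ∣ Hh h (g B)), lam E) * ψ B =
        ∑ E ∈ SqM K y, lam E * ∑ r ∈ (Mn K E.natDegree).filter (fun r => E ∣ Hh h r),
          if E ∣ g B - r then ψ B else 0 := by
      intro B _
      rw [sum_filter, sum_mul]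
      refine sum_congr rfl fun E hE => ?_
      rw [← res_sum h (mem_SqM.1 hE).1]
      split_ifs <;> ring
    rw [sum_congr rfl h1, sum_comm]
    refine sum_congr rfl fun E _ => ?_
    rw [← mul_sum, sum_comm]
    congr 1
    refine sum_congr rfl fun r _ => ?_
    rw [sum_filter]
  rw [e1]
  refine (Finset.abs_sum_le_sum_abs _ _).trans ?_
  have h2 : ∀ E ∈ SqM K y, |lam E * ∑ r ∈ (Mn K E.natDegree).filter (fun r => E ∣ Hh h r),
      ∑ B ∈ S.filter (fun B => E ∣ g B - r), ψ B| ≤ (Fintype.card K : ℝ) ^ y * S₀ := by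
    intro E hE
    have hE' := mem_SqM.1 hE
    rw [abs_mul]
    refine (mul_le_of_le_one_left (abs_nonneg _) (hlam E)).trans ?_
    refine (Finset.abs_sum_le_sum_abs _ _).trans ?_
    refine (sum_le_card_nsmul _ _ _ fun r _ => hb E hE'.1 hE'.2.1 r).trans ?_
    rw [nsmul_eq_mul]
    refine mul_le_mul_of_nonneg_right ?_ hS₀
    have h3 : (((Mn K E.natDegree).filter (fun r => E ∣ Hh h r)).card : ℝ) ≤
        (Fintype.card K : ℝ) ^ E.natDegree := by
      have h4 : ((Mn K E.natDegree).filter (fun r => E ∣ Hh h r)).card ≤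
          Fintype.card K ^ E.natDegree := by
        rw [← card_Mn]
        exact card_filter_le _ _
      exact_mod_cast h4
    exact h3.trans (pow_le_pow_right₀ hq1 hE'.2.1)
  refine (sum_le_card_nsmul _ _ _ h2).trans ?_
  rw [nsmul_eq_mul]
  calc ((SqM K y).card : ℝ) * ((Fintype.card K : ℝ) ^ y * S₀)
      ≤ (Fintype.card K : ℝ) ^ (y + 1) * ((Fintype.card K : ℝ) ^ y * S₀) :=
        mul_le_mul_of_nonneg_right (card_SqM y) (by positivity)
    _ = _ := by ring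

lemma Wt_abs {k : ℕ} (h : Fin k → K[X]) (lam : K[X] → ℝ) (hlam : Bdd lam) (y : ℕ) (f : K[X]) :
    |Wt h lam y f| ≤ (((SqM K y).filter (fun E => E ∣ Hh h f)).card : ℝ) := by
  unfold Wt
  refine (Finset.abs_sum_le_sum_abs _ _).trans ?_
  refine (sum_le_card_nsmul _ _ _ fun E _ => hlam E).trans ?_
  rw [nsmul_eq_mul, mul_one]

/-- the second moment -/
lemma mom {k : ℕ} {C : ℕ} {n N y : ℕ} {D : K[X]} {h : Fin k → K[X]} (lam : K[X] → ℝ)
    (hlam : Bdd lam) (ψ : K[X] → ℝ) (hψ : ∀ B, |ψ B| ≤ 1) (hN : N ≤ n) (hn : 2 ≤ n)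
    (hm : ∑ B ∈ Mn K N, (((SqM K y).filter (fun E => E ∣ Hh h (D * B))).card : ℝ) ^ 2 ≤
      ((N : ℝ) + 2) ^ C * (Fintype.card K : ℝ) ^ N) :
    ∑ B ∈ Mn K N, (Wt h lam y (D * B) * ψ B) ^ 2 ≤
      (n : ℝ) ^ (2 * C) * (Fintype.card K : ℝ) ^ N := by
  have h1 : ∀ B ∈ Mn K N, (Wt h lam y (D * B) * ψ B) ^ 2 ≤
      (((SqM K y).filter (fun E => E ∣ Hh h (D * B))).card : ℝ) ^ 2 := by
    intro B _
    rw [mul_pow, ← sq_abs, ← sq_abs (ψ B)]
    have h2 : |ψ B| ^ 2 ≤ 1 := pow_le_one₀ (abs_nonneg _) (hψ B)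
    have h3 := Wt_abs h lam hlam y (D * B)
    calc |Wt h lam y (D * B)| ^ 2 * |ψ B| ^ 2 ≤ |Wt h lam y (D * B)| ^ 2 * 1 :=
          mul_le_mul_of_nonneg_left h2 (by positivity)
      _ ≤ _ := by
          rw [mul_one]
          exact pow_le_pow_left₀ (abs_nonneg _) h3 2
  refine (sum_le_sum h1).trans (hm.trans ?_)
  refine mul_le_mul_of_nonneg_right ?_ (by positivity)
  rw [pow_mul]
  refine pow_le_pow_left₀ (by positivity) ?_ C
  have h2 : (N : ℝ) ≤ n := by exact_mod_cast hN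
  have h3 : (2 : ℝ) ≤ n := by exact_mod_cast hn
  nlinarith

lemma sqrt_le {n C A₀ : ℕ} (hn : 2 ≤ n) :
    Real.sqrt ((n : ℝ) ^ (2 * C) * (1 / (n : ℝ) ^ (2 * C + 2 * A₀ + 2))) ≤
      1 / (2 * (n : ℝ) ^ A₀) := by
  have hn0 : (0 : ℝ) < n := by exact_mod_cast (by omega : 0 < n)
  have h3 : (2 : ℝ) ≤ n := by exact_mod_cast hn
  have e : (n : ℝ) ^ (2 * C) * (1 / (n : ℝ) ^ (2 * C + 2 * A₀ + 2)) =
      (1 / (n : ℝ) ^ (A₀ + 1)) ^ 2 := by
    rw [show 2 * C + 2 * A₀ + 2 = 2 * C + 2 * (A₀ + 1) by ring, pow_add, div_pow, one_pow,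
      ← pow_mul, mul_comm (A₀ + 1) 2]
    field_simp
  rw [e, Real.sqrt_sq (by positivity)]
  refine one_div_le_one_div_of_le (by positivity) ?_
  rw [pow_succ, mul_comm]
  exact mul_le_mul_of_nonneg_left h3 (by positivity)

end main

end TIWa

open TIWa

/-- **Task TIW.** -/
theorem tiw (hm : S_mob) (ht : S_tailw) (hmo : S_momw) : S_tiw := by
  intro K _ _ _ k A₀ δ hδ
  obtain ⟨q, hqdef⟩ : ∃ q : ℝ, q = Fintype.card K := ⟨_, rfl⟩
  have hq1 : (1 : ℝ) < q := by rw [hqdef]; exact_mod_cast Fintype.one_lt_card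
  have hq0 : (0 : ℝ) < q := by linarith
  have hlq : 0 < Real.log q := Real.log_pos hq1
  obtain ⟨C, hC, hmob⟩ := hm K (δ * Real.log q / 8) (by positivity)
  obtain ⟨C₂, hmom⟩ := hmo k 2 K
  obtain ⟨n1, htail⟩ := ht K (2 * C₂ + 2 * A₀ + 2) (δ / 8) (by positivity)
  have hr1 : 1 < q ^ (δ / 8) := Real.one_lt_rpow hq1 (by positivity)
  have hlim := (tendsto_pow_const_div_const_pow_of_one_lt A₀ hr1).const_mul (2 * C * q ^ 2)
  rw [mul_zero] at hlim
  obtain ⟨n2, hn2⟩ := Filter.eventually_atTop.1 (hlim.eventually (gt_mem_nhds one_pos))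
  refine ⟨δ / 32, by positivity, n1 + n2 + A₀ + 2, ?_⟩
  intro n hn z y D h i₀ lam hz hD hDs hDd hcop hy hSh hlam
  rw [← hqdef]
  have hn0 : (0 : ℝ) < n := by exact_mod_cast (by omega : 0 < n)
  have hn2' : (2 : ℝ) ≤ n := by exact_mod_cast (by omega : 2 ≤ n)
  have hδ1 : δ ≤ 1 := by
    have h1 : (0 : ℝ) ≤ (1 - δ) * n := le_trans (by positivity) hDd
    have h2 : 0 ≤ 1 - δ := nonneg_of_mul_nonneg_left h1 hn0
    linarith
  have hδn : δ * n ≤ n := by nlinarith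
  obtain ⟨Y, hY⟩ : ∃ Y : ℕ, Y = ⌈δ / 8 * n⌉₊ := ⟨_, rfl⟩
  have hY1 : (Y : ℝ) < δ / 8 * n + 1 := by
    rw [hY]
    exact Nat.ceil_lt_add_one (by positivity)
  -- the degrees
  have hDn2 : (D.natDegree : ℝ) ≤ n / 2 := by nlinarith
  have hDn : D.natDegree ≤ n := by
    have : (D.natDegree : ℝ) ≤ n := by linarith
    exact_mod_cast this
  have hcast : ((n - D.natDegree : ℕ) : ℝ) = n - D.natDegree := by rw [Nat.cast_sub hDn]
  have h2y : 2 * y ≤ n - D.natDegree := by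
    have : (2 : ℝ) * y ≤ ((n - D.natDegree : ℕ) : ℝ) := by
      rw [hcast]
      nlinarith
    exact_mod_cast this
  rw [sum_exp, ← Finset.sum_filter_add_sum_filter_not (Pz K z).powerset
    (fun T : Finset K[X] => (∏ P ∈ T, P).natDegree < Y)]
  refine (abs_add_le _ _).trans ?_
  -- the small divisors
  have hsmall : |∑ T ∈ (Pz K z).powerset.filter (fun T => (∏ P ∈ T, P).natDegree < Y),
      (-1) ^ T.card * ∑ B ∈ (Mn K (n - D.natDegree)).filter (fun B => (∏ P ∈ T, P) ∣ B),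
        Wt h lam y (D * B) * (mob (D * B + h i₀) : ℝ)| ≤
      q ^ Y * (q ^ (2 * y + 1) * (C * q ^ ((n : ℝ) / 2) * Real.exp (δ * Real.log q / 8 * n))) := by
    refine (Finset.abs_sum_le_sum_abs _ _).trans ?_
    have h1 : ∀ T ∈ (Pz K z).powerset.filter (fun T => (∏ P ∈ T, P).natDegree < Y),
        |(-1) ^ T.card * ∑ B ∈ (Mn K (n - D.natDegree)).filter (fun B => (∏ P ∈ T, P) ∣ B),
          Wt h lam y (D * B) * (mob (D * B + h i₀) : ℝ)| ≤
        q ^ (2 * y + 1) * (C * q ^ ((n : ℝ) / 2) * Real.exp (δ * Real.log q / 8 * n)) := by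
      intro T hT
      rw [mem_filter, mem_powerset] at hT
      rw [abs_mul, abs_pow, abs_neg, abs_one, one_pow, one_mul]
      have hW := W_exp h lam hlam y ((Mn K (n - D.natDegree)).filter
        (fun B => (∏ P ∈ T, P) ∣ B)) (fun B => D * B) (fun B => (mob (D * B + h i₀) : ℝ))
        (C * q ^ ((n : ℝ) / 2) * Real.exp (δ * Real.log q / 8 * n)) (by positivity) ?_
      · rw [← hqdef] at hW
        exact hW
      intro E hE hEy r
      have h4 : ∑ B ∈ ((Mn K (n - D.natDegree)).filter (fun B => (∏ P ∈ T, P) ∣ B)).filter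
          (fun B => E ∣ D * B - r), (mob (D * B + h i₀) : ℝ) =
          In n D (h i₀) 1 E r (∏ P ∈ T, P) := by
        unfold In
        rw [filter_filter]
        refine sum_congr rfl fun B _ => ?_
        rw [mobg_one]
      rw [h4]
      refine In_mob n (by positivity) hD (prod_monic hT.1) hE (hSh i₀).2 hDn ?_ ?_
      · have h2 : ((∏ P ∈ T, P).natDegree : ℝ) < δ / 8 * n := by
          have h3 := hT.2
          rw [hY, Nat.lt_ceil] at h3
          exact h3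
        have h5 : (E.natDegree : ℝ) ≤ δ / 32 * n := le_trans (by exact_mod_cast hEy) hy
        have h3 : (D.natDegree : ℝ) + (∏ P ∈ T, P).natDegree + E.natDegree ≤ n := by nlinarith
        have h4 : D.natDegree + (∏ P ∈ T, P).natDegree + E.natDegree ≤ n := by exact_mod_cast h3
        omega
      · intro R a hR hRd
        have h2 := hmob n R a 1 hR hRd monic_one (by rw [natDegree_one]; omega)
        rw [← hqdef] at h2
        exact h2
    refine (Finset.sum_le_sum h1).trans ?_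
    rw [Finset.sum_const, nsmul_eq_mul]
    refine mul_le_mul_of_nonneg_right ?_ (by positivity)
    have h2 := card_small (K := K) z Y
    rw [← hqdef] at h2
    exact h2
  have hpsi : ∀ B : K[X], |(mob (D * B + h i₀) : ℝ)| ≤ 1 := fun B => abs_mob _
  have hmm := mom lam hlam (fun B => (mob (D * B + h i₀) : ℝ)) hpsi (Nat.sub_le n D.natDegree)
    (by omega) (hmom (n - D.natDegree) y D h hD hcop h2y)
  have htl := htail n (by omega) z (hz.trans (Nat.mul_le_mul_right _ (by omega)))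
  rw [← hY] at htl
  have hlarge := large n (n - D.natDegree) z Y (Nat.sub_le _ _)
    (fun B => Wt h lam y (D * B) * (mob (D * B + h i₀) : ℝ)) _ _ hmm htl
  rw [← hqdef] at hlarge
  -- the sizes
  have hX : (q ^ (n - D.natDegree) : ℝ) = q ^ ((n : ℝ) - D.natDegree) := by
    rw [← Real.rpow_natCast, hcast]
  have hXpos : (0 : ℝ) < q ^ (n - D.natDegree) := by positivity
  have hnA : (0 : ℝ) < (n : ℝ) ^ A₀ := by positivity
  have hs1 : q ^ Y * (q ^ (2 * y + 1) * (C * q ^ ((n : ℝ) / 2) *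
      Real.exp (δ * Real.log q / 8 * n))) ≤ q ^ (n - D.natDegree) / (2 * (n : ℝ) ^ A₀) := by
    rw [le_div_iff₀ (by positivity)]
    have e2 : Real.exp (δ * Real.log q / 8 * n) = q ^ (δ / 8 * n) := by
      rw [Real.rpow_def_of_pos hq0]
      congr 1
      ring
    have e3 : (q : ℝ) ^ Y ≤ q ^ (δ / 8 * n + 1) := by
      rw [← Real.rpow_natCast]
      exact Real.rpow_le_rpow_of_exponent_le hq1.le hY1.le
    have e4 : (q : ℝ) ^ (2 * y + 1) ≤ q ^ (δ / 16 * n + 1) := by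
      rw [← Real.rpow_natCast]
      refine Real.rpow_le_rpow_of_exponent_le hq1.le ?_
      push_cast
      linarith
    have h3 : 2 * C * q ^ 2 * ((n : ℝ) ^ A₀ / (q ^ (δ / 8)) ^ n) < 1 := hn2 n (by omega)
    have h4 : 2 * C * q ^ 2 * (n : ℝ) ^ A₀ ≤ q ^ (δ / 8 * n) := by
      rw [← mul_div_assoc, div_lt_one (by positivity)] at h3
      have e4 : (q ^ (δ / 8)) ^ n = q ^ (δ / 8 * n) := by
        rw [← Real.rpow_natCast, ← Real.rpow_mul hq0.le]
      rw [e4] at h3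
      exact h3.le
    rw [hX, e2]
    calc q ^ Y * (q ^ (2 * y + 1) * (C * q ^ ((n : ℝ) / 2) * q ^ (δ / 8 * n))) *
          (2 * (n : ℝ) ^ A₀)
        ≤ q ^ (δ / 8 * n + 1) * (q ^ (δ / 16 * n + 1) * (C * q ^ ((n : ℝ) / 2) *
          q ^ (δ / 8 * n))) * (2 * (n : ℝ) ^ A₀) := by
          gcongr
      _ = (2 * C * q ^ 2 * (n : ℝ) ^ A₀) * (q ^ (δ / 8 * n) * q ^ (δ / 16 * n) *
          q ^ ((n : ℝ) / 2) * q ^ (δ / 8 * n)) := by
          rw [Real.rpow_add hq0, Real.rpow_add hq0, Real.rpow_one]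
          ring
      _ ≤ q ^ (δ / 8 * n) * (q ^ (δ / 8 * n) * q ^ (δ / 16 * n) *
          q ^ ((n : ℝ) / 2) * q ^ (δ / 8 * n)) := by
          gcongr
      _ = q ^ (δ / 8 * n + (δ / 8 * n + δ / 16 * n + (n : ℝ) / 2 + δ / 8 * n)) := by
          rw [← Real.rpow_add hq0, ← Real.rpow_add hq0, ← Real.rpow_add hq0, ← Real.rpow_add hq0]
      _ ≤ q ^ ((n : ℝ) - D.natDegree) := by
          apply Real.rpow_le_rpow_of_exponent_le hq1.le
          nlinarith
  have hs2 : q ^ (n - D.natDegree) * Real.sqrt ((n : ℝ) ^ (2 * C₂) *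
      (1 / (n : ℝ) ^ (2 * C₂ + 2 * A₀ + 2))) ≤ q ^ (n - D.natDegree) / (2 * (n : ℝ) ^ A₀) := by
    have h6 := sqrt_le (n := n) (C := C₂) (A₀ := A₀) (by omega)
    calc q ^ (n - D.natDegree) * Real.sqrt ((n : ℝ) ^ (2 * C₂) *
        (1 / (n : ℝ) ^ (2 * C₂ + 2 * A₀ + 2))) ≤ q ^ (n - D.natDegree) *
        (1 / (2 * (n : ℝ) ^ A₀)) := mul_le_mul_of_nonneg_left h6 hXpos.le
      _ = q ^ (n - D.natDegree) / (2 * (n : ℝ) ^ A₀) := by ring
  have hs3 : q ^ (n - D.natDegree) / (n : ℝ) ^ A₀ = q ^ (n - D.natDegree) / (2 * (n : ℝ) ^ A₀) +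
      q ^ (n - D.natDegree) / (2 * (n : ℝ) ^ A₀) := by
    field_simp
    ring
  rw [hs3]
  exact add_le_add (hsmall.trans hs1) (hlarge.trans hs2)

end Pool.Agent.H985.CH
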