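import Pool.Agent.H985.CH.TIW

/-!
# Task TWW of project CH (helper348): type I sums twisted by the Moebius function, with the weights
-/

set_option autoImplicit false

namespace Pool.Agent.H985.CH

open Polynomial Finset
open scoped Classical
open Pool.Agent.H985.Chow (mob)
open Pool.Agent.H985.KP (PA mobg)
open Pool.Agent.H694.Typ (Mn Irn mem_Mn card_Mn PU mem_PU card_dvd_le no_dvd wt)
open Pool.Agent.H251.SP (Rgh Smo S_mob S_ps)
open Pool.Agent.H251.SP.TiN (Pz mem_Pz cop_pz prod_monic prod_dvd_iff prod_inj sieve_id prod_sqf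
  prod_smo card_small In In_mob)
open Pool.Agent.H251.SP.TW (abs_mob mobg_one dvd_prod_irr exists_lcm)

namespace TIWa

section tww

variable {K : Type} [Field K] [Fintype K]

/-- the sum in residue classes -/
lemma ps2 {n : ℕ} {c : ℝ} {d E r h : K[X]} (hd : d.Monic) (hE : E.Monic) (hh : h ≠ 0)
    (hhn : h.natDegree < n) (hc : 0 ≤ c) (hde : (d.natDegree : ℝ) + E.natDegree ≤ c * n)
    (hps : ∀ (h g : Fin 2 → K[X]) (Q r : K[X]), Function.Injective h →
      (∀ i, (h i).natDegree < n) → (∀ i, (g i).Monic ∧ ((g i).natDegree : ℝ) ≤ c * n) →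
      Q.Monic → (Q.natDegree : ℝ) ≤ c * n →
      |∑ f ∈ (Mn K n).filter (fun f => Q ∣ f - r), ∏ i, (mobg (g i) (f + h i) : ℝ)| ≤
        (Fintype.card K : ℝ) ^ ((n : ℝ) - c * n)) :
    |∑ f ∈ ((Mn K n).filter (fun f => d ∣ f)).filter (fun f => E ∣ f - r),
      (mob f : ℝ) * (mob (f + h) : ℝ)| ≤ (Fintype.card K : ℝ) ^ ((n : ℝ) - c * n) := by
  by_cases hex : ∃ f₀ : K[X], d ∣ f₀ ∧ E ∣ f₀ - r
  · obtain ⟨f₀, hf1, hf2⟩ := hex
    obtain ⟨M, hM, hMd, hMx⟩ := exists_lcm d E hd hE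
    have h3 : ∑ f ∈ ((Mn K n).filter (fun f => d ∣ f)).filter (fun f => E ∣ f - r),
        (mob f : ℝ) * (mob (f + h) : ℝ) = ∑ f ∈ (Mn K n).filter (fun f => M ∣ f - f₀),
          ∏ i : Fin 2, (mobg ((![1, 1] : Fin 2 → K[X]) i) (f + (![0, h] : Fin 2 → K[X]) i) : ℝ) := by
      rw [filter_filter]
      refine sum_congr ?_ fun f _ => ?_
      · refine filter_congr fun f _ => ?_
        rw [hMx]
        have a1 : E ∣ f - r ↔ E ∣ f - f₀ := by
          rw [show f - r = (f - f₀) + (f₀ - r) by ring]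
          exact (dvd_add_left hf2)
        have a2 : d ∣ f ↔ d ∣ f - f₀ := (dvd_sub_left hf1).symm
        rw [a1, a2]
      · rw [Fin.prod_univ_two]
        simp only [Matrix.cons_val_zero, Matrix.cons_val_one, add_zero, mobg_one]
    rw [h3]
    refine hps ![0, h] ![1, 1] M f₀ ?_ ?_ ?_ hM ?_
    · intro a b hab
      fin_cases a <;> fin_cases b
      · rfl
      · exact absurd hab.symm hh
      · exact absurd hab hh
      · rfl
    · intro a
      fin_cases a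
      · change (0 : K[X]).natDegree < n
        rw [natDegree_zero]
        omega
      · exact hhn
    · intro a
      have h1 : (![1, 1] : Fin 2 → K[X]) a = 1 := by
        fin_cases a <;> rfl
      rw [h1]
      refine ⟨monic_one, ?_⟩
      rw [natDegree_one]
      push_cast
      positivity
    · have h5 : ((M.natDegree : ℕ) : ℝ) ≤ (d.natDegree : ℝ) + E.natDegree := by exact_mod_cast hMd
      linarith
  · have h3 : ∑ f ∈ ((Mn K n).filter (fun f => d ∣ f)).filter (fun f => E ∣ f - r),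
        (mob f : ℝ) * (mob (f + h) : ℝ) = 0 := by
      rw [filter_filter, filter_eq_empty_iff.2, sum_empty]
      intro f _ hc
      exact hex ⟨f, hc.1, hc.2⟩
    rw [h3, abs_zero]
    positivity

end tww

end TIWa

open TIWa

/-- **Task TWW.** -/
theorem tww (hp : S_ps) (ht : S_tailw) (hmo : S_momw) : S_tww := by
  intro K _ _ _ k A₀
  obtain ⟨q, hqdef⟩ : ∃ q : ℝ, q = Fintype.card K := ⟨_, rfl⟩
  have hq1 : (1 : ℝ) < q := by rw [hqdef]; exact_mod_cast Fintype.one_lt_card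
  have hq0 : (0 : ℝ) < q := by linarith
  obtain ⟨c₁, hc₁, n₁, hps₁⟩ := hp K 2 (by norm_num)
  obtain ⟨C₂, hmom⟩ := hmo k 2 K
  -- a smaller constant
  obtain ⟨c, hc, hcc, hc1⟩ : ∃ c : ℝ, 0 < c ∧ c ≤ c₁ ∧ c ≤ 1 :=
    ⟨min c₁ 1, by positivity, min_le_left _ _, min_le_right _ _⟩
  obtain ⟨n2, htail⟩ := ht K (2 * C₂ + 2 * A₀ + 2) (c / 4) (by positivity)
  have hr1 : 1 < q ^ (c / 8) := Real.one_lt_rpow hq1 (by positivity)
  have hlim := (tendsto_pow_const_div_const_pow_of_one_lt A₀ hr1).const_mul (2 * q ^ 2)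
  rw [mul_zero] at hlim
  obtain ⟨n3, hn3⟩ := Filter.eventually_atTop.1 (hlim.eventually (gt_mem_nhds one_pos))
  refine ⟨c / 16, by positivity, n₁ + n2 + n3 + A₀ + 2, ?_⟩
  intro n hn z y h i₀ lam hz hy hSh hlam
  rw [← hqdef]
  have hn0 : (0 : ℝ) < n := by exact_mod_cast (by omega : 0 < n)
  have hn2' : (2 : ℝ) ≤ n := by exact_mod_cast (by omega : 2 ≤ n)
  obtain ⟨Y, hY⟩ : ∃ Y : ℕ, Y = ⌈c / 4 * n⌉₊ := ⟨_, rfl⟩
  have hY1 : (Y : ℝ) < c / 4 * n + 1 := by
    rw [hY]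
    exact Nat.ceil_lt_add_one (by positivity)
  have hcn : c * n ≤ n := by nlinarith
  have h2y : 2 * y ≤ n := by
    have : (2 : ℝ) * y ≤ n := by linarith
    exact_mod_cast this
  have hps : ∀ (h g : Fin 2 → K[X]) (Q r : K[X]), Function.Injective h →
      (∀ i, (h i).natDegree < n) → (∀ i, (g i).Monic ∧ ((g i).natDegree : ℝ) ≤ c * n) →
      Q.Monic → (Q.natDegree : ℝ) ≤ c * n →
      |∑ f ∈ (Mn K n).filter (fun f => Q ∣ f - r), ∏ i, (mobg (g i) (f + h i) : ℝ)| ≤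
        (Fintype.card K : ℝ) ^ ((n : ℝ) - c * n) := by
    intro h g Q r h1 h2 h3 h4 h5
    have h6 : c * n ≤ c₁ * n := mul_le_mul_of_nonneg_right hcc hn0.le
    refine (hps₁ n (by omega) h g Q r h1 h2 (fun i => ⟨(h3 i).1, (h3 i).2.trans h6⟩) h4
      (h5.trans h6)).trans ?_
    rw [← hqdef]
    exact Real.rpow_le_rpow_of_exponent_le hq1.le (by linarith)
  rw [sum_exp, ← Finset.sum_filter_add_sum_filter_not (Pz K z).powerset
    (fun T : Finset K[X] => (∏ P ∈ T, P).natDegree < Y)]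
  refine (abs_add_le _ _).trans ?_
  -- the small divisors
  have hsmall : |∑ T ∈ (Pz K z).powerset.filter (fun T => (∏ P ∈ T, P).natDegree < Y),
      (-1) ^ T.card * ∑ f ∈ (Mn K n).filter (fun f => (∏ P ∈ T, P) ∣ f),
        Wt h lam y f * ((mob f : ℝ) * (mob (f + h i₀) : ℝ))| ≤
      q ^ Y * (q ^ (2 * y + 1) * q ^ ((n : ℝ) - c * n)) := by
    refine (Finset.abs_sum_le_sum_abs _ _).trans ?_
    have h1 : ∀ T ∈ (Pz K z).powerset.filter (fun T => (∏ P ∈ T, P).natDegree < Y),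
        |(-1) ^ T.card * ∑ f ∈ (Mn K n).filter (fun f => (∏ P ∈ T, P) ∣ f),
          Wt h lam y f * ((mob f : ℝ) * (mob (f + h i₀) : ℝ))| ≤
        q ^ (2 * y + 1) * q ^ ((n : ℝ) - c * n) := by
      intro T hT
      rw [mem_filter, mem_powerset] at hT
      rw [abs_mul, abs_pow, abs_neg, abs_one, one_pow, one_mul]
      have hW := W_exp h lam hlam y ((Mn K n).filter (fun f => (∏ P ∈ T, P) ∣ f)) (fun f => f)
        (fun f => (mob f : ℝ) * (mob (f + h i₀) : ℝ)) (q ^ ((n : ℝ) - c * n)) (by positivity) ?_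
      · rw [← hqdef] at hW
        exact hW
      intro E hE hEy r
      have h2 : ((∏ P ∈ T, P).natDegree : ℝ) < c / 4 * n := by
        have h3 := hT.2
        rw [hY, Nat.lt_ceil] at h3
        exact h3
      have h5 : (E.natDegree : ℝ) ≤ c / 16 * n := le_trans (by exact_mod_cast hEy) hy
      have h6 := ps2 (r := r) (prod_monic hT.1) hE (hSh i₀).1 (hSh i₀).2 hc.le (by nlinarith) hps
      rw [← hqdef] at h6
      exact h6
    refine (Finset.sum_le_sum h1).trans ?_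
    rw [Finset.sum_const, nsmul_eq_mul]
    refine mul_le_mul_of_nonneg_right ?_ (by positivity)
    have h2 := card_small (K := K) z Y
    rw [← hqdef] at h2
    exact h2
  have hpsi : ∀ f : K[X], |(mob f : ℝ) * (mob (f + h i₀) : ℝ)| ≤ 1 := by
    intro f
    rw [abs_mul]
    exact mul_le_one₀ (abs_mob f) (abs_nonneg _) (abs_mob _)
  have hmm := mom (D := 1) lam hlam (fun f => (mob f : ℝ) * (mob (f + h i₀) : ℝ)) hpsi le_rfl
    (by omega : 2 ≤ n) (hmom n y 1 h monic_one (fun i => isCoprime_one_left) h2y)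
  simp only [one_mul] at hmm
  have htl := htail n (by omega) z (hz.trans (Nat.mul_le_mul_right _ (by omega)))
  rw [← hY] at htl
  have hlarge := large n n z Y le_rfl
    (fun f => Wt h lam y f * ((mob f : ℝ) * (mob (f + h i₀) : ℝ))) _ _ hmm htl
  rw [← hqdef] at hlarge
  -- the sizes
  have hXpos : (0 : ℝ) < q ^ n := by positivity
  have hnA : (0 : ℝ) < (n : ℝ) ^ A₀ := by positivity
  have hs1 : q ^ Y * (q ^ (2 * y + 1) * q ^ ((n : ℝ) - c * n)) ≤
      q ^ n / (2 * (n : ℝ) ^ A₀) := by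
    rw [le_div_iff₀ (by positivity)]
    have e3 : (q : ℝ) ^ Y ≤ q ^ (c / 4 * n + 1) := by
      rw [← Real.rpow_natCast]
      exact Real.rpow_le_rpow_of_exponent_le hq1.le hY1.le
    have e4 : (q : ℝ) ^ (2 * y + 1) ≤ q ^ (c / 8 * n + 1) := by
      rw [← Real.rpow_natCast]
      refine Real.rpow_le_rpow_of_exponent_le hq1.le ?_
      push_cast
      linarith
    have h3 : 2 * q ^ 2 * ((n : ℝ) ^ A₀ / (q ^ (c / 8)) ^ n) < 1 := hn3 n (by omega)
    have h4 : 2 * q ^ 2 * (n : ℝ) ^ A₀ ≤ q ^ (c / 8 * n) := by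
      rw [← mul_div_assoc, div_lt_one (by positivity)] at h3
      have e4 : (q ^ (c / 8)) ^ n = q ^ (c / 8 * n) := by
        rw [← Real.rpow_natCast, ← Real.rpow_mul hq0.le]
      rw [e4] at h3
      exact h3.le
    calc q ^ Y * (q ^ (2 * y + 1) * q ^ ((n : ℝ) - c * n)) * (2 * (n : ℝ) ^ A₀)
        ≤ q ^ (c / 4 * n + 1) * (q ^ (c / 8 * n + 1) * q ^ ((n : ℝ) - c * n)) *
          (2 * (n : ℝ) ^ A₀) := by
          gcongr
      _ = (2 * q ^ 2 * (n : ℝ) ^ A₀) * (q ^ (c / 4 * n) * q ^ (c / 8 * n) *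
          q ^ ((n : ℝ) - c * n)) := by
          rw [Real.rpow_add hq0, Real.rpow_add hq0, Real.rpow_one]
          ring
      _ ≤ q ^ (c / 8 * n) * (q ^ (c / 4 * n) * q ^ (c / 8 * n) * q ^ ((n : ℝ) - c * n)) := by
          gcongr
      _ = q ^ (c / 8 * n + (c / 4 * n + c / 8 * n + ((n : ℝ) - c * n))) := by
          rw [← Real.rpow_add hq0, ← Real.rpow_add hq0, ← Real.rpow_add hq0]
      _ ≤ q ^ (n : ℝ) := by
          apply Real.rpow_le_rpow_of_exponent_le hq1.le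
          nlinarith
      _ = q ^ n := Real.rpow_natCast _ _
  have hs2 : q ^ n * Real.sqrt ((n : ℝ) ^ (2 * C₂) *
      (1 / (n : ℝ) ^ (2 * C₂ + 2 * A₀ + 2))) ≤ q ^ n / (2 * (n : ℝ) ^ A₀) := by
    have h6 := sqrt_le (n := n) (C := C₂) (A₀ := A₀) (by omega)
    calc q ^ n * Real.sqrt ((n : ℝ) ^ (2 * C₂) *
        (1 / (n : ℝ) ^ (2 * C₂ + 2 * A₀ + 2))) ≤ q ^ n *
        (1 / (2 * (n : ℝ) ^ A₀)) := mul_le_mul_of_nonneg_left h6 hXpos.le
      _ = q ^ n / (2 * (n : ℝ) ^ A₀) := by ring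
  have hs3 : q ^ n / (n : ℝ) ^ A₀ = q ^ n / (2 * (n : ℝ) ^ A₀) +
      q ^ n / (2 * (n : ℝ) ^ A₀) := by
    field_simp
    ring
  rw [hs3]
  exact add_le_add (hsmall.trans hs1) (hlarge.trans hs2)

end Pool.Agent.H985.CH
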