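import Pool.Agent.H985.CH.Stm

/-!
# Chen with parity over `F_q[X]` (helper985), task BRW (helper618): the sieve weights
-/

set_option autoImplicit false
set_option linter.unusedSectionVars false

namespace Pool.Agent.H985.CH

open Polynomial Finset
open scoped Classical
open Pool.Agent.H985.Par (Sft S_brun)
open Pool.Agent.H694.Typ (Mn mem_Mn Irn mem_Irn PU mem_PU irn_one_le coprime_of_ne)
open Pool.Agent.H225.Par (lf Om Om_card_le)

namespace BRWx

variable {K : Type} [Field K] [Fintype K]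

theorem q_two : 2 ≤ Fintype.card K := Fintype.one_lt_card

theorem q_pos : (0 : ℝ) < Fintype.card K := by
  have := q_two (K := K)
  have : 0 < Fintype.card K := by omega
  exact_mod_cast this

theorem Q_two {j : ℕ} (hj : 1 ≤ j) : (2 : ℝ) ≤ (Fintype.card K : ℝ) ^ j := by
  have h1 : 2 ≤ Fintype.card K ^ j := by
    calc 2 ≤ Fintype.card K := q_two
      _ = Fintype.card K ^ 1 := (pow_one _).symm
      _ ≤ Fintype.card K ^ j := Nat.pow_le_pow_right (by have := q_two (K := K); omega) hj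
  exact_mod_cast h1

/-- the densities -/
noncomputable def w {k : ℕ} (h : Fin k → K[X]) (P : K[X]) : ℝ :=
  1 - lf (Fin.cons 0 h : Fin (k + 1) → K[X]) P / (1 - 1 / (Fintype.card K : ℝ) ^ P.natDegree)

theorem Om_pos {k : ℕ} (h : Fin k → K[X]) (P : K[X]) :
    1 ≤ (Om (Fin.cons 0 h : Fin (k + 1) → K[X]) P).card := by
  unfold Om
  rw [Nat.one_le_iff_ne_zero, ← Nat.pos_iff_ne_zero, Finset.card_pos]
  exact ⟨_, Finset.mem_image_of_mem _ (Finset.mem_univ 0)⟩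

theorem w_eq {k : ℕ} (h : Fin k → K[X]) {P : K[X]} (hP : 1 ≤ P.natDegree) :
    w h P = (((Om (Fin.cons 0 h : Fin (k + 1) → K[X]) P).card : ℝ) - 1) /
      ((Fintype.card K : ℝ) ^ P.natDegree - 1) := by
  have h2 := Q_two (K := K) hP
  unfold w lf
  set Q : ℝ := (Fintype.card K : ℝ) ^ P.natDegree with hQ
  have h3 : Q ≠ 0 := by linarith
  have h4 : Q - 1 ≠ 0 := by linarith
  have h5 : 1 - 1 / Q = (Q - 1) / Q := by field_simp
  rw [h5]
  field_simp
  ring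

theorem w_nonneg {k : ℕ} (h : Fin k → K[X]) {P : K[X]} (hP : 1 ≤ P.natDegree) : 0 ≤ w h P := by
  rw [w_eq h hP]
  have h2 := Q_two (K := K) hP
  have h3 := Om_pos h P
  have h4 : (1 : ℝ) ≤ ((Om (Fin.cons 0 h : Fin (k + 1) → K[X]) P).card : ℝ) := by exact_mod_cast h3
  exact div_nonneg (by linarith) (by linarith)

theorem w_le' {k : ℕ} (h : Fin k → K[X]) {P : K[X]} (hP : 1 ≤ P.natDegree) :
    w h P ≤ 2 * k / (Fintype.card K : ℝ) ^ P.natDegree := by
  rw [w_eq h hP]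
  have h2 := Q_two (K := K) hP
  have h3 := Om_card_le (Fin.cons 0 h : Fin (k + 1) → K[X]) P
  have h4 : ((Om (Fin.cons 0 h : Fin (k + 1) → K[X]) P).card : ℝ) ≤ (k : ℝ) + 1 := by
    exact_mod_cast h3
  rw [div_le_div_iff₀ (by linarith) (by linarith)]
  have hk : (0 : ℝ) ≤ k := Nat.cast_nonneg k
  nlinarith

theorem w_le {k : ℕ} (h : Fin k → K[X]) {P : K[X]} (hP : 1 ≤ P.natDegree)
    (hpos : lf (Fin.cons 0 h : Fin (k + 1) → K[X]) P ≠ 0)
    (hle : (Om (Fin.cons 0 h : Fin (k + 1) → K[X]) P).card ≤ Fintype.card K ^ P.natDegree) :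
    w h P ≤ 1 - 1 / (4 * (k : ℝ) + 4) := by
  have hk : (0 : ℝ) ≤ k := Nat.cast_nonneg k
  have h2 := Q_two (K := K) hP
  have h3 := Om_card_le (Fin.cons 0 h : Fin (k + 1) → K[X]) P
  have h4 : ((Om (Fin.cons 0 h : Fin (k + 1) → K[X]) P).card : ℝ) ≤ (k : ℝ) + 1 := by
    exact_mod_cast h3
  have h5 : (Om (Fin.cons 0 h : Fin (k + 1) → K[X]) P).card ≠ Fintype.card K ^ P.natDegree := by
    intro h5
    apply hpos
    unfold lf
    rw [h5, Nat.cast_pow, div_self (by linarith), sub_self]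
  have h6 : (Om (Fin.cons 0 h : Fin (k + 1) → K[X]) P).card + 1 ≤
      Fintype.card K ^ P.natDegree := by omega
  have h7 : ((Om (Fin.cons 0 h : Fin (k + 1) → K[X]) P).card : ℝ) + 1 ≤
      (Fintype.card K : ℝ) ^ P.natDegree := by exact_mod_cast h6
  have h8 := Om_pos h P
  have h9 : (1 : ℝ) ≤ ((Om (Fin.cons 0 h : Fin (k + 1) → K[X]) P).card : ℝ) := by exact_mod_cast h8
  rw [w_eq h hP]
  set Q : ℝ := (Fintype.card K : ℝ) ^ P.natDegree with hQ
  set c : ℝ := ((Om (Fin.cons 0 h : Fin (k + 1) → K[X]) P).card : ℝ) with hc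
  rw [div_le_iff₀ (by linarith)]
  by_cases h10 : Q - 1 ≤ 4 * (k : ℝ) + 4
  · have h11 : 1 / (4 * (k : ℝ) + 4) * (Q - 1) ≤ 1 := by
      rw [one_div, inv_mul_le_iff₀ (by linarith)]
      linarith
    linarith
  · push Not at h10
    have h11 : 1 / (4 * (k : ℝ) + 4) ≤ 1 / 4 :=
      one_div_le_one_div_of_le (by norm_num) (by linarith)
    have h12 : 1 / (4 * (k : ℝ) + 4) * (Q - 1) ≤ 1 / 4 * (Q - 1) :=
      mul_le_mul_of_nonneg_right h11 (by linarith)
    linarith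

theorem Om_card_le' {k : ℕ} (β : Fin k → K[X]) {P : K[X]} (hP : P.Monic) :
    (Om β P).card ≤ Fintype.card K ^ P.natDegree := by
  by_cases h : ∃ r, ∀ i, ¬ P ∣ r - β i
  · exact (Pool.Agent.H225.Par.Om_card_lt β hP h).le
  · have h1 := Pool.Agent.H225.Par.Om_degree β hP
    have h2 : Om β P ⊆ (Finset.univ : Finset (Fin P.natDegree → K)).image
        Pool.Agent.H694.Typ.pol := by
      intro u hu
      rw [mem_image]
      have h3 := h1 u hu
      rw [degree_eq_natDegree hP.ne_zero] at h3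
      obtain ⟨c, hc⟩ := Pool.Agent.H694.Typ.exists_pol h3
      exact ⟨c, mem_univ _, hc⟩
    refine (Finset.card_le_card h2).trans (Finset.card_image_le.trans ?_)
    rw [card_univ, Fintype.card_fun, Fintype.card_fin]

/-- dyadic sums -/
theorem dyadic {κ : ℝ} (hκ : 0 ≤ κ) {Ps : Finset K[X]} (v : K[X] → ℝ)
    (hPs : ∀ P ∈ Ps, P.Monic ∧ Irreducible P)
    (h1 : ∀ P ∈ Ps, v P ≤ κ / (Fintype.card K : ℝ) ^ P.natDegree) (y : ℕ) :
    ∑ P ∈ Ps with y < 2 * P.natDegree ∧ P.natDegree ≤ y, v P ≤ κ := by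
  have hq0 := q_pos (K := K)
  have hmaps : ∀ P ∈ Ps.filter (fun P => y < 2 * P.natDegree ∧ P.natDegree ≤ y),
      P.natDegree ∈ Finset.Ioc (y / 2) y := by
    intro P hP
    rw [mem_filter] at hP
    rw [mem_Ioc]
    omega
  rw [← Finset.sum_fiberwise_of_maps_to hmaps]
  have h2 : ∀ j ∈ Finset.Ioc (y / 2) y,
      ∑ P ∈ (Ps.filter (fun P => y < 2 * P.natDegree ∧ P.natDegree ≤ y)).filter
        (fun P => P.natDegree = j), v P ≤ κ * (2 / ((y : ℝ) + 1)) := by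
    intro j hj
    rw [mem_Ioc] at hj
    have hj0 : 0 < j := by omega
    have h3 : ∀ P ∈ (Ps.filter (fun P => y < 2 * P.natDegree ∧ P.natDegree ≤ y)).filter
        (fun P => P.natDegree = j), v P ≤ κ / (Fintype.card K : ℝ) ^ j := by
      intro P hP
      rw [mem_filter, mem_filter] at hP
      have h4 := h1 P hP.1.1
      rw [hP.2] at h4
      exact h4
    have h5 : (Ps.filter (fun P => y < 2 * P.natDegree ∧ P.natDegree ≤ y)).filter
        (fun P => P.natDegree = j) ⊆ Irn K j := by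
      intro P hP
      rw [mem_filter, mem_filter] at hP
      rw [mem_Irn]
      exact ⟨(hPs P hP.1.1).1, hP.2, (hPs P hP.1.1).2⟩
    have h6 := irn_one_le (k := K) hj0
    have h6' : (j : ℝ) * ((Irn K j).card : ℝ) ≤ (Fintype.card K : ℝ) ^ j := by
      exact_mod_cast h6
    have hjr : (0 : ℝ) < j := by exact_mod_cast hj0
    have h7 : ((y : ℝ) + 1) ≤ 2 * j := by
      have : y + 1 ≤ 2 * j := by omega
      exact_mod_cast this
    refine (Finset.sum_le_sum h3).trans ?_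
    refine (Finset.sum_le_sum_of_subset_of_nonneg h5 fun _ _ _ => by positivity).trans ?_
    calc ∑ P ∈ Irn K j, κ / (Fintype.card K : ℝ) ^ j
        = κ * (((Irn K j).card : ℝ) / (Fintype.card K : ℝ) ^ j) := by
          rw [Finset.sum_const, nsmul_eq_mul]
          ring
      _ ≤ κ * (2 / ((y : ℝ) + 1)) := by
          refine mul_le_mul_of_nonneg_left ?_ hκ
          rw [div_le_div_iff₀ (by positivity) (by positivity)]
          have h8 : (0 : ℝ) ≤ ((Irn K j).card : ℝ) := Nat.cast_nonneg _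
          nlinarith
  refine (Finset.sum_le_sum h2).trans ?_
  rw [Finset.sum_const, nsmul_eq_mul, Nat.card_Ioc]
  have h9 : ((y - y / 2 : ℕ) : ℝ) ≤ ((y : ℝ) + 1) / 2 := by
    rw [le_div_iff₀ (by norm_num)]
    have : (y - y / 2) * 2 ≤ y + 1 := by omega
    exact_mod_cast this
  calc ((y - y / 2 : ℕ) : ℝ) * (κ * (2 / ((y : ℝ) + 1)))
      ≤ ((y : ℝ) + 1) / 2 * (κ * (2 / ((y : ℝ) + 1))) :=
        mul_le_mul_of_nonneg_right h9 (by positivity)
    _ = κ := by field_simp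

/-- the primes of a product -/
theorem pf_prod {m : ℕ} {T : Finset K[X]} (hT : T ⊆ PU K m) :
    (PU K m).filter (fun P => P ∣ ∏ P ∈ T, P) = T := by
  ext P
  rw [mem_filter]
  constructor
  · rintro ⟨hP, hd⟩
    obtain ⟨h1, h2, -⟩ := mem_PU.1 hP
    obtain ⟨Q, hQ, hPQ⟩ := (h2.prime.dvd_finsetProd_iff _).1 hd
    obtain ⟨h3, h4, -⟩ := mem_PU.1 (hT hQ)
    have h5 : P = Q := by
      by_contra hne
      have h6 := coprime_of_ne h1 h2 h3 h4 hne
      exact h2.not_isUnit (h6.isUnit_of_dvd' dvd_rfl hPQ)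
    rw [h5]
    exact hQ
  · intro hP
    exact ⟨hT hP, dvd_prod_of_mem _ hP⟩

theorem deg_prod {m : ℕ} {T : Finset K[X]} (hT : T ⊆ PU K m) :
    (∏ P ∈ T, P).natDegree = ∑ P ∈ T, P.natDegree :=
  natDegree_prod_of_monic _ _ fun P hP => (mem_PU.1 (hT hP)).1

theorem monic_prod {m : ℕ} {T : Finset K[X]} (hT : T ⊆ PU K m) : (∏ P ∈ T, P).Monic :=
  monic_prod_of_monic _ _ fun P hP => (mem_PU.1 (hT hP)).1

theorem sqf_prod {m : ℕ} {T : Finset K[X]} (hT : T ⊆ PU K m) : Squarefree (∏ P ∈ T, P) := by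
  induction T using Finset.induction_on with
  | empty =>
    rw [Finset.prod_empty]
    exact squarefree_one
  | insert Q T hQ ih =>
    rw [Finset.prod_insert hQ]
    have h1 := mem_PU.1 (hT (mem_insert_self Q T))
    have h2 : T ⊆ PU K m := fun P hP => hT (mem_insert_of_mem hP)
    refine (squarefree_mul_iff).2 ⟨?_, h1.2.1.squarefree, ih h2⟩
    refine IsCoprime.isRelPrime ?_
    refine IsCoprime.prod_right fun P hP => ?_
    have h3 := mem_PU.1 (h2 hP)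
    refine coprime_of_ne h1.1 h1.2.1 h3.1 h3.2.1 ?_
    rintro rfl
    exact hQ hP

theorem prod_dvd {m : ℕ} {T : Finset K[X]} (hT : T ⊆ PU K m) {H : K[X]} :
    (∏ P ∈ T, P) ∣ H ↔ ∀ P ∈ T, P ∣ H := by
  constructor
  · intro h P hP
    exact (dvd_prod_of_mem _ hP).trans h
  · intro h
    refine Finset.prod_dvd_of_coprime ?_ h
    intro P hP P' hP' hne
    have h1 := mem_PU.1 (hT hP)
    have h3 := mem_PU.1 (hT hP')
    exact coprime_of_ne h1.1 h1.2.1 h3.1 h3.2.1 hne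

/-- the coefficients -/
noncomputable def lam (m : ℕ) (U : Finset K[X] → ℝ) (E : K[X]) : ℝ :=
  if ∃ T ∈ (PU K m).powerset, ∏ P ∈ T, P = E then U ((PU K m).filter (fun P => P ∣ E)) else 0

theorem lam_prod {m : ℕ} (U : Finset K[X] → ℝ) {T : Finset K[X]} (hT : T ⊆ PU K m) :
    lam m U (∏ P ∈ T, P) = U T := by
  unfold lam
  rw [if_pos ⟨T, mem_powerset.2 hT, rfl⟩, pf_prod hT]

theorem lam_ne {m : ℕ} {U : Finset K[X] → ℝ} {E : K[X]} (h : lam m U E ≠ 0) :
    ∃ T ⊆ PU K m, E = ∏ P ∈ T, P ∧ U T ≠ 0 := by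
  by_cases h1 : ∃ T ∈ (PU K m).powerset, ∏ P ∈ T, P = E
  · obtain ⟨T, hT, rfl⟩ := h1
    rw [mem_powerset] at hT
    rw [lam_prod U hT] at h
    exact ⟨T, hT, rfl, h⟩
  · exact absurd (if_neg h1) h

theorem lam_bdd {m : ℕ} {U : Finset K[X] → ℝ} (hU : ∀ T, |U T| ≤ 1) : Bdd (lam m U) := by
  intro E
  unfold lam
  split_ifs
  · exact hU _
  · rw [abs_zero]
    exact zero_le_one

theorem lam_supp {m : ℕ} {U : Finset K[X] → ℝ} {E : K[X]} (h : lam m U E ≠ 0) (P : K[X])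
    (hP : Irreducible P) (hd : P ∣ E) : P.natDegree ≤ m := by
  obtain ⟨T, hT, rfl, -⟩ := lam_ne h
  obtain ⟨Q, hQ, hPQ⟩ := (hP.prime.dvd_finsetProd_iff _).1 hd
  obtain ⟨h3, h4, h5⟩ := mem_PU.1 (hT hQ)
  exact (natDegree_le_of_dvd hPQ h3.ne_zero).trans h5

theorem mem_SqM {y : ℕ} {E : K[X]} : E ∈ SqM K y ↔ E.Monic ∧ Squarefree E ∧ E.natDegree ≤ y := by
  unfold SqM
  rw [mem_filter, mem_biUnion]
  constructor
  · rintro ⟨⟨i, hi, hE⟩, hs⟩
    rw [mem_Mn] at hE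
    rw [mem_range] at hi
    exact ⟨hE.1, hs, by omega⟩
  · rintro ⟨h1, h2, h3⟩
    exact ⟨⟨E.natDegree, mem_range.2 (by omega), mem_Mn.2 ⟨h1, rfl⟩⟩, h2⟩

/-- sums over `E` are sums over `T` -/
theorem sum_lam {m y : ℕ} {U : Finset K[X] → ℝ}
    (hU : ∀ T, U T ≠ 0 → T ⊆ PU K m ∧ ∑ P ∈ T, P.natDegree ≤ y) (Cd : K[X] → Prop)
    (G : Finset K[X] → ℝ) :
    ∑ E ∈ (SqM K y).filter Cd, lam m U E * G ((PU K m).filter (fun P => P ∣ E)) =
      ∑ T ∈ (PU K m).powerset.filter (fun T => Cd (∏ P ∈ T, P)), U T * G T := by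
  symm
  refine Finset.sum_bij_ne_zero (fun T _ _ => ∏ P ∈ T, P) ?_ ?_ ?_ ?_
  · intro T h1 h2
    rw [mem_filter, mem_powerset] at h1
    have h3 := hU T (left_ne_zero_of_mul h2)
    rw [mem_filter, mem_SqM]
    refine ⟨⟨monic_prod h1.1, sqf_prod h1.1, ?_⟩, h1.2⟩
    rw [deg_prod h1.1]
    exact h3.2
  · intro T h1 _ T' h1' _ h
    rw [mem_filter, mem_powerset] at h1 h1'
    rw [← pf_prod h1.1, ← pf_prod h1'.1, h]
  · intro E h1 h2
    obtain ⟨T, hT, rfl, h3⟩ := lam_ne (left_ne_zero_of_mul h2)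
    rw [mem_filter] at h1
    refine ⟨T, mem_filter.2 ⟨mem_powerset.2 hT, h1.2⟩, ?_, rfl⟩
    rw [lam_prod U hT, pf_prod hT] at h2
    exact h2
  · intro T h1 _
    rw [mem_filter, mem_powerset] at h1
    rw [lam_prod U h1.1, pf_prod h1.1]

theorem Wt_lam {k m y : ℕ} (h : Fin k → K[X]) {U : Finset K[X] → ℝ}
    (hU : ∀ T, U T ≠ 0 → T ⊆ PU K m ∧ ∑ P ∈ T, P.natDegree ≤ y) (f : K[X]) :
    Wt h (lam m U) y f =
      ∑ T ∈ ((PU K m).filter (fun P => P ∣ Hh h f)).powerset, U T := by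
  have h1 := sum_lam hU (fun E => E ∣ Hh h f) (fun _ => 1)
  simp only [mul_one] at h1
  unfold Wt
  rw [h1]
  refine Finset.sum_congr ?_ fun _ _ => rfl
  ext T
  rw [mem_filter, mem_powerset, mem_powerset]
  constructor
  · rintro ⟨h2, h3⟩ P hP
    exact mem_filter.2 ⟨h2 hP, (prod_dvd h2).1 h3 P hP⟩
  · intro h2
    have h3 : T ⊆ PU K m := fun P hP => (mem_filter.1 (h2 hP)).1
    exact ⟨h3, (prod_dvd h3).2 fun P hP => (mem_filter.1 (h2 hP)).2⟩

theorem Sif_iff {k m : ℕ} (h : Fin k → K[X]) (f : K[X]) :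
    Sif h m f ↔ (PU K m).filter (fun P => P ∣ Hh h f) = ∅ := by
  rw [Finset.filter_eq_empty_iff]
  constructor
  · intro h1 P hP hd
    obtain ⟨h2, h3, h4⟩ := mem_PU.1 hP
    unfold Hh at hd
    obtain ⟨i, -, hi⟩ := (h3.prime.dvd_finsetProd_iff _).1 hd
    have := h1 i P h2 h3 hi
    omega
  · intro h1 i P h2 h3 hi
    by_contra h4
    refine h1 (mem_PU.2 ⟨h2, h3, by omega⟩) ?_
    unfold Hh
    exact hi.trans (dvd_prod_of_mem _ (mem_univ i))

end BRWx

open BRWx in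
theorem brw (hb : S_brun) : S_brw := by
  intro K _ _ k ε hε
  obtain ⟨A, hA⟩ := hb (4 * (k : ℝ) + 4) ε (by positivity) hε
  refine ⟨A, fun m h hm hv => ?_⟩
  have hk : (0 : ℝ) ≤ k := Nat.cast_nonneg k
  have hne : ∀ P ∈ PU K m, lf (Fin.cons 0 h : Fin (k + 1) → K[X]) P ≠ 0 := by
    intro P hP h0
    have h1 : vp m h = 0 := by
      unfold vp
      refine Finset.prod_eq_zero hP ?_
      rw [h0, zero_div]
    exact hv.ne' h1
  have hdeg : ∀ P ∈ PU K m, 1 ≤ P.natDegree := fun P hP => (mem_PU.1 hP).2.1.natDegree_pos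
  obtain ⟨U, V, hUV1, hUV2, hU1, hV1, hU2, hV2⟩ := hA K[X] (PU K m) (fun P => P.natDegree) (w h) m
    (fun P hP => ⟨hdeg P hP, (mem_PU.1 hP).2.2⟩)
    (fun P hP => ⟨w_nonneg h (hdeg P hP), w_le h (hdeg P hP) (hne P hP)
      (Om_card_le' _ (mem_PU.1 hP).1)⟩)
    (fun y => (dyadic (κ := 2 * (k : ℝ)) (by positivity) (w h)
      (fun P hP => ⟨(mem_PU.1 hP).1, (mem_PU.1 hP).2.1⟩)
      (fun P hP => w_le' h (hdeg P hP)) y).trans (by linarith))
  have hUs : ∀ T, U T ≠ 0 → T ⊆ PU K m ∧ ∑ P ∈ T, P.natDegree ≤ A * m :=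
    fun T hT => hUV2 T (Or.inl hT)
  have hVs : ∀ T, V T ≠ 0 → T ⊆ PU K m ∧ ∑ P ∈ T, P.natDegree ≤ A * m :=
    fun T hT => hUV2 T (Or.inr hT)
  have hvp : ∏ P ∈ PU K m, (1 - w h P) = vp m h := by
    unfold vp
    refine Finset.prod_congr rfl fun P _ => ?_
    unfold w
    ring
  have hmain : ∀ X : Finset K[X] → ℝ,
      (∀ T, X T ≠ 0 → T ⊆ PU K m ∧ ∑ P ∈ T, P.natDegree ≤ A * m) →
      ∑ E ∈ SqM K (A * m), lam m X E * ∏ P ∈ (PU K m).filter (fun P => P ∣ E),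
            (1 - lf (Fin.cons 0 h : Fin (k + 1) → K[X]) P /
              (1 - 1 / (Fintype.card K : ℝ) ^ P.natDegree)) =
        ∑ T ∈ (PU K m).powerset, X T * ∏ P ∈ T, w h P := by
    intro X hX
    have h1 := sum_lam hX (fun _ => True) (fun T => ∏ P ∈ T, w h P)
    simp only [Finset.filter_true] at h1
    exact h1
  refine ⟨lam m U, lam m V, lam_bdd fun T => (hUV1 T).1, lam_bdd fun T => (hUV1 T).2, ?_, ?_, ?_, ?_⟩
  · rintro E (hE | hE) P hP hd
    · exact lam_supp hE P hP hd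
    · exact lam_supp hE P hP hd
  · intro f
    rw [Wt_lam h hUs, Wt_lam h hVs]
    have h1 := hU1 _ (Finset.filter_subset (fun P => P ∣ Hh h f) (PU K m))
    have h2 := hV1 _ (Finset.filter_subset (fun P => P ∣ Hh h f) (PU K m))
    by_cases h3 : Sif h m f
    · rw [if_pos ((Sif_iff h f).1 h3)] at h1 h2
      rw [if_pos h3]
      exact ⟨h1, h2⟩
    · rw [if_neg fun h4 => h3 ((Sif_iff h f).2 h4)] at h1 h2
      rw [if_neg h3]
      exact ⟨h1, h2⟩
  · rw [hmain U hUs, ← hvp]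
    exact hU2
  · rw [hmain V hVs, ← hvp]
    exact hV2

end Pool.Agent.H985.CH
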