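import Pool.Agent.H985.CH.Stm
import Pool.Agent.H251.SP.FEW

set_option autoImplicit false

/-!
Task FEWS of the project CH (helper985), proved by helper333; compare `Pool/Agent/H251/SP/FEW.lean`
(helper166).
-/

namespace Pool.Agent.H985.CH

namespace Fews

open Polynomial Finset
open scoped Classical
open Pool.Agent.H985.KP (PA)
open Pool.Agent.H694.Typ (Mn Irn PU mem_Mn mem_Irn irn_one_le q_ge coprime_of_ne sq_bound)
open Pool.Agent.H251.SP (Rgh)
open Pool.Agent.H251.SP.FewN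

variable {K : Type} [Field K]

theorem rgh_mul {k : ℕ} {f g : K[X]} (hf : Rgh k f) (hg : Rgh k g) : Rgh k (f * g) := by
  intro P hP hP' hd
  rcases hP'.prime.dvd_or_dvd hd with h | h
  · exact hf P hP hP' h
  · exact hg P hP hP' h

theorem rgh_irr {k : ℕ} {f : K[X]} (hf : f.Monic) (hf' : Irreducible f) (hk : k ≤ f.natDegree) :
    Rgh k f := by
  intro P hP hP' hd
  have : P = f := eq_of_monic_of_associated hP hf (hP'.associated_of_dvd hf' hd)
  rw [this]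
  exact hk

variable [Fintype K]

/-- the sieve bound as an abstract hypothesis -/
def Up (n m : ℕ) (V : ℝ) (Sf : K[X] → Prop) : Prop :=
  ∀ (N : ℕ) (D : K[X]), n ≤ 5 * N → N ≤ n → D.Monic → Rgh (m + 1) D →
    (((Irn K N).filter (fun p => Sf (D * p))).card : ℝ) ≤ V * (Fintype.card K : ℝ) ^ N / N

theorem prod_card {n m N : ℕ} {V : ℝ} {Sf : K[X] → Prop} (hU : Up n m V Sf) (h1 : n ≤ 5 * N)
    (h2 : N ≤ n) (S : Finset K[X]) (hS : ∀ D ∈ S, D.Monic ∧ Rgh (m + 1) D) :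
    (((S ×ˢ Irn K N).filter (fun x => Sf (x.1 * x.2))).card : ℝ) ≤
      S.card * (V * (Fintype.card K : ℝ) ^ N / N) := by
  have e : ((S ×ˢ Irn K N).filter (fun x => Sf (x.1 * x.2))).card =
      ∑ D ∈ S, ((Irn K N).filter (fun p => Sf (D * p))).card := by
    rw [card_filter, sum_product]
    exact sum_congr rfl fun D _ => (card_filter _ _).symm
  rw [e]
  push_cast
  calc (∑ D ∈ S, (((Irn K N).filter (fun p => Sf (D * p))).card : ℝ)) ≤
      ∑ D ∈ S, (V * (Fintype.card K : ℝ) ^ N / N) :=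
        sum_le_sum fun D hD => hU N D h1 h2 (hS D hD).1 (hS D hD).2
    _ = _ := by rw [sum_const, nsmul_eq_mul]

/-- exactly four prime factors -/
theorem b_card {n m k : ℕ} {V : ℝ} {Sf : K[X] → Prop} (hV : 0 ≤ V) (hU : Up n m V Sf)
    (hk : 1 ≤ k) (hmk : m + 1 ≤ k) (h5 : n < 5 * k) :
    (((Mn K n).filter (fun f => Rgh k f ∧ (PA f).ncard = 4 ∧ Sf f)).card : ℝ) ≤
      ((n + 1 - 4 * k : ℕ) : ℝ) ^ 3 * (V * (Fintype.card K : ℝ) ^ n / (k : ℝ) ^ 4) := by
  have hq := q_ge (k := K)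
  have hk' : (1 : ℝ) ≤ k := by exact_mod_cast hk
  set T := ((Icc k (n - 3 * k)) ×ˢ (Icc k (n - 3 * k)) ×ˢ (Icc k (n - 3 * k))).filter
    (fun d => d.1 + d.2.1 + d.2.2 + k ≤ n) with hT
  set S : ℕ × ℕ × ℕ → Finset K[X] := fun d =>
    (Irn K d.1 ×ˢ Irn K d.2.1 ×ˢ Irn K d.2.2).image (fun x => x.1 * x.2.1 * x.2.2) with hS
  have hsub : (Mn K n).filter (fun f => Rgh k f ∧ (PA f).ncard = 4 ∧ Sf f) ⊆
      T.biUnion (fun d => (((S d) ×ˢ Irn K (n - d.1 - d.2.1 - d.2.2)).filter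
        (fun x => Sf (x.1 * x.2))).image (fun x => x.1 * x.2)) := by
    intro f hf
    rw [mem_filter] at hf
    obtain ⟨P1, P2, P3, P4, a1, a1', a2, a2', a3, a3', a4, a4', k1, k2, k3, k4, hf4, hdeg⟩ :=
      four hf.1 hf.2.1 h5 hf.2.2.1
    rw [mem_biUnion]
    refine ⟨(P1.natDegree, P2.natDegree, P3.natDegree), ?_, ?_⟩
    · rw [hT, mem_filter, mem_product, mem_product, mem_Icc, mem_Icc, mem_Icc]
      refine ⟨⟨⟨k1, ?_⟩, ⟨k2, ?_⟩, k3, ?_⟩, ?_⟩
      · show P1.natDegree ≤ n - 3 * k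
        omega
      · show P2.natDegree ≤ n - 3 * k
        omega
      · show P3.natDegree ≤ n - 3 * k
        omega
      · show P1.natDegree + P2.natDegree + P3.natDegree + k ≤ n
        omega
    · rw [mem_image]
      refine ⟨(P1 * P2 * P3, P4), ?_, hf4.symm⟩
      rw [mem_filter, mem_product]
      refine ⟨⟨?_, ?_⟩, ?_⟩
      · refine mem_image.2 ⟨(P1, P2, P3), ?_, rfl⟩
        rw [mem_product, mem_product, mem_Irn, mem_Irn, mem_Irn]
        exact ⟨⟨a1, rfl, a1'⟩, ⟨a2, rfl, a2'⟩, a3, rfl, a3'⟩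
      · rw [mem_Irn]
        refine ⟨a4, ?_, a4'⟩
        show P4.natDegree = n - P1.natDegree - P2.natDegree - P3.natDegree
        omega
      · show Sf (P1 * P2 * P3 * P4)
        rw [← hf4]
        exact hf.2.2.2
  have h1 := (card_le_card hsub).trans card_biUnion_le
  have h2 : (((Mn K n).filter (fun f => Rgh k f ∧ (PA f).ncard = 4 ∧ Sf f)).card : ℝ) ≤
      ∑ d ∈ T, ((((S d) ×ˢ Irn K (n - d.1 - d.2.1 - d.2.2)).filter
        (fun x => Sf (x.1 * x.2))).card : ℝ) := by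
    refine (by exact_mod_cast h1 : _ ≤ ∑ d ∈ T, (((((S d) ×ˢ
      Irn K (n - d.1 - d.2.1 - d.2.2)).filter (fun x => Sf (x.1 * x.2))).image
      (fun x => x.1 * x.2)).card : ℝ)).trans ?_
    refine sum_le_sum fun d _ => ?_
    exact_mod_cast card_image_le
  have h3 : ∀ d ∈ T, ((((S d) ×ˢ Irn K (n - d.1 - d.2.1 - d.2.2)).filter
      (fun x => Sf (x.1 * x.2))).card : ℝ) ≤ V * (Fintype.card K : ℝ) ^ n / (k : ℝ) ^ 4 := by
    intro d hd
    rw [hT, mem_filter, mem_product, mem_product, mem_Icc, mem_Icc, mem_Icc] at hd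
    obtain ⟨⟨⟨b1, _⟩, ⟨b2, _⟩, b3, _⟩, b4⟩ := hd
    have hN : k ≤ n - d.1 - d.2.1 - d.2.2 := by omega
    have hp := prod_card hU (N := n - d.1 - d.2.1 - d.2.2) (by omega) (by omega) (S d) (by
      intro D hD
      obtain ⟨x, hx, rfl⟩ := mem_image.1 hD
      rw [mem_product, mem_product, mem_Irn, mem_Irn, mem_Irn] at hx
      obtain ⟨⟨c1, c1', c1''⟩, ⟨c2, c2', c2''⟩, c3, c3', c3''⟩ := hx
      refine ⟨(c1.mul c2).mul c3, rgh_mul (rgh_mul (rgh_irr c1 c1'' ?_) (rgh_irr c2 c2'' ?_))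
        (rgh_irr c3 c3'' ?_)⟩ <;> omega)
    have e1 := irn_real (K := K) hk b1
    have e2 := irn_real (K := K) hk b2
    have e3 := irn_real (K := K) hk b3
    have e4 : ((S d).card : ℝ) ≤ ((Fintype.card K : ℝ) ^ d.1 / k) *
        (((Fintype.card K : ℝ) ^ d.2.1 / k) * ((Fintype.card K : ℝ) ^ d.2.2 / k)) := by
      have e5 : (S d).card ≤ (Irn K d.1).card * ((Irn K d.2.1).card * (Irn K d.2.2).card) := by
        refine card_image_le.trans ?_
        rw [card_product, card_product]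
      have e6 : ((S d).card : ℝ) ≤ ((Irn K d.1).card : ℝ) *
          (((Irn K d.2.1).card : ℝ) * ((Irn K d.2.2).card : ℝ)) := by exact_mod_cast e5
      refine e6.trans ?_
      gcongr
    have e7 : V * (Fintype.card K : ℝ) ^ (n - d.1 - d.2.1 - d.2.2) /
        ((n - d.1 - d.2.1 - d.2.2 : ℕ) : ℝ) ≤
        V * (Fintype.card K : ℝ) ^ (n - d.1 - d.2.1 - d.2.2) / (k : ℝ) := by
      have : (k : ℝ) ≤ ((n - d.1 - d.2.1 - d.2.2 : ℕ) : ℝ) := by exact_mod_cast hN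
      gcongr
    refine hp.trans ?_
    calc ((S d).card : ℝ) * (V * (Fintype.card K : ℝ) ^ (n - d.1 - d.2.1 - d.2.2) /
        ((n - d.1 - d.2.1 - d.2.2 : ℕ) : ℝ)) ≤
        (((Fintype.card K : ℝ) ^ d.1 / k) *
        (((Fintype.card K : ℝ) ^ d.2.1 / k) * ((Fintype.card K : ℝ) ^ d.2.2 / k))) *
        (V * (Fintype.card K : ℝ) ^ (n - d.1 - d.2.1 - d.2.2) / (k : ℝ)) := by
          refine mul_le_mul e4 e7 (by positivity) (by positivity)
      _ = V * (Fintype.card K : ℝ) ^ (d.1 + d.2.1 + d.2.2 + (n - d.1 - d.2.1 - d.2.2)) /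
          (k : ℝ) ^ 4 := by
          rw [pow_add, pow_add, pow_add]
          ring
      _ = _ := by
          rw [show d.1 + d.2.1 + d.2.2 + (n - d.1 - d.2.1 - d.2.2) = n by omega]
  have h4 := sum_le_sum h3
  rw [sum_const, nsmul_eq_mul] at h4
  have h6 : (T.card : ℝ) ≤ ((n + 1 - 4 * k : ℕ) : ℝ) ^ 3 := by
    have : T.card ≤ (n + 1 - 4 * k) ^ 3 := by
      refine (card_filter_le _ _).trans ?_
      rw [card_product, card_product, Nat.card_Icc]
      have e : n - 3 * k + 1 - k ≤ n + 1 - 4 * k := by omega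
      calc (n - 3 * k + 1 - k) * ((n - 3 * k + 1 - k) * (n - 3 * k + 1 - k)) ≤
          (n + 1 - 4 * k) * ((n + 1 - 4 * k) * (n + 1 - 4 * k)) := by gcongr
        _ = _ := by ring
    exact_mod_cast this
  refine h2.trans (h4.trans ?_)
  gcongr

/-- the products of a polynomial of `S` and a polynomial without small prime factors -/
theorem c_one {n m k d : ℕ} {V : ℝ} {Sf : K[X] → Prop} (hV : 0 ≤ V) (hU : Up n m V Sf)
    (hk : 1 ≤ k) (hmk : m + 1 ≤ k) (h5 : n < 5 * k) (hd : k ≤ d) (hdn : d ≤ n) (h3 : d < 3 * k)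
    (S : Finset K[X]) (hS : ∀ D ∈ S, D.Monic ∧ Rgh k D) :
    (((S ×ˢ Ro K k d).filter (fun x => Sf (x.1 * x.2))).image (fun x => x.1 * x.2)).card ≤
      (S.card : ℝ) * (V * (Fintype.card K : ℝ) ^ d * (1 / k + (d + 1) / (k : ℝ) ^ 2)) := by
  have hq := q_ge (k := K)
  have hk' : (1 : ℝ) ≤ k := by exact_mod_cast hk
  have hS' : ∀ D ∈ S, D.Monic ∧ Rgh (m + 1) D := fun D hD => ⟨(hS D hD).1, rgh_mono (hS D hD).2 hmk⟩
  set W : ℕ → Finset K[X] := fun i => (S ×ˢ Irn K i).image (fun x => x.1 * x.2) with hW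
  have hsub : ((S ×ˢ Ro K k d).filter (fun x => Sf (x.1 * x.2))).image (fun x => x.1 * x.2) ⊆
      ((S ×ˢ Irn K d).filter (fun x => Sf (x.1 * x.2))).image (fun x => x.1 * x.2) ∪
      (Icc k (d - k)).biUnion (fun i => ((W i ×ˢ Irn K (d - i)).filter
        (fun x => Sf (x.1 * x.2))).image (fun x => x.1 * x.2)) := by
    intro f hf
    obtain ⟨⟨D, E⟩, hx, rfl⟩ := mem_image.1 hf
    rw [mem_filter, mem_product] at hx
    obtain ⟨⟨hD, hE⟩, hSf⟩ := hx
    have hE' := ro_sub (K := K) (by omega) h3 hE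
    rw [mem_union] at hE' ⊢
    rcases hE' with hE' | hE'
    · left
      exact mem_image.2 ⟨(D, E), mem_filter.2 ⟨mem_product.2 ⟨hD, hE'⟩, hSf⟩, rfl⟩
    · right
      rw [mem_biUnion] at hE' ⊢
      obtain ⟨i, hi, hE'⟩ := hE'
      obtain ⟨⟨P, P2⟩, hP, hPE⟩ := mem_image.1 hE'
      rw [mem_product] at hP
      have hPE' : P * P2 = E := hPE
      have e : D * P * P2 = D * E := by
        rw [← hPE']
        ring
      refine ⟨i, hi, mem_image.2 ⟨(D * P, P2), mem_filter.2 ⟨mem_product.2 ⟨?_, hP.2⟩, ?_⟩, e⟩⟩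
      · exact mem_image.2 ⟨(D, P), mem_product.2 ⟨hD, hP.1⟩, rfl⟩
      · show Sf (D * P * P2)
        rw [e]
        exact hSf
  have h1 := (card_le_card hsub).trans ((card_union_le _ _).trans
    (add_le_add card_image_le (card_biUnion_le.trans (sum_le_sum fun i _ => card_image_le))))
  have h2 : ((((S ×ˢ Ro K k d).filter (fun x => Sf (x.1 * x.2))).image
      (fun x => x.1 * x.2)).card : ℝ) ≤
      (((S ×ˢ Irn K d).filter (fun x => Sf (x.1 * x.2))).card : ℝ) +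
      ∑ i ∈ Icc k (d - k), (((W i ×ˢ Irn K (d - i)).filter (fun x => Sf (x.1 * x.2))).card : ℝ) := by
    exact_mod_cast h1
  have hdk : (k : ℝ) ≤ d := by exact_mod_cast hd
  have a1 : (((S ×ˢ Irn K d).filter (fun x => Sf (x.1 * x.2))).card : ℝ) ≤
      (S.card : ℝ) * (V * (Fintype.card K : ℝ) ^ d / k) := by
    refine (prod_card hU (N := d) (by omega) hdn S hS').trans ?_
    gcongr
  have a2 : ∀ i ∈ Icc k (d - k), (((W i ×ˢ Irn K (d - i)).filter
      (fun x => Sf (x.1 * x.2))).card : ℝ) ≤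
      (S.card : ℝ) * (V * (Fintype.card K : ℝ) ^ d / (k : ℝ) ^ 2) := by
    intro i hi
    rw [mem_Icc] at hi
    have hki : k ≤ d - i := by omega
    have hp := prod_card hU (N := d - i) (by omega) (by omega) (W i) (by
      intro D hD
      obtain ⟨x, hx, rfl⟩ := mem_image.1 hD
      rw [mem_product, mem_Irn] at hx
      obtain ⟨c1, c2, c2', c2''⟩ := hx
      exact ⟨(hS' _ c1).1.mul c2, rgh_mul (hS' _ c1).2 (rgh_irr c2 c2'' (by omega))⟩)
    have e1 := irn_real (K := K) hk hi.1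
    have e4 : ((W i).card : ℝ) ≤ (S.card : ℝ) * ((Fintype.card K : ℝ) ^ i / k) := by
      have e5 : (W i).card ≤ S.card * (Irn K i).card := by
        refine card_image_le.trans ?_
        rw [card_product]
      have e6 : ((W i).card : ℝ) ≤ (S.card : ℝ) * ((Irn K i).card : ℝ) := by exact_mod_cast e5
      refine e6.trans ?_
      gcongr
    have e7 : V * (Fintype.card K : ℝ) ^ (d - i) / ((d - i : ℕ) : ℝ) ≤
        V * (Fintype.card K : ℝ) ^ (d - i) / (k : ℝ) := by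
      have : (k : ℝ) ≤ ((d - i : ℕ) : ℝ) := by exact_mod_cast hki
      gcongr
    refine hp.trans ?_
    calc ((W i).card : ℝ) * (V * (Fintype.card K : ℝ) ^ (d - i) / ((d - i : ℕ) : ℝ)) ≤
        ((S.card : ℝ) * ((Fintype.card K : ℝ) ^ i / k)) *
          (V * (Fintype.card K : ℝ) ^ (d - i) / (k : ℝ)) :=
          mul_le_mul e4 e7 (by positivity) (by positivity)
      _ = (S.card : ℝ) * (V * (Fintype.card K : ℝ) ^ (i + (d - i)) / (k : ℝ) ^ 2) := by
          rw [pow_add]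
          ring
      _ = _ := by rw [Nat.add_sub_cancel' (by omega)]
  have a3 := sum_le_sum a2
  rw [sum_const, nsmul_eq_mul] at a3
  have h6 : ((Icc k (d - k)).card : ℝ) ≤ d + 1 := by
    rw [Nat.card_Icc]
    have : d - k + 1 - k ≤ d + 1 := by omega
    exact_mod_cast this
  have a4 : ((Icc k (d - k)).card : ℝ) *
      ((S.card : ℝ) * (V * (Fintype.card K : ℝ) ^ d / (k : ℝ) ^ 2)) ≤
      ((d : ℝ) + 1) * ((S.card : ℝ) * (V * (Fintype.card K : ℝ) ^ d / (k : ℝ) ^ 2)) := by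
    gcongr
  calc _ ≤ _ := h2
    _ ≤ (S.card : ℝ) * (V * (Fintype.card K : ℝ) ^ d / k) +
        ((d : ℝ) + 1) * ((S.card : ℝ) * (V * (Fintype.card K : ℝ) ^ d / (k : ℝ) ^ 2)) :=
        add_le_add a1 (a3.trans a4)
    _ = _ := by ring

theorem num_key {n k d : ℕ} (hn : 100 ≤ n) (hk : (24 / 100 : ℝ) * n ≤ k)
    (hd2 : (d : ℝ) ≤ (55 / 100 : ℝ) * n) : 1 / (k : ℝ) + (d + 1) / (k : ℝ) ^ 2 ≤ 14 / n := by
  have hn' : (100 : ℝ) ≤ n := by exact_mod_cast hn
  have a1 : 1 / (k : ℝ) ≤ 1 / (24 / 100 * n) := by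
    apply one_div_le_one_div_of_le <;> linarith
  have a2 : ((d : ℝ) + 1) / (k : ℝ) ^ 2 ≤ (56 / 100 * n) / (24 / 100 * n) ^ 2 := by
    gcongr
    linarith
  refine (add_le_add a1 a2).trans ?_
  have hn0 : (0 : ℝ) < n := by linarith
  have : 1 / (24 / 100 * (n : ℝ)) + (56 / 100 * n) / (24 / 100 * n) ^ 2 =
      (100 / 24 + 56 / 100 * (100 / 24) ^ 2) / n := by
    field_simp
  rw [this]
  gcongr
  norm_num

/-- a divisor in the middle -/
theorem c_card {n m k : ℕ} {V : ℝ} {Sf : K[X] → Prop} (hV : 0 ≤ V) (hU : Up n m V Sf) {δ : ℝ}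
    (hδ : 0 < δ) (hδ1 : δ ≤ 1 / 10) (hn : 100 ≤ n) (hmk : m + 1 ≤ k)
    (hk : (24 / 100 : ℝ) * n ≤ k) (hk2 : (k : ℝ) ≤ (45 / 100 : ℝ) * n) :
    (((Mn K n).filter (fun f => Rgh k f ∧ (∃ D : K[X], D.Monic ∧ D ∣ f ∧
      |2 * (D.natDegree : ℝ) - n| ≤ δ * n) ∧ Sf f)).card : ℝ) ≤
      (δ * n + 1) * (200 * V * (Fintype.card K : ℝ) ^ n / (n : ℝ) ^ 2) := by
  have hq := q_ge (k := K)
  have hn' : (100 : ℝ) ≤ n := by exact_mod_cast hn
  have hn0 : (0 : ℝ) < n := by linarith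
  have hk1 : 1 ≤ k := by omega
  have h5 : n < 5 * k := by
    have : (n : ℝ) < 5 * k := by linarith
    exact_mod_cast this
  set Ds := (range (n + 1)).filter (fun d : ℕ => |2 * (d : ℝ) - n| ≤ δ * n) with hDs
  have hmem : ∀ d ∈ Ds, d ≤ n ∧ (45 / 100 : ℝ) * n ≤ d ∧ (d : ℝ) ≤ (55 / 100 : ℝ) * n := by
    intro d hd
    rw [hDs, mem_filter, mem_range, abs_le] at hd
    obtain ⟨h1, h2, h3⟩ := hd
    have : δ * n ≤ 1 / 10 * n := by gcongr
    refine ⟨by omega, by linarith, by linarith⟩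
  have hsub : (Mn K n).filter (fun f => Rgh k f ∧ (∃ D : K[X], D.Monic ∧ D ∣ f ∧
      |2 * (D.natDegree : ℝ) - n| ≤ δ * n) ∧ Sf f) ⊆
      Ds.biUnion (fun d => ((Ro K k d ×ˢ Ro K k (n - d)).filter
        (fun x => Sf (x.1 * x.2))).image (fun x => x.1 * x.2)) := by
    intro f hf
    rw [mem_filter, mem_Mn] at hf
    obtain ⟨⟨hm, hdeg⟩, hr, ⟨D, hD, ⟨E, hE⟩, habs⟩, hSf⟩ := hf
    have hEm : E.Monic := by
      rw [hE] at hm
      exact hD.of_mul_monic_left hm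
    have hdE : D.natDegree + E.natDegree = n := by
      rw [← hdeg, hE, hD.natDegree_mul hEm]
    rw [mem_biUnion]
    refine ⟨D.natDegree, ?_, ?_⟩
    · rw [hDs, mem_filter, mem_range]
      exact ⟨by omega, habs⟩
    · rw [mem_image]
      refine ⟨(D, E), ?_, hE.symm⟩
      rw [mem_filter, mem_product]
      refine ⟨?_, by show Sf (D * E); rw [← hE]; exact hSf⟩
      unfold Ro
      rw [mem_filter, mem_filter, mem_Mn, mem_Mn]
      exact ⟨⟨⟨hD, rfl⟩, rgh_dvd hr ⟨E, hE⟩⟩, ⟨hEm, by show E.natDegree = n - D.natDegree; omega⟩,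
        rgh_dvd hr ⟨D, by rw [hE, mul_comm]⟩⟩
  have h1 := (card_le_card hsub).trans card_biUnion_le
  have h2 : (((Mn K n).filter (fun f => Rgh k f ∧ (∃ D : K[X], D.Monic ∧ D ∣ f ∧
      |2 * (D.natDegree : ℝ) - n| ≤ δ * n) ∧ Sf f)).card : ℝ) ≤
      ∑ d ∈ Ds, ((((Ro K k d ×ˢ Ro K k (n - d)).filter
        (fun x => Sf (x.1 * x.2))).image (fun x => x.1 * x.2)).card : ℝ) := by
    exact_mod_cast h1
  have h3 : ∀ d ∈ Ds, ((((Ro K k d ×ˢ Ro K k (n - d)).filter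
        (fun x => Sf (x.1 * x.2))).image (fun x => x.1 * x.2)).card : ℝ) ≤
      200 * V * (Fintype.card K : ℝ) ^ n / (n : ℝ) ^ 2 := by
    intro d hd
    obtain ⟨b1, b2, b3⟩ := hmem d hd
    have hnd : ((n - d : ℕ) : ℝ) = n - d := Nat.cast_sub b1
    have hkd : k ≤ d := by
      have : (k : ℝ) ≤ d := by linarith
      exact_mod_cast this
    have hd3 : d < 3 * k := by
      have : (d : ℝ) < 3 * k := by linarith
      exact_mod_cast this
    have hkd' : k ≤ n - d := by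
      have : (k : ℝ) ≤ ((n - d : ℕ) : ℝ) := by rw [hnd]; linarith
      exact_mod_cast this
    have hd3' : n - d < 3 * k := by
      have : ((n - d : ℕ) : ℝ) < 3 * k := by rw [hnd]; linarith
      exact_mod_cast this
    have c0 := c_one hV hU hk1 hmk h5 hkd' (by omega) hd3' (Ro K k d) (by
      intro D hD
      unfold Ro at hD
      rw [mem_filter, mem_Mn] at hD
      exact ⟨hD.1.1, hD.2⟩)
    have c1 := (ro_card (K := K) hk1 hkd hd3).trans (mul_le_mul_of_nonneg_left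
      (num_key hn hk b3) (by positivity))
    have c2 := num_key (n := n) (k := k) (d := n - d) hn hk (by rw [hnd]; linarith)
    refine c0.trans ?_
    calc ((Ro K k d).card : ℝ) * (V * (Fintype.card K : ℝ) ^ (n - d) *
        (1 / k + (((n - d : ℕ) : ℝ) + 1) / (k : ℝ) ^ 2)) ≤
        ((Fintype.card K : ℝ) ^ d * (14 / n)) * (V * (Fintype.card K : ℝ) ^ (n - d) * (14 / n)) := by
          refine mul_le_mul c1 (mul_le_mul_of_nonneg_left c2 (by positivity)) (by positivity)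
            (by positivity)
      _ = V * (Fintype.card K : ℝ) ^ (d + (n - d)) * (196 / (n : ℝ) ^ 2) := by rw [pow_add]; ring
      _ = V * (Fintype.card K : ℝ) ^ n * (196 / (n : ℝ) ^ 2) := by rw [Nat.add_sub_cancel' b1]
      _ = 196 * V * (Fintype.card K : ℝ) ^ n / (n : ℝ) ^ 2 := by ring
      _ ≤ _ := by gcongr; norm_num
  have h4 := sum_le_sum h3
  rw [sum_const, nsmul_eq_mul] at h4
  have h5 : (Ds.card : ℝ) ≤ δ * n + 1 := by
    have hs : Ds ⊆ Icc ⌈(1 - δ) * n / 2⌉₊ ⌊(1 + δ) * n / 2⌋₊ := by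
      intro d hd
      rw [hDs, mem_filter, mem_range, abs_le] at hd
      rw [mem_Icc, Nat.ceil_le, Nat.le_floor_iff (by positivity)]
      constructor <;> linarith [hd.2.1, hd.2.2]
    have := (Nat.cast_le (α := ℝ)).2 (card_le_card hs)
    refine this.trans ((icc_card _ _ ?_ ?_).trans ?_)
    · have : 0 ≤ δ * n := by positivity
      linarith
    · positivity
    · linarith
  refine h2.trans (h4.trans ?_)
  gcongr

end Fews

open Polynomial Finset
open scoped Classical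
open Pool.Agent.H985.KP (PA)
open Pool.Agent.H694.Typ (Mn Irn PU mem_Mn mem_Irn irn_one_le q_ge coprime_of_ne sq_bound)
open Pool.Agent.H251.SP (Rgh)
open Pool.Agent.H251.SP.FewN

theorem fews (hv : S_vpl) (hp : S_prsw) : S_fews := by
  intro K _ _ _ k
  obtain ⟨c, hc, hvp⟩ := hv K k
  refine ⟨80000, by norm_num, ?_⟩
  intro ε δ hε hε1 hδ hδ1
  have hq := q_ge (k := K)
  obtain ⟨A, κ, hκ, n₁, hprs⟩ := hp K k 1 one_pos
  -- the choice of n₀
  have ht : Filter.Tendsto (fun m : ℕ => (m : ℝ) ^ (k + 1) * (1 / 2 : ℝ) ^ m) Filter.atTop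
      (nhds 0) := tendsto_pow_const_mul_const_pow_of_lt_one (k + 1) (by norm_num) (by norm_num)
  have hev := (ht.eventually (ge_mem_nhds (show (0 : ℝ) < ε ^ 3 * c / 5 ^ (k + 1) by positivity)))
  obtain ⟨m₀, hm₀⟩ := Filter.eventually_atTop.1 hev
  refine ⟨min κ (1 / 10), lt_min hκ (by norm_num),
    max (max (max 100 (5 * m₀)) (max (⌈1 / ε⌉₊) (⌈1 / δ⌉₊))) n₁, ?_⟩
  intro n hn k₁ m h hk hm1 hmκ hvp0
  have hn5 : n₁ ≤ n := (le_max_right _ _).trans hn
  replace hn := (le_max_left _ _).trans hn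
  have hn1 : 100 ≤ n := (le_max_left _ _).trans ((le_max_left _ _).trans hn)
  have hn2 : 5 * m₀ ≤ n := (le_max_right _ _).trans ((le_max_left _ _).trans hn)
  have hn3 : 1 / ε ≤ n := Nat.ceil_le.1 ((le_max_left _ _).trans ((le_max_right _ _).trans hn))
  have hn4 : 1 / δ ≤ n := Nat.ceil_le.1 ((le_max_right _ _).trans ((le_max_right _ _).trans hn))
  have hn' : (100 : ℝ) ≤ n := by exact_mod_cast hn1
  have hn0 : (0 : ℝ) < n := by linarith
  have hmκ1 : (m : ℝ) ≤ κ * n := hmκ.trans (mul_le_mul_of_nonneg_right (min_le_left _ _) hn0.le)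
  have hmκ2 : (m : ℝ) ≤ 1 / 10 * n :=
    hmκ.trans (mul_le_mul_of_nonneg_right (min_le_right _ _) hn0.le)
  -- the sieve bound
  obtain ⟨lamU, lamV, -, -, hind, hsum⟩ := hprs n hn5 m h hm1 hmκ1 hvp0
  have hU : Fews.Up n m (2 * vp m h) (Sif h m) := by
    intro N D h1 h2 hD hR
    have e := (hsum N D h1 h2 hD hR).1
    have e1 : (((Irn K N).filter (fun p => Sif h m (D * p))).card : ℝ) =
        ∑ p ∈ Irn K N, (if Sif h m (D * p) then (1 : ℝ) else 0) := by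
      rw [card_filter]
      push_cast
      rfl
    rw [e1]
    refine (sum_le_sum fun p _ => (hind (D * p)).1).trans (e.trans (le_of_eq ?_))
    ring
  have hV : 0 ≤ 2 * vp m h := by positivity
  set k₀ := ⌈(1 / 4 - ε) * n⌉₊ with hk₀
  have e1 : (1 / 4 - ε) * n ≤ k₀ := Nat.le_ceil _
  have e2 : (k₀ : ℝ) < (1 / 4 - ε) * n + 1 := by
    apply Nat.ceil_lt_add_one
    have : (0 : ℝ) ≤ 1 / 4 - ε := by linarith
    positivity
  have e3 : ε * n ≤ 1 / 100 * n := by gcongr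
  have e4 : 0 < ε * n := by positivity
  have e5 : (24 / 100 : ℝ) * n ≤ k₀ := by linarith
  have e6 : (k₀ : ℝ) ≤ 45 / 100 * n := by linarith
  have e7 : k₀ ≤ k₁ := by
    rw [hk₀, Nat.ceil_le]
    exact hk
  have hk1 : 1 ≤ k₀ := by
    have : (1 : ℝ) ≤ k₀ := by linarith
    exact_mod_cast this
  have hmk : m + 1 ≤ k₀ := by
    have : (m : ℝ) + 1 ≤ k₀ := by linarith
    exact_mod_cast this
  have h5 : n < 5 * k₀ := by
    have : (n : ℝ) < 5 * k₀ := by linarith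
    exact_mod_cast this
  have hsub : (Mn K n).filter (fun f => Rgh k₁ f ∧ Exc n δ f ∧ Sif h m f) ⊆
      ((Mn K n).filter (fun f => Rgh k₀ f ∧ ¬ Squarefree f)) ∪
      (((Mn K n).filter (fun f => Rgh k₀ f ∧ (PA f).ncard = 4 ∧ Sif h m f)) ∪
      ((Mn K n).filter (fun f => Rgh k₀ f ∧ (∃ D : K[X], D.Monic ∧ D ∣ f ∧
        |2 * (D.natDegree : ℝ) - n| ≤ δ * n) ∧ Sif h m f))) := by
    intro f hf
    rw [mem_filter] at hf
    rw [mem_union, mem_union, mem_filter, mem_filter, mem_filter]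
    obtain ⟨h1, h2, h3, h6⟩ := hf
    have h4 := rgh_mono h2 e7
    rcases h3 with h3 | h3 | h3
    · exact Or.inl ⟨h1, h4, h3⟩
    · exact Or.inr (Or.inl ⟨h1, h4, h3, h6⟩)
    · exact Or.inr (Or.inr ⟨h1, h4, h3, h6⟩)
  have hc1 := (card_le_card hsub).trans
    ((card_union_le _ _).trans (Nat.add_le_add_left (card_union_le _ _) _))
  have hc' := (Nat.cast_le (α := ℝ)).2 hc1
  push_cast at hc'
  -- the density is not too small
  have hvlow : c / (n : ℝ) ^ k ≤ vp m h := by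
    obtain ⟨-, v1, v2⟩ := hvp m h hm1
    have v3 : ∀ P ∈ PU K m, ∃ r : K[X], ¬ P ∣ r ∧ ∀ i, ¬ P ∣ r + h i := by
      by_contra hcon
      push Not at hcon
      obtain ⟨P, hP, hP'⟩ := hcon
      exact hvp0.ne' (v2 ⟨P, hP, hP'⟩)
    refine le_trans ?_ (v1 v3)
    have hm' : (1 : ℝ) ≤ m := by exact_mod_cast hm1
    have : (m : ℝ) ≤ n := by linarith
    gcongr
  have b1 : (((Mn K n).filter (fun f => Rgh k₀ f ∧ ¬ Squarefree f)).card : ℝ) ≤
      vp m h * (Fintype.card K : ℝ) ^ n * (ε ^ 3 / n) := by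
    refine ((Nat.cast_le (α := ℝ)).2 (card_le_card (s1_sub n k₀ hk1))).trans
      ((sq_bound n (k₀ - 1)).trans ?_)
    have hm1' : (n : ℝ) ≤ 5 * ((k₀ - 1 : ℕ) : ℝ) := by
      rw [Nat.cast_sub hk1]
      push_cast
      linarith
    have hm2 : m₀ ≤ k₀ - 1 := by
      have : (5 * m₀ : ℝ) ≤ 5 * ((k₀ - 1 : ℕ) : ℝ) := by
        have : ((5 * m₀ : ℕ) : ℝ) ≤ n := by exact_mod_cast hn2
        push_cast at this
        linarith
      have : (m₀ : ℝ) ≤ ((k₀ - 1 : ℕ) : ℝ) := by linarith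
      exact_mod_cast this
    have hm3 := hm₀ (k₀ - 1) hm2
    have hp0 : (0 : ℝ) ≤ (1 / 2 : ℝ) ^ (k₀ - 1) := by positivity
    have hm4 : (1 / 2 : ℝ) ^ (k₀ - 1) * (n : ℝ) ^ (k + 1) ≤ ε ^ 3 * c := by
      calc (1 / 2 : ℝ) ^ (k₀ - 1) * (n : ℝ) ^ (k + 1) ≤
          (1 / 2 : ℝ) ^ (k₀ - 1) * (5 * ((k₀ - 1 : ℕ) : ℝ)) ^ (k + 1) := by gcongr
        _ = 5 ^ (k + 1) * ((((k₀ - 1 : ℕ) : ℝ)) ^ (k + 1) * (1 / 2 : ℝ) ^ (k₀ - 1)) := by
            rw [mul_pow]
            ring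
        _ ≤ 5 ^ (k + 1) * (ε ^ 3 * c / 5 ^ (k + 1)) := by gcongr
        _ = ε ^ 3 * c := by field_simp
    have hm5 : (1 / 2 : ℝ) ^ (k₀ - 1) ≤ c / (n : ℝ) ^ k * (ε ^ 3 / n) := by
      have e8 : c / (n : ℝ) ^ k * (ε ^ 3 / n) = ε ^ 3 * c / (n : ℝ) ^ (k + 1) := by
        rw [pow_succ (n : ℝ) k, div_mul_div_comm, mul_comm c]
      rw [e8, le_div_iff₀ (by positivity)]
      exact hm4
    have hm6 : c / (n : ℝ) ^ k * (ε ^ 3 / n) ≤ vp m h * (ε ^ 3 / n) :=
      mul_le_mul_of_nonneg_right hvlow (by positivity)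
    calc (Fintype.card K : ℝ) ^ n * (1 / 2 : ℝ) ^ (k₀ - 1) ≤
        (Fintype.card K : ℝ) ^ n * (vp m h * (ε ^ 3 / n)) := by
          refine mul_le_mul_of_nonneg_left (hm5.trans hm6) (by positivity)
      _ = _ := by ring
  have b2 : (((Mn K n).filter (fun f => Rgh k₀ f ∧ (PA f).ncard = 4 ∧ Sif h m f)).card : ℝ) ≤
      vp m h * (Fintype.card K : ℝ) ^ n * (78000 * ε ^ 3 / n) := by
    refine (Fews.b_card hV hU hk1 hmk h5).trans ?_
    have c1 : ((n + 1 - 4 * k₀ : ℕ) : ℝ) ≤ 5 * (ε * n) := by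
      have hen : 1 ≤ ε * n := by
        rw [div_le_iff₀ hε] at hn3
        linarith
      rcases le_total (n + 1) (4 * k₀) with h | h
      · rw [Nat.sub_eq_zero_of_le h]
        push_cast
        linarith
      · rw [Nat.cast_sub h]
        push_cast
        linarith
    have hk0 : (0 : ℝ) < k₀ := by linarith
    calc ((n + 1 - 4 * k₀ : ℕ) : ℝ) ^ 3 *
        (2 * vp m h * (Fintype.card K : ℝ) ^ n / (k₀ : ℝ) ^ 4) ≤
        (5 * (ε * n)) ^ 3 *
          (2 * vp m h * (Fintype.card K : ℝ) ^ n / (24 / 100 * n : ℝ) ^ 4) := by gcongr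
      _ = vp m h * (Fintype.card K : ℝ) ^ n * ((250 * (100 / 24) ^ 4) * ε ^ 3 / n) := by
        field_simp
        norm_num
      _ ≤ _ := by
        gcongr
        norm_num
  have b3 := Fews.c_card hV hU hδ hδ1 hn1 hmk e5 e6
  have b4 : (δ * n + 1) * (200 * (2 * vp m h) * (Fintype.card K : ℝ) ^ n / (n : ℝ) ^ 2) ≤
      vp m h * (Fintype.card K : ℝ) ^ n * (800 * δ / n) := by
    have hen : 1 ≤ δ * n := by
      rw [div_le_iff₀ hδ] at hn4
      linarith
    calc (δ * n + 1) * (200 * (2 * vp m h) * (Fintype.card K : ℝ) ^ n / (n : ℝ) ^ 2) ≤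
        (δ * n + δ * n) * (200 * (2 * vp m h) * (Fintype.card K : ℝ) ^ n / (n : ℝ) ^ 2) := by
          gcongr
      _ = _ := by
        field_simp
        ring
  refine hc'.trans ((add_le_add b1 (add_le_add b2 (b3.trans b4))).trans ?_)
  have : vp m h * (Fintype.card K : ℝ) ^ n * (ε ^ 3 / n) +
      (vp m h * (Fintype.card K : ℝ) ^ n * (78000 * ε ^ 3 / n) +
      vp m h * (Fintype.card K : ℝ) ^ n * (800 * δ / n)) =
      (78001 * ε ^ 3 + 800 * δ) * (vp m h * (Fintype.card K : ℝ) ^ n / n) := by ring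
  rw [this]
  have hx : 0 ≤ ε ^ 3 := by positivity
  refine mul_le_mul_of_nonneg_right ?_ (by positivity)
  linarith

end Pool.Agent.H985.CH
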