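import Pool.Agent.H985.CH.Stm
import Pool.Agent.H251.SP.Tail

/-!
# Task TAILW: large divisors composed of small primes are rare, weighted version

Rankin's method, as in the task TAIL of the project SP (helper588), with the weight
`3 ^ (number of prime factors)`.
-/

set_option autoImplicit false

namespace Pool.Agent.H985.CH

open Polynomial Finset
open scoped Classical
open Pool.Agent.H985.KP (PA)
open Pool.Agent.H694.Typ (Mn Irn mem_Mn mem_Irn card_Mn)
open Pool.Agent.H251.SP (Smo)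
open Pool.Agent.H251.SP.TailL (PZ mem_PZ eq_prod)

namespace TailW

/-- the number of the prime factors of a smooth polynomial -/
theorem ncard_PA {K : Type} [Field K] [Fintype K] {d : K[X]} {z : ℕ} (hz : Smo z d) :
    (PA d).ncard = ((PZ K z).filter (fun P => P ∣ d)).card := by
  have h : PA d = (((PZ K z).filter (fun P => P ∣ d) : Finset K[X]) : Set K[X]) := by
    ext P
    rw [Finset.mem_coe, mem_filter, mem_PZ]
    constructor
    · rintro ⟨h1, h2, h3⟩
      exact ⟨⟨h1, h2, hz P h1 h2 h3⟩, h3⟩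
    · rintro ⟨⟨h1, h2, -⟩, h3⟩
      exact ⟨h1, h2, h3⟩
  rw [h, Set.ncard_coe_finset]

/-- the generating function of the smooth squarefree polynomials -/
theorem gen {K : Type} [Field K] [Fintype K] (a n z : ℕ) (x : ℝ) (hx : 0 ≤ x) :
    ∑ i ∈ Icc a n, (∑ d ∈ (Mn K i).filter (fun d => Squarefree d ∧ Smo z d),
      (3 : ℝ) ^ (PA d).ncard) * x ^ i ≤ ∏ P ∈ PZ K z, (1 + 3 * x ^ P.natDegree) := by
  obtain ⟨B, hB⟩ : ∃ B : Finset K[X], B = (Icc a n).biUnion fun i =>
    (Mn K i).filter (fun d => Squarefree d ∧ Smo z d) := ⟨_, rfl⟩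
  have hdis : ((Icc a n : Finset ℕ) : Set ℕ).PairwiseDisjoint
      (fun i => (Mn K i).filter (fun d => Squarefree d ∧ Smo z d)) := by
    intro i _ j _ hij
    rw [Function.onFun, Finset.disjoint_left]
    intro d h1 h2
    rw [mem_filter, mem_Mn] at h1 h2
    exact hij (h1.1.2.symm.trans h2.1.2)
  have h1 : ∑ i ∈ Icc a n, (∑ d ∈ (Mn K i).filter (fun d => Squarefree d ∧ Smo z d),
      (3 : ℝ) ^ (PA d).ncard) * x ^ i = ∑ d ∈ B, (3 : ℝ) ^ (PA d).ncard * x ^ d.natDegree := by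
    rw [hB, Finset.sum_biUnion hdis]
    refine Finset.sum_congr rfl fun i _ => ?_
    rw [Finset.sum_mul]
    refine Finset.sum_congr rfl fun d hd => ?_
    rw [mem_filter, mem_Mn] at hd
    rw [hd.1.2]
  have hmem : ∀ d ∈ B, d.Monic ∧ Squarefree d ∧ Smo z d := by
    intro d hd
    rw [hB, mem_biUnion] at hd
    obtain ⟨i, _, hd⟩ := hd
    rw [mem_filter, mem_Mn] at hd
    exact ⟨hd.1.1, hd.2.1, hd.2.2⟩
  have h2 : ∀ d ∈ B, (3 : ℝ) ^ (PA d).ncard * x ^ d.natDegree =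
      ∏ P ∈ (PZ K z).filter (fun P => P ∣ d), (3 * x ^ P.natDegree) := by
    intro d hd
    obtain ⟨e1, e2, e3⟩ := hmem d hd
    rw [Finset.prod_mul_distrib, Finset.prod_const, ← ncard_PA e3, Finset.prod_pow_eq_pow_sum,
      ← natDegree_prod_of_monic _ (fun P => P)]
    · rw [eq_prod e1 e2 e3]
    · intro P hP
      rw [mem_filter, mem_PZ] at hP
      exact hP.1.1
  have hinj : Set.InjOn (fun d : K[X] => (PZ K z).filter (fun P => P ∣ d)) (B : Set K[X]) := by
    intro d hd d' hd' h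
    obtain ⟨e1, e2, e3⟩ := hmem d hd
    obtain ⟨f1, f2, f3⟩ := hmem d' hd'
    have h' : (PZ K z).filter (fun P => P ∣ d) = (PZ K z).filter (fun P => P ∣ d') := h
    rw [← eq_prod e1 e2 e3, ← eq_prod f1 f2 f3, h']
  rw [h1, Finset.sum_congr rfl h2, Finset.prod_one_add,
    ← Finset.sum_image (f := fun T : Finset K[X] => ∏ P ∈ T, (3 * x ^ P.natDegree)) hinj]
  refine Finset.sum_le_sum_of_subset_of_nonneg ?_ fun T _ _ => Finset.prod_nonneg fun P _ => by
    positivity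
  intro T hT
  rw [Finset.mem_image] at hT
  obtain ⟨d, _, rfl⟩ := hT
  exact Finset.mem_powerset.2 (Finset.filter_subset _ _)

/-- the Euler product -/
theorem euler {K : Type} [Field K] [Fintype K] (z : ℕ) (x c : ℝ) (hx : 0 ≤ x)
    (hc : ∀ j < z, ((Fintype.card K : ℝ) * x) ^ j ≤ c) :
    ∏ P ∈ PZ K z, (1 + 3 * x ^ P.natDegree) ≤ Real.exp (z * (3 * c)) := by
  have h1 : ∏ P ∈ PZ K z, (1 + 3 * x ^ P.natDegree) ≤
      ∏ P ∈ PZ K z, Real.exp (3 * x ^ P.natDegree) := by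
    refine Finset.prod_le_prod (fun P _ => by positivity) fun P _ => ?_
    rw [add_comm]
    exact Real.add_one_le_exp _
  rw [← Real.exp_sum] at h1
  refine h1.trans (Real.exp_le_exp.2 ?_)
  have hdis : ((Finset.range z : Finset ℕ) : Set ℕ).PairwiseDisjoint (fun j => Irn K j) := by
    intro i _ j _ hij
    rw [Function.onFun, Finset.disjoint_left]
    intro d h1 h2
    rw [mem_Irn] at h1 h2
    exact hij (h1.2.1.symm.trans h2.2.1)
  unfold PZ
  rw [Finset.sum_biUnion hdis]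
  calc ∑ j ∈ Finset.range z, ∑ P ∈ Irn K j, 3 * x ^ P.natDegree
      ≤ ∑ j ∈ Finset.range z, 3 * c := by
        refine Finset.sum_le_sum fun j hj => ?_
        have h2 : ∑ P ∈ Irn K j, 3 * x ^ P.natDegree = 3 * (((Irn K j).card : ℝ) * x ^ j) := by
          rw [← Finset.mul_sum]
          congr 1
          rw [← nsmul_eq_mul, ← Finset.sum_const]
          refine Finset.sum_congr rfl fun P hP => ?_
          rw [mem_Irn] at hP
          rw [hP.2.1]
        have h3 : ((Irn K j).card : ℝ) ≤ (Fintype.card K : ℝ) ^ j := by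
          have h4 : (Irn K j).card ≤ (Mn K j).card := Finset.card_filter_le _ _
          rw [card_Mn] at h4
          exact_mod_cast h4
        rw [h2]
        refine mul_le_mul_of_nonneg_left (le_trans ?_ (hc j (Finset.mem_range.1 hj))) (by norm_num)
        rw [mul_pow]
        exact mul_le_mul_of_nonneg_right h3 (by positivity)
    _ = z * (3 * c) := by rw [Finset.sum_const, Finset.card_range, nsmul_eq_mul]

/-- Rankin's bound -/
theorem rankin {K : Type} [Field K] [Fintype K] (a n z v : ℕ) (hv : 1 ≤ v) (hzv : z ≤ v) :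
    ∑ i ∈ Icc a n, (∑ d ∈ (Mn K i).filter (fun d => Squarefree d ∧ Smo z d),
      (3 : ℝ) ^ (PA d).ncard) / (Fintype.card K : ℝ) ^ i ≤
      Real.exp (z * (3 * Fintype.card K) - Real.log 2 * a / v) := by
  have hQ2 : (2 : ℝ) ≤ (Fintype.card K : ℝ) := by
    have : 2 ≤ Fintype.card K := Fintype.one_lt_card
    exact_mod_cast this
  obtain ⟨Q, hQ⟩ : ∃ Q : ℝ, Q = (Fintype.card K : ℝ) := ⟨_, rfl⟩
  rw [← hQ] at hQ2 ⊢
  have hQ0 : 0 < Q := by linarith
  have hv0 : (0 : ℝ) < v := by exact_mod_cast hv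
  obtain ⟨t, ht⟩ : ∃ t : ℝ, t = Q ^ (1 / (v : ℝ)) := ⟨_, rfl⟩
  have ht0 : 0 < t := by rw [ht]; positivity
  have ht1 : 1 ≤ t := by
    rw [ht]
    exact Real.one_le_rpow (by linarith) (by positivity)
  have htv : t ^ v = Q := by
    rw [ht, ← Real.rpow_natCast, ← Real.rpow_mul hQ0.le]
    rw [one_div, inv_mul_cancel₀ hv0.ne', Real.rpow_one]
  have hta : Real.exp (Real.log 2 * a / v) ≤ t ^ a := by
    have e1 : t ^ a = Real.exp (Real.log Q * (a / v)) := by
      rw [ht, ← Real.rpow_natCast, ← Real.rpow_mul hQ0.le, Real.rpow_def_of_pos hQ0]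
      congr 2
      ring
    rw [e1]
    refine Real.exp_le_exp.2 ?_
    rw [mul_div_assoc]
    exact mul_le_mul_of_nonneg_right (Real.log_le_log (by norm_num) hQ2) (by positivity)
  have h1 : ∑ i ∈ Icc a n, (∑ d ∈ (Mn K i).filter (fun d => Squarefree d ∧ Smo z d),
      (3 : ℝ) ^ (PA d).ncard) / Q ^ i ≤
      (1 / t ^ a) * ∑ i ∈ Icc a n,
        (∑ d ∈ (Mn K i).filter (fun d => Squarefree d ∧ Smo z d), (3 : ℝ) ^ (PA d).ncard) *
          (t / Q) ^ i := by
    rw [Finset.mul_sum]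
    refine Finset.sum_le_sum fun i hi => ?_
    have hai : a ≤ i := (Finset.mem_Icc.1 hi).1
    have e1 : 1 / Q ^ i ≤ 1 / t ^ a * (t / Q) ^ i := by
      rw [div_pow, div_mul_div_comm, one_mul, div_le_div_iff₀ (by positivity) (by positivity),
        one_mul]
      exact mul_le_mul_of_nonneg_right (pow_le_pow_right₀ ht1 hai) (by positivity)
    have hc0 : (0 : ℝ) ≤ ∑ d ∈ (Mn K i).filter (fun d => Squarefree d ∧ Smo z d),
        (3 : ℝ) ^ (PA d).ncard := Finset.sum_nonneg fun d _ => by positivity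
    calc (∑ d ∈ (Mn K i).filter (fun d => Squarefree d ∧ Smo z d), (3 : ℝ) ^ (PA d).ncard) / Q ^ i
        = (∑ d ∈ (Mn K i).filter (fun d => Squarefree d ∧ Smo z d), (3 : ℝ) ^ (PA d).ncard) *
            (1 / Q ^ i) := by ring
      _ ≤ (∑ d ∈ (Mn K i).filter (fun d => Squarefree d ∧ Smo z d), (3 : ℝ) ^ (PA d).ncard) *
          (1 / t ^ a * (t / Q) ^ i) := mul_le_mul_of_nonneg_left e1 hc0
      _ = _ := by ring
  have h2 := gen (K := K) a n z (t / Q) (by positivity)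
  have h3 := euler (K := K) z (t / Q) Q (by positivity) (by
    intro j hj
    rw [← hQ, mul_div_cancel₀ _ hQ0.ne']
    calc t ^ j ≤ t ^ v := pow_le_pow_right₀ ht1 (by omega)
      _ = Q := htv)
  refine h1.trans ((mul_le_mul_of_nonneg_left (h2.trans h3) (by positivity)).trans ?_)
  rw [Real.exp_sub, one_div, inv_mul_eq_div]
  exact div_le_div_of_nonneg_left (Real.exp_pos _).le (Real.exp_pos _) hta

end TailW

theorem tailw : S_tailw := by
  intro K _ _ A₀ η hη
  obtain ⟨Q, hQ⟩ : ∃ Q : ℝ, Q = (Fintype.card K : ℝ) := ⟨_, rfl⟩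
  have hQ2 : (2 : ℝ) ≤ Q := by
    have : 2 ≤ Fintype.card K := Fintype.one_lt_card
    rw [hQ]
    exact_mod_cast this
  obtain ⟨C, hC⟩ : ∃ C : ℝ, C = ((A₀ : ℝ) + (2 * A₀ + 1) * (3 * Q)) * (2 * A₀ + 1) := ⟨_, rfl⟩
  have hC0 : 0 < C := by
    rw [hC]
    positivity
  have hlog2 : 0 < Real.log 2 := Real.log_pos (by norm_num)
  have ho := (Real.isLittleO_pow_log_id_atTop (n := 2)).def (c := Real.log 2 * η / C) (by positivity)
  have ho' := (tendsto_natCast_atTop_atTop (R := ℝ)).eventually ho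
  obtain ⟨n₁, hn₁⟩ := Filter.eventually_atTop.1 ho'
  refine ⟨max n₁ 3, fun n hn z hz => ?_⟩
  have hn1 : n₁ ≤ n := le_trans (le_max_left _ _) hn
  have hn3 : 3 ≤ n := le_trans (le_max_right _ _) hn
  have hn0 : (0 : ℝ) < n := by
    have : 0 < n := by omega
    exact_mod_cast this
  obtain ⟨L, hL⟩ : ∃ L : ℝ, L = Real.log n := ⟨_, rfl⟩
  have hL1 : 1 ≤ L := by
    rw [hL, Real.le_log_iff_exp_le hn0]
    have h1 := Real.exp_one_lt_d9
    have h2 : (3 : ℝ) ≤ n := by exact_mod_cast hn3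
    linarith
  have h1 := hn₁ n hn1
  simp only [id_eq] at h1
  rw [Real.norm_of_nonneg (by positivity), Real.norm_of_nonneg hn0.le, ← hL] at h1
  have hzL : (z : ℝ) ≤ 2 * A₀ * L := by
    have e1 : (z : ℝ) ≤ A₀ * (Nat.log 2 n : ℝ) := by exact_mod_cast hz
    have e2 : (Nat.log 2 n : ℝ) ≤ 2 * L := by
      have e3 := Real.natLog_le_logb n 2
      rw [Real.logb] at e3
      push_cast at e3
      rw [← hL] at e3
      refine e3.trans ?_
      rw [div_le_iff₀ hlog2]
      have := Real.log_two_gt_d9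
      nlinarith
    calc (z : ℝ) ≤ A₀ * (Nat.log 2 n : ℝ) := e1
      _ ≤ A₀ * (2 * L) := mul_le_mul_of_nonneg_left e2 (Nat.cast_nonneg _)
      _ = 2 * A₀ * L := by ring
  obtain ⟨v, hv⟩ : ∃ v : ℕ, v = max z 1 := ⟨_, rfl⟩
  have hv1 : 1 ≤ v := by rw [hv]; exact le_max_right _ _
  have hzv : z ≤ v := by rw [hv]; exact le_max_left _ _
  have hv0 : (0 : ℝ) < v := by exact_mod_cast hv1
  have hA0 : (0 : ℝ) ≤ A₀ := Nat.cast_nonneg _
  have hvL : (v : ℝ) ≤ (2 * A₀ + 1) * L := by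
    rw [hv]
    push_cast
    refine max_le ?_ ?_
    · linarith
    · have : 0 ≤ 2 * (A₀ : ℝ) * L := by positivity
      linarith
  have hzv' : (z : ℝ) ≤ v := by exact_mod_cast hzv
  refine (TailW.rankin (K := K) ⌈η * n⌉₊ n z v hv1 hzv).trans ?_
  rw [← hQ]
  have e1 : 1 / (n : ℝ) ^ A₀ = Real.exp (-(A₀ * L)) := by
    rw [Real.exp_neg, one_div, hL, mul_comm, Real.exp_mul, Real.exp_log hn0, Real.rpow_natCast]
  rw [e1]
  refine Real.exp_le_exp.2 ?_
  have e2 : η * n ≤ (⌈η * (n : ℝ)⌉₊ : ℝ) := Nat.le_ceil _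
  have e3 : (A₀ * L + z * (3 * Q)) * v ≤ Real.log 2 * (⌈η * (n : ℝ)⌉₊ : ℝ) := by
    have k1 : A₀ * L + z * (3 * Q) ≤ ((A₀ : ℝ) + (2 * A₀ + 1) * (3 * Q)) * L := by
      have : (z : ℝ) * (3 * Q) ≤ ((2 * A₀ + 1) * L) * (3 * Q) :=
        mul_le_mul_of_nonneg_right (hzv'.trans hvL) (by linarith)
      linarith
    calc (A₀ * L + z * (3 * Q)) * v ≤
          (((A₀ : ℝ) + (2 * A₀ + 1) * (3 * Q)) * L) * ((2 * A₀ + 1) * L) :=
          mul_le_mul k1 hvL hv0.le (by positivity)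
      _ = C * L ^ 2 := by rw [hC]; ring
      _ ≤ C * (Real.log 2 * η / C * n) := mul_le_mul_of_nonneg_left h1 hC0.le
      _ = Real.log 2 * (η * n) := by field_simp
      _ ≤ Real.log 2 * (⌈η * (n : ℝ)⌉₊ : ℝ) := mul_le_mul_of_nonneg_left e2 hlog2.le
  have e4 : A₀ * L + z * (3 * Q) ≤ Real.log 2 * (⌈η * (n : ℝ)⌉₊ : ℝ) / v := by
    rw [le_div_iff₀ hv0]
    exact e3
  linarith

end Pool.Agent.H985.CH
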