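import Pool.Agent.H985.CH.Stm
import Pool.Agent.H996.Par.Low

/-!
# Chen with parity over `F_q[X]` (helper985), task VPL: elementary properties of `vp`
-/

set_option autoImplicit false
set_option linter.unusedSectionVars false

namespace Pool.Agent.H985.CH

open Polynomial Finset
open scoped Classical
open Pool.Agent.H694.Typ (Mn Irn PU mem_PU pol pol_inj exists_pol pol_degree wt wt_nonneg q_ge)
open Pool.Agent.H225.Par (lf Om Om_card_le Om_degree Om_card_lt mod_eq_iff)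
open Pool.Agent.H996.Par (sum_wt sum_wt_sq one_sub_ge)

namespace VPLx

variable {K : Type} [Field K] [Fintype K]

/-- all residues modulo `P` -/
noncomputable def Res (P : K[X]) : Finset K[X] :=
  (univ : Finset (Fin P.natDegree → K)).image (pol : (Fin P.natDegree → K) → K[X])

theorem Res_card (P : K[X]) : (Res P).card = Fintype.card K ^ P.natDegree := by
  unfold Res
  rw [card_image_of_injective _ pol_inj, card_univ, Fintype.card_fun, Fintype.card_fin]

theorem mem_Res {P : K[X]} (hP : P.Monic) {a : K[X]} : a ∈ Res P ↔ a.degree < P.degree := by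
  unfold Res
  rw [mem_image, degree_eq_natDegree hP.ne_zero]
  constructor
  · rintro ⟨c, -, rfl⟩
    exact pol_degree c
  · intro ha
    obtain ⟨c, hc⟩ := exists_pol ha
    exact ⟨c, mem_univ _, hc⟩

theorem Om_sub {k : ℕ} (β : Fin k → K[X]) {P : K[X]} (hP : P.Monic) : Om β P ⊆ Res P :=
  fun r hr => (mem_Res hP).2 (Om_degree β hP r hr)

theorem Om_le {k : ℕ} (β : Fin k → K[X]) {P : K[X]} (hP : P.Monic) :
    (Om β P).card ≤ Fintype.card K ^ P.natDegree := by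
  rw [← Res_card]
  exact card_le_card (Om_sub β hP)

/-- the order of the residue field is at least two -/
theorem Q_ge {P : K[X]} (hP : Irreducible P) :
    (2 : ℝ) ≤ (Fintype.card K : ℝ) ^ P.natDegree := by
  have hq := q_ge (k := K)
  have h1 : 1 ≤ P.natDegree := hP.natDegree_pos
  have h2 : (2 : ℝ) ≤ (Fintype.card K : ℝ) := by exact_mod_cast hq
  calc (2 : ℝ) ≤ (Fintype.card K : ℝ) := h2
    _ = (Fintype.card K : ℝ) ^ 1 := (pow_one _).symm
    _ ≤ _ := pow_le_pow_right₀ (by linarith) h1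

theorem fac_nonneg {k : ℕ} (β : Fin k → K[X]) {P : K[X]} (hP : P.Monic) (hi : Irreducible P) :
    0 ≤ lf β P / (1 - 1 / (Fintype.card K : ℝ) ^ P.natDegree) := by
  have hQ := Q_ge hi
  have h1 : ((Om β P).card : ℝ) ≤ (Fintype.card K : ℝ) ^ P.natDegree := by
    exact_mod_cast Om_le β hP
  apply div_nonneg
  · unfold lf
    rw [sub_nonneg, div_le_one (by linarith)]
    exact h1
  · rw [sub_nonneg, div_le_one (by linarith)]
    linarith

/-- the value of the factor -/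
theorem fac_eq {k : ℕ} (β : Fin k → K[X]) {P : K[X]} (hi : Irreducible P) (w : ℕ)
    (hw : (Om β P).card = w + 1) :
    lf β P / (1 - 1 / (Fintype.card K : ℝ) ^ P.natDegree) =
      1 - (w : ℝ) / ((Fintype.card K : ℝ) ^ P.natDegree - 1) := by
  have hQ := Q_ge hi
  unfold lf
  rw [hw]
  push_cast
  have h1 : (Fintype.card K : ℝ) ^ P.natDegree ≠ 0 := by linarith
  have h2 : (Fintype.card K : ℝ) ^ P.natDegree - 1 ≠ 0 := by linarith
  generalize (Fintype.card K : ℝ) ^ P.natDegree = Q at hQ h1 h2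
  have h3 : 1 - 1 / Q = (Q - 1) / Q := by field_simp
  have h4 : 1 - ((w : ℝ) + 1) / Q = (Q - 1 - w) / Q := by field_simp; ring
  rw [h3, h4, div_div_div_cancel_right₀ h1, sub_div, div_self h2]

/-- the bound for the inverse -/
theorem inv_bd (k C Q : ℝ) (hk : 0 ≤ k) (hC : 0 ≤ C) (hQ : 2 ≤ Q) :
    k * (Q - 1)⁻¹ + C * ((Q - 1)⁻¹) ^ 2 ≤ k * Q⁻¹ + (2 * k + 4 * C) * (Q⁻¹) ^ 2 := by
  have hQ0 : 0 < Q := by linarith
  have hQ1 : 0 < Q - 1 := by linarith
  have h1 : (Q - 1)⁻¹ ≤ 2 * Q⁻¹ := by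
    rw [inv_le_iff_one_le_mul₀ hQ1]
    have : 2 * Q⁻¹ * (Q - 1) = 2 - 2 * Q⁻¹ := by field_simp
    rw [this]
    have : Q⁻¹ ≤ 2⁻¹ := inv_anti₀ (by norm_num) hQ
    linarith
  have h0 : 0 ≤ (Q - 1)⁻¹ := (inv_pos.2 hQ1).le
  have hi : 0 ≤ Q⁻¹ := (inv_pos.2 hQ0).le
  have h2 : ((Q - 1)⁻¹) ^ 2 ≤ 4 * (Q⁻¹) ^ 2 := by nlinarith
  have h3 : (Q - 1)⁻¹ = Q⁻¹ + Q⁻¹ * (Q - 1)⁻¹ := by
    field_simp
    ring
  have h4 : (Q - 1)⁻¹ ≤ Q⁻¹ + 2 * (Q⁻¹) ^ 2 := by
    have : Q⁻¹ * (Q - 1)⁻¹ ≤ Q⁻¹ * (2 * Q⁻¹) := mul_le_mul_of_nonneg_left h1 hi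
    nlinarith
  have h5 := mul_le_mul_of_nonneg_left h4 hk
  have h6 := mul_le_mul_of_nonneg_left h2 hC
  nlinarith

theorem zero_mem {k : ℕ} (h : Fin k → K[X]) (P : K[X]) :
    (0 : K[X]) ∈ Om (Fin.cons 0 h : Fin (k + 1) → K[X]) P := by
  unfold Om
  rw [mem_image]
  exact ⟨0, mem_univ _, by rw [Fin.cons_zero, zero_modByMonic]⟩

/-- the lower bound for a factor -/
theorem fac_ge {k : ℕ} (h : Fin k → K[X]) {P : K[X]} (hP : P.Monic) (hi : Irreducible P)
    (hr : ∃ r, ∀ i, ¬ P ∣ r - (Fin.cons 0 h : Fin (k + 1) → K[X]) i) :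
    Real.exp (-((k : ℝ) * wt K P.natDegree +
      (2 * (k : ℝ) + 4 * (8 * (k : ℝ) ^ 3 + 2 * (k : ℝ) ^ 2)) * wt K P.natDegree ^ 2)) ≤
      lf (Fin.cons 0 h : Fin (k + 1) → K[X]) P /
        (1 - 1 / (Fintype.card K : ℝ) ^ P.natDegree) := by
  have hQ := Q_ge hi
  have h1 : 1 ≤ (Om (Fin.cons 0 h : Fin (k + 1) → K[X]) P).card :=
    card_pos.2 ⟨0, zero_mem h P⟩
  obtain ⟨w, hw⟩ : ∃ w, (Om (Fin.cons 0 h : Fin (k + 1) → K[X]) P).card = w + 1 :=
    ⟨_, (Nat.sub_add_cancel h1).symm⟩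
  have h2 := Om_card_le (Fin.cons 0 h : Fin (k + 1) → K[X]) P
  have h3 := Om_card_lt _ hP hr
  rw [hw] at h2 h3
  have h4 : (w : ℝ) + 1 ≤ (Fintype.card K : ℝ) ^ P.natDegree - 1 := by
    have : ((w + 1 + 1 : ℕ) : ℝ) ≤ (Fintype.card K : ℝ) ^ P.natDegree := by exact_mod_cast h3
    push_cast at this
    linarith
  rw [fac_eq _ hi w hw]
  refine le_trans ?_ (one_sub_ge k w _ (by omega) h4)
  rw [Real.exp_le_exp]
  apply neg_le_neg
  exact inv_bd k _ _ (Nat.cast_nonneg k) (by positivity) hQ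

end VPLx

open VPLx in
/-- **Task VPL.** -/
theorem vpl : S_vpl := by
  intro K _ _ _ k
  refine ⟨Real.exp (-((k : ℝ) + (2 * (k : ℝ) + 4 * (8 * (k : ℝ) ^ 3 + 2 * (k : ℝ) ^ 2)))),
    Real.exp_pos _, ?_⟩
  intro m h hm
  have hneg : ∀ r a : K[X], r + a = r - a := fun r a => by
    rw [sub_eq_add_neg, CharTwo.neg_eq]
  refine ⟨prod_nonneg fun P hP => ?_, fun hr => ?_, ?_⟩
  · rw [mem_PU] at hP
    exact fac_nonneg _ hP.1 hP.2.1
  · set C : ℝ := 2 * (k : ℝ) + 4 * (8 * (k : ℝ) ^ 3 + 2 * (k : ℝ) ^ 2) with hC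
    have hC0 : 0 ≤ C := by positivity
    have hk0 : (0 : ℝ) ≤ k := Nat.cast_nonneg k
    have hm0 : (0 : ℝ) < m := by exact_mod_cast hm
    have h1 : ∏ P ∈ PU K m, Real.exp (-((k : ℝ) * wt K P.natDegree + C * wt K P.natDegree ^ 2)) ≤
        vp m h := by
      refine prod_le_prod (fun _ _ => (Real.exp_pos _).le) fun P hP => ?_
      have hP' := mem_PU.1 hP
      refine fac_ge h hP'.1 hP'.2.1 ?_
      obtain ⟨r, hr1, hr2⟩ := hr P hP
      refine ⟨r, fun i => ?_⟩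
      refine Fin.cases ?_ (fun i => ?_) i
      · rw [Fin.cons_zero, sub_zero]
        exact hr1
      · rw [Fin.cons_succ, ← hneg]
        exact hr2 i
    refine le_trans ?_ h1
    rw [← Real.exp_sum]
    have h2 : ∑ P ∈ PU K m, (-((k : ℝ) * wt K P.natDegree + C * wt K P.natDegree ^ 2)) =
        -((k : ℝ) * ∑ P ∈ PU K m, wt K P.natDegree + C * ∑ P ∈ PU K m, wt K P.natDegree ^ 2) := by
      rw [sum_neg_distrib, sum_add_distrib, ← mul_sum, ← mul_sum]
    rw [h2]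
    have h3 : Real.exp (-((k : ℝ) + C)) / (m : ℝ) ^ k =
        Real.exp (-((k : ℝ) * (1 + Real.log m) + C * 1)) := by
      have h4 : (m : ℝ) ^ k = Real.exp (k * Real.log m) := by
        rw [mul_comm, ← Real.rpow_natCast, Real.rpow_def_of_pos hm0]
      rw [h4, ← Real.exp_sub]
      congr 1
      ring
    rw [h3, Real.exp_le_exp]
    apply neg_le_neg
    exact add_le_add (mul_le_mul_of_nonneg_left (sum_wt m) hk0)
      (mul_le_mul_of_nonneg_left (sum_wt_sq m) hC0)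
  · rintro ⟨P, hP, hall⟩
    have hP' := mem_PU.1 hP
    refine prod_eq_zero hP ?_
    have hQ := Q_ge hP'.2.1
    have hsub : Res P ⊆ Om (Fin.cons 0 h : Fin (k + 1) → K[X]) P := by
      intro a ha
      rw [mem_Res hP'.1] at ha
      by_cases ha0 : a = 0
      · rw [ha0]
        exact zero_mem h P
      · have h5 : ¬ P ∣ a := fun hd => by
          have := degree_le_of_dvd hd ha0
          exact absurd ha (not_lt.2 this)
        obtain ⟨i, hi⟩ := hall a h5
        unfold Om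
        rw [mem_image]
        refine ⟨i.succ, mem_univ _, ?_⟩
        rw [Fin.cons_succ]
        rw [hneg, ← mod_eq_iff hP'.1] at hi
        rw [← hi]
        exact (modByMonic_eq_self_iff hP'.1).2 ha
    have h6 : (Om (Fin.cons 0 h : Fin (k + 1) → K[X]) P).card = Fintype.card K ^ P.natDegree := by
      rw [← Res_card]
      exact congrArg card (Subset.antisymm (Om_sub _ hP'.1) hsub)
    have h7 : lf (Fin.cons 0 h : Fin (k + 1) → K[X]) P = 0 := by
      unfold lf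
      rw [h6]
      push_cast
      rw [div_self (by linarith), sub_self]
    rw [h7, zero_div]

end Pool.Agent.H985.CH
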