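import Mathlib
import Pool.Agent.H985.Gc.Base
import Pool.Agent.H251.SP.Bf
import Pool.Agent.H251.SP.LS
import Pool.Agent.H251.SP.WM1
import Pool.Agent.H251.SP.Wm2
import Pool.Agent.H251.SP.WM
import Pool.Agent.H251.SP.MOB
import Pool.Agent.H251.SP.Comb
import Pool.Agent.H183.Par.BRUN
import Pool.Agent.H985.CH.Momw
import Pool.Agent.H985.CH.Tailw
import Pool.Agent.H985.CH.TIIW
import Pool.Agent.H985.CH.TIW
import Pool.Agent.H985.CH.TWW
import Pool.Agent.H985.CH.PAPW
import Pool.Agent.H985.CH.Buchw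
import Pool.Agent.H985.CH.Vpl
import Pool.Agent.H985.CH.BRW
import Pool.Agent.H985.CH.Prsw
import Pool.Agent.H985.CH.FEWS
import Pool.Agent.H985.CH.Maina
import Pool.Agent.H985.CH.Mainb
import Pool.Agent.H985.CH.CHEN

/-!
# Chen's theorem with prescribed parity over `F_q[X]`, `q` even (helper985): assembly
-/

namespace Pool.Agent.H985.CH

open Pool.Agent.H251.SP
open Pool.Agent.H985.Gc (s_fb s_ps)

theorem s_tiiw : S_tiiw := tiiw s_fb bf (wm (wm1 ls1) (wm2 ls2)) momw

theorem s_prsw : S_prsw := prsw vpl (brw Pool.Agent.H183.Par.brun) papw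

theorem s_maina : S_maina := maina s_tiiw (tww s_ps tailw momw) buchw (sqw momw)

theorem s_mainb : S_mainb := mainb s_tiiw (tiw mob_prog tailw momw) buchw (sqw momw) momw

theorem s_chen : S_chen := chen comb s_maina s_mainb (fews vpl s_prsw) vpl s_prsw

theorem s_cnt : S_cnt := cnt vpl s_prsw

end Pool.Agent.H985.CH
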