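import Mathlib
import Pool.Agent.H985.CH.Base
import Pool.Agent.H985.Par.Few

/-!
# Chen's theorem with prescribed parity over `F_q[X]`, `q` even: counting (helper985)
-/

set_option autoImplicit false

namespace Pool.Agent.H985.CH

open Polynomial Finset
open scoped Classical
open Pool.Agent.H985.Chow (mob)
open Pool.Agent.H985.Par (Sft Sft_irr factors_le)
open Pool.Agent.H694.Typ (Mn Irn mem_Mn mem_Irn card_Mn PU mem_PU)
open UniqueFactorizationMonoid (factors)

variable {K : Type} [Field K] [Fintype K]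

theorem add_mem_Mn {n : ℕ} {p h : K[X]} (hp : p ∈ Mn K n) (hh : h.natDegree < n) :
    p + h ∈ Mn K n := by
  rw [mem_Mn] at hp ⊢
  have hd : h.degree < p.degree := by
    refine lt_of_le_of_lt degree_le_natDegree ?_
    rw [degree_eq_natDegree hp.1.ne_zero, hp.2]
    exact_mod_cast hh
  exact ⟨hp.1.add_of_left hd, by rw [natDegree_add_eq_left_of_degree_lt hd, hp.2]⟩

theorem Irn_sub {n : ℕ} {p : K[X]} (hp : p ∈ Irn K n) : p ∈ Mn K n := by
  rw [mem_Mn]
  exact ⟨(mem_Irn.1 hp).1, (mem_Irn.1 hp).2.1⟩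

/-- the sifted irreducible polynomials -/
noncomputable def Sp (K : Type) [Field K] [Fintype K] {k : ℕ} (h : Fin k → K[X]) (n m : ℕ) :
    Finset K[X] := (Irn K n).filter (Sif h m)

/-- those with some value not squarefree -/
theorem bad_card {k : ℕ} (n m : ℕ) (h : Fin k → K[X]) (hh : Shf n h) :
    (((Sp K h n m).filter (fun p => ∃ i, ¬ Squarefree (p + h i))).card : ℝ) ≤
      k * ((Fintype.card K : ℝ) ^ n * (2 / (Fintype.card K : ℝ) ^ (m + 1))) := by
  have hsub : (Sp K h n m).filter (fun p => ∃ i, ¬ Squarefree (p + h i)) ⊆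
      (Finset.univ : Finset (Fin k)).biUnion fun i =>
        (Sp K h n m).filter (fun p => ¬ Squarefree (p + h i)) := by
    intro p hp
    rw [mem_filter] at hp
    obtain ⟨h1, i, hi⟩ := hp
    rw [mem_biUnion]
    exact ⟨i, mem_univ _, mem_filter.2 ⟨h1, hi⟩⟩
  have h1 : ∀ i : Fin k, (((Sp K h n m).filter (fun p => ¬ Squarefree (p + h i))).card : ℝ) ≤
      (Fintype.card K : ℝ) ^ n * (2 / (Fintype.card K : ℝ) ^ (m + 1)) := by
    intro i
    refine le_trans ?_ (Buchw.card_Sq n (m + 1) (by omega))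
    norm_cast
    refine Finset.card_le_card_of_injOn (fun p => p + h i) ?_ ?_
    · intro p hp
      rw [mem_coe, mem_filter] at hp
      obtain ⟨hp1, hp2⟩ := hp
      unfold Sp at hp1
      rw [mem_filter] at hp1
      obtain ⟨hp1, hp3⟩ := hp1
      rw [mem_coe]
      unfold Buchw.Sq
      rw [mem_filter]
      have hmem := add_mem_Mn (Irn_sub hp1) (hh i).2
      refine ⟨hmem, ?_⟩
      have hne : p + h i ≠ 0 := (mem_Mn.1 hmem).1.ne_zero
      rw [squarefree_iff_irreducible_sq_not_dvd_of_ne_zero hne] at hp2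
      push Not at hp2
      obtain ⟨Q, hQ, hQd⟩ := hp2
      refine ⟨Q * C (Q.leadingCoeff)⁻¹, monic_mul_leadingCoeff_inv hQ.ne_zero, ?_, ?_, ?_⟩
      · have hu : IsUnit (C (Q.leadingCoeff)⁻¹ : K[X]) :=
          isUnit_C.2 (IsUnit.mk0 _ (inv_ne_zero (mt leadingCoeff_eq_zero.1 hQ.ne_zero)))
        exact (irreducible_mul_isUnit hu).2 hQ
      · have h2 := Sft_irr (hp3 i) hQ ((dvd_mul_right Q Q).trans hQd)
        have h3 : (Q * C (Q.leadingCoeff)⁻¹).natDegree = Q.natDegree := by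
          apply natDegree_mul_leadingCoeff_self_inv
        omega
      · have hu : IsUnit (C (Q.leadingCoeff)⁻¹ : K[X]) :=
          isUnit_C.2 (IsUnit.mk0 _ (inv_ne_zero (mt leadingCoeff_eq_zero.1 hQ.ne_zero)))
        rw [mul_pow]
        rw [(hu.pow 2).mul_right_dvd, sq]
        exact hQd
    · intro p _ p' _ hpp
      exact add_right_cancel hpp
  have h2 := (Finset.card_le_card hsub).trans Finset.card_biUnion_le
  have h3 : (((Sp K h n m).filter (fun p => ∃ i, ¬ Squarefree (p + h i))).card : ℝ) ≤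
      ∑ i : Fin k, (((Sp K h n m).filter (fun p => ¬ Squarefree (p + h i))).card : ℝ) := by
    exact_mod_cast h2
  refine h3.trans ((Finset.sum_le_sum fun i _ => h1 i).trans ?_)
  rw [Finset.sum_const, Finset.card_univ, Fintype.card_fin, nsmul_eq_mul]

theorem mob_val (F : K[X]) : mob F = 0 ∧ ¬ Squarefree F ∨ mob F = 1 ∨ mob F = -1 := by
  unfold mob
  split_ifs with h
  · right
    rcases neg_one_pow_eq_or ℤ (Multiset.card (factors F)) with h | h
    · exact Or.inl h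
    · exact Or.inr h
  · exact Or.inl ⟨rfl, h⟩

/-- half of the sifted set -/
theorem half {k : ℕ} (n m : ℕ) (h : Fin k → K[X]) (i₀ : Fin k) (σ : ℤ) (hσ : σ = 1 ∨ σ = -1) :
    ((Sp K h n m).card : ℝ) -
      |∑ p ∈ Sp K h n m, (mob (p + h i₀) : ℝ)| -
        3 * ((Sp K h n m).filter (fun p => ∃ i, ¬ Squarefree (p + h i))).card ≤
    2 * (((Sp K h n m).filter (fun p => (∀ i, Squarefree (p + h i)) ∧ mob (p + h i₀) = σ)).card : ℝ) := by
  set S := Sp K h n m with hS
  set B := S.filter (fun p => ∃ i, ¬ Squarefree (p + h i)) with hB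
  set G := S.filter (fun p => (∀ i, Squarefree (p + h i)) ∧ mob (p + h i₀) = σ) with hG
  have hσ2 : (σ : ℝ) * σ = 1 := by
    rcases hσ with h | h <;> rw [h] <;> norm_num
  have hσa : |(σ : ℝ)| = 1 := by
    rcases hσ with h | h <;> rw [h] <;> norm_num
  -- pointwise: 1 + σ mob ≤ 2 * [G] + 3 * [B]
  have hpt : ∀ p ∈ S, (1 : ℝ) + σ * (mob (p + h i₀) : ℝ) ≤
      2 * (if (∀ i, Squarefree (p + h i)) ∧ mob (p + h i₀) = σ then (1 : ℝ) else 0) +
        3 * (if ∃ i, ¬ Squarefree (p + h i) then (1 : ℝ) else 0) := by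
    intro p _
    by_cases hb : ∃ i, ¬ Squarefree (p + h i)
    · rw [if_pos hb]
      have h1 : (σ : ℝ) * (mob (p + h i₀) : ℝ) ≤ 1 := by
        rcases hσ with hs | hs <;> rcases mob_val (p + h i₀) with ⟨h2, -⟩ | h2 | h2 <;>
          rw [hs, h2] <;> norm_num
      have h2 : (0 : ℝ) ≤ 2 * (if (∀ i, Squarefree (p + h i)) ∧ mob (p + h i₀) = σ then
          (1 : ℝ) else 0) := by split_ifs <;> norm_num
      linarith
    · rw [if_neg hb]
      push Not at hb
      by_cases hm : mob (p + h i₀) = σ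
      · rw [if_pos ⟨hb, hm⟩, hm, hσ2]
        norm_num
      · rw [if_neg (fun h => hm h.2)]
        have h2 : mob (p + h i₀) = -σ := by
          rcases mob_val (p + h i₀) with ⟨-, h3⟩ | h3 | h3
          · exact absurd (hb i₀) h3
          · rcases hσ with hs | hs
            · exact absurd (h3.trans hs.symm) hm
            · rw [h3, hs]; norm_num
          · rcases hσ with hs | hs
            · rw [h3, hs]
            · exact absurd (h3.trans hs.symm) hm
        rw [h2]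
        push_cast
        rw [mul_neg, hσ2]
        norm_num
  have hsum := Finset.sum_le_sum hpt
  rw [Finset.sum_add_distrib, Finset.sum_add_distrib, ← Finset.mul_sum, ← Finset.mul_sum,
    ← Finset.mul_sum, Finset.sum_boole, Finset.sum_boole, Finset.sum_const, nsmul_eq_mul,
    mul_one] at hsum
  have h5 : -|∑ p ∈ S, (mob (p + h i₀) : ℝ)| ≤ (σ : ℝ) * ∑ p ∈ S, (mob (p + h i₀) : ℝ) := by
    have h6 := neg_abs_le ((σ : ℝ) * ∑ p ∈ S, (mob (p + h i₀) : ℝ))
    rwa [abs_mul, hσa, one_mul] at h6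
  linarith

/-- **Irreducible polynomials with almost prime shifts of prescribed parity.** -/
theorem chfew (K : Type) [Field K] [Fintype K] [CharP K 2] (k : ℕ) :
    ∃ (r : ℕ) (c : ℝ), 0 < c ∧ ∃ n₀ : ℕ, ∀ n : ℕ, n₀ ≤ n →
      ∀ h : Fin k → K[X], Shf n h →
      (∀ P : K[X], P.Monic → Irreducible P → ∃ x : K[X], ¬ P ∣ x ∧ ∀ i, ¬ P ∣ x + h i) →
      ∀ (i₀ : Fin k) (σ : ℤ), σ = 1 ∨ σ = -1 →
        c * (Fintype.card K : ℝ) ^ n / (n : ℝ) ^ (k + 1) ≤
          (((Irn K n).filter (fun p => (∀ i, Squarefree (p + h i) ∧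
            Multiset.card (factors (p + h i)) ≤ r ∧
              ∀ P : K[X], Irreducible P → P ∣ p + h i → n ≤ (r + 1) * P.natDegree) ∧
                mob (p + h i₀) = σ)).card : ℝ) := by
  obtain ⟨κ₁, hκ₁, n₁, hchen⟩ := s_chen K k (1 / 4) (by norm_num)
  obtain ⟨κ₂, hκ₂, n₂, hcnt⟩ := s_cnt K k (1 / 4) (by norm_num)
  obtain ⟨c, hc, hvpl⟩ := vpl K k
  obtain ⟨κ, hκ⟩ : ∃ κ : ℝ, κ = min (min κ₁ κ₂) 1 := ⟨_, rfl⟩
  have hκ0 : 0 < κ := by rw [hκ]; exact lt_min (lt_min hκ₁ hκ₂) one_pos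
  have hκ1 : κ ≤ κ₁ := by rw [hκ]; exact (min_le_left _ _).trans (min_le_left _ _)
  have hκ2 : κ ≤ κ₂ := by rw [hκ]; exact (min_le_left _ _).trans (min_le_right _ _)
  have hκ3 : κ ≤ 1 := by rw [hκ]; exact min_le_right _ _
  obtain ⟨r, hr⟩ := exists_nat_ge (1 / κ)
  have hq : (2 : ℝ) ≤ (Fintype.card K : ℝ) := by
    exact_mod_cast Fintype.one_lt_card (α := K)
  -- for large n the bad ones are few
  have hlim : ∃ n₃ : ℕ, ∀ n : ℕ, n₃ ≤ n →
      12 * (k : ℝ) * (n : ℝ) ^ (k + 1) ≤ c / 8 * 2 ^ (κ * (n : ℝ)) := by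
    have h1 : Filter.Tendsto (fun n : ℕ => ((n : ℝ) ^ (k + 1)) / Real.exp (κ * Real.log 2 * n))
        Filter.atTop (nhds 0) := by
      have h2 := Real.tendsto_pow_mul_exp_neg_atTop_nhds_zero (k + 1)
      have hb : 0 < κ * Real.log 2 := mul_pos hκ0 (Real.log_pos (by norm_num))
      have h3 := (h2.comp (Filter.Tendsto.const_mul_atTop hb tendsto_natCast_atTop_atTop)).const_mul
        (1 / (κ * Real.log 2) ^ (k + 1))
      rw [mul_zero] at h3
      refine h3.congr fun n => ?_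
      simp only [Function.comp_apply]
      rw [mul_pow, Real.exp_neg]
      have hb' := hb.ne'
      field_simp
      ring
    have h4 : ∀ᶠ n : ℕ in Filter.atTop,
        ((n : ℝ) ^ (k + 1)) / Real.exp (κ * Real.log 2 * n) < c / 8 / (12 * (k : ℝ) + 1) :=
      h1.eventually_lt_const (by positivity)
    obtain ⟨n₃, hn₃⟩ := Filter.eventually_atTop.1 h4
    refine ⟨n₃, fun n hn => ?_⟩
    have h5 := hn₃ n hn
    rw [div_lt_iff₀ (Real.exp_pos _)] at h5
    have h6 : Real.exp (κ * Real.log 2 * n) = 2 ^ (κ * (n : ℝ)) := by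
      rw [Real.rpow_def_of_pos (by norm_num)]
      congr 1
      ring
    rw [h6] at h5
    have h7 : (0 : ℝ) ≤ 2 ^ (κ * (n : ℝ)) := by positivity
    have h8 : 12 * (k : ℝ) * (n : ℝ) ^ (k + 1) ≤
        12 * (k : ℝ) * (c / 8 / (12 * (k : ℝ) + 1) * 2 ^ (κ * (n : ℝ))) :=
      mul_le_mul_of_nonneg_left h5.le (by positivity)
    refine h8.trans ?_
    have h9 : 12 * (k : ℝ) * (c / 8 / (12 * (k : ℝ) + 1)) ≤ c / 8 := by
      have : 12 * (k : ℝ) * (c / 8 / (12 * (k : ℝ) + 1)) =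
          c / 8 * (12 * (k : ℝ) / (12 * (k : ℝ) + 1)) := by ring
      rw [this]
      have h10 : 12 * (k : ℝ) / (12 * (k : ℝ) + 1) ≤ 1 := by
        rw [div_le_one (by positivity)]
        linarith
      have h11 : 0 ≤ c / 8 := by positivity
      nlinarith
    nlinarith
  obtain ⟨n₃, hn₃⟩ := hlim
  refine ⟨r, c / 8, by positivity, max (max n₁ n₂) (max n₃ (⌈2 / κ⌉₊ + 1)), ?_⟩
  intro n hn h hh hadm i₀ σ hσ
  have hnn₁ : n₁ ≤ n := le_trans (le_trans (le_max_left _ _) (le_max_left _ _)) hn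
  have hnn₂ : n₂ ≤ n := le_trans (le_trans (le_max_right _ _) (le_max_left _ _)) hn
  have hnn₃ : n₃ ≤ n := le_trans (le_trans (le_max_left _ _) (le_max_right _ _)) hn
  have hnn₄ : ⌈2 / κ⌉₊ + 1 ≤ n := le_trans (le_trans (le_max_right _ _) (le_max_right _ _)) hn
  have hn1 : 1 ≤ n := by omega
  have hnpos : (0 : ℝ) < n := by exact_mod_cast hn1
  have hn2 : 2 ≤ κ * n := by
    have h1 : 2 / κ ≤ n := (Nat.le_ceil _).trans (by exact_mod_cast (by omega : ⌈2 / κ⌉₊ ≤ n))
    rw [div_le_iff₀ hκ0] at h1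
    linarith
  obtain ⟨m, hm⟩ : ∃ m : ℕ, m = ⌊κ * n⌋₊ := ⟨_, rfl⟩
  have hm1 : (m : ℝ) ≤ κ * n := by rw [hm]; exact Nat.floor_le (by positivity)
  have hm2 : κ * n < (m : ℝ) + 1 := by rw [hm]; exact Nat.lt_floor_add_one _
  have hm3 : 1 ≤ m := by
    have : (1 : ℝ) < (m : ℝ) := by linarith
    have h : 1 < m := by exact_mod_cast this
    omega
  have hmn : (m : ℝ) ≤ n := hm1.trans (by nlinarith)
  have hmpos : (0 : ℝ) < m := by exact_mod_cast hm3
  have e1 := hchen n hnn₁ m h i₀ hm3 (hm1.trans (by nlinarith)) hh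
  have e2 := hcnt n hnn₂ m h hm3 (hm1.trans (by nlinarith))
  obtain ⟨-, hv, -⟩ := hvpl m h hm3
  have e3 := hv (fun P hP => hadm P (mem_PU.1 hP).1 (mem_PU.1 hP).2.1)
  set q : ℝ := (Fintype.card K : ℝ) with hqdef
  set V : ℝ := vp m h * q ^ n / n with hV
  have hVlow : c * q ^ n / (n : ℝ) ^ (k + 1) ≤ V := by
    rw [hV, pow_succ, div_mul_eq_div_div, div_le_div_iff_of_pos_right hnpos]
    have h1 : c / (n : ℝ) ^ k ≤ vp m h := by
      refine le_trans ?_ e3
      exact div_le_div_of_nonneg_left hc.le (by positivity) (pow_le_pow_left₀ hmpos.le hmn k)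
    calc c * q ^ n / (n : ℝ) ^ k = c / (n : ℝ) ^ k * q ^ n := by ring
      _ ≤ vp m h * q ^ n := mul_le_mul_of_nonneg_right h1 (by positivity)
  have e4 := bad_card n m h hh
  have e5 := half n m h i₀ σ hσ
  change |∑ p ∈ Sp K h n m, (mob (p + h i₀) : ℝ)| ≤ _ at e1
  change |((Sp K h n m).card : ℝ) - _| ≤ _ at e2
  rw [abs_le] at e2
  have e6 : 12 * ((k : ℝ) * (q ^ n * (2 / q ^ (m + 1)))) ≤ V := by
    refine le_trans ?_ hVlow
    have h1 : (2 : ℝ) ^ (κ * (n : ℝ)) ≤ q ^ (m + 1) := by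
      calc (2 : ℝ) ^ (κ * (n : ℝ)) ≤ 2 ^ ((m + 1 : ℕ) : ℝ) := by
            apply Real.rpow_le_rpow_of_exponent_le (by norm_num)
            push_cast
            linarith
        _ = 2 ^ (m + 1) := Real.rpow_natCast _ _
        _ ≤ q ^ (m + 1) := pow_le_pow_left₀ (by norm_num) hq _
    have h2 := hn₃ n hnn₃
    have h3 : 12 * (k : ℝ) * (n : ℝ) ^ (k + 1) ≤ c / 8 * q ^ (m + 1) :=
      h2.trans (mul_le_mul_of_nonneg_left h1 (by positivity))
    rw [le_div_iff₀ (by positivity)]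
    have h4 : 12 * ((k : ℝ) * (q ^ n * (2 / q ^ (m + 1)))) * (n : ℝ) ^ (k + 1) =
        2 * q ^ n * (12 * (k : ℝ) * (n : ℝ) ^ (k + 1)) / q ^ (m + 1) := by ring
    rw [h4, div_le_iff₀ (by positivity)]
    have h5 : 2 * q ^ n * (12 * (k : ℝ) * (n : ℝ) ^ (k + 1)) ≤ 2 * q ^ n * (c / 8 * q ^ (m + 1)) :=
      mul_le_mul_of_nonneg_left h3 (by positivity)
    have h6 : 0 ≤ c * q ^ n * q ^ (m + 1) := by positivity
    nlinarith
  have hVpos : 0 ≤ V := le_trans (by positivity) hVlow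
  have e7 : V / 8 ≤ (((Sp K h n m).filter
      (fun p => (∀ i, Squarefree (p + h i)) ∧ mob (p + h i₀) = σ)).card : ℝ) := by
    linarith [e2.1]
  have e8 : c / 8 * q ^ n / (n : ℝ) ^ (k + 1) ≤ V / 8 := by
    have : c / 8 * q ^ n / (n : ℝ) ^ (k + 1) = (c * q ^ n / (n : ℝ) ^ (k + 1)) / 8 := by ring
    rw [this]
    linarith
  refine (e8.trans e7).trans ?_
  norm_cast
  refine Finset.card_le_card fun p hp => ?_
  rw [mem_filter] at hp
  obtain ⟨hp1, hp2, hp3⟩ := hp
  unfold Sp at hp1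
  rw [mem_filter] at hp1
  obtain ⟨hp1, hp4⟩ := hp1
  rw [mem_filter]
  refine ⟨hp1, fun i => ⟨hp2 i, ?_, ?_⟩, hp3⟩
  · have hfi := add_mem_Mn (Irn_sub hp1) (hh i).2
    rw [mem_Mn] at hfi
    have h8 := factors_le hfi.1.ne_zero hfi.2.le (hp4 i)
    have h9 : (Multiset.card (factors (p + h i)) : ℝ) * (κ * n) ≤ n := by
      have h10 : ((Multiset.card (factors (p + h i)) : ℝ)) * ((m : ℝ) + 1) ≤ n := by
        exact_mod_cast h8
      refine le_trans ?_ h10
      exact mul_le_mul_of_nonneg_left hm2.le (by positivity)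
    have h11 : (Multiset.card (factors (p + h i)) : ℝ) * κ ≤ 1 := by
      have h12 : ((Multiset.card (factors (p + h i)) : ℝ) * κ) * n ≤ 1 * n := by linarith
      exact le_of_mul_le_mul_right h12 hnpos
    have h13 : (Multiset.card (factors (p + h i)) : ℝ) ≤ r := by
      refine le_trans ?_ hr
      rw [le_div_iff₀ hκ0]
      exact h11
    exact_mod_cast h13
  · intro P hP hPd
    have h8 := Sft_irr (hp4 i) hP hPd
    have h9 : (n : ℝ) ≤ ((r : ℝ) + 1) * P.natDegree := by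
      have h10 : ((m : ℝ) + 1) ≤ P.natDegree := by exact_mod_cast h8
      have h11 : (n : ℝ) ≤ r * (κ * n) := by
        have : 1 ≤ r * κ := by
          rw [div_le_iff₀ hκ0] at hr
          exact hr
        nlinarith
      have h12 : r * (κ * n) ≤ (r : ℝ) * P.natDegree :=
        mul_le_mul_of_nonneg_left (by linarith) (by positivity)
      have h13 : (0 : ℝ) ≤ P.natDegree := by positivity
      linarith
    exact_mod_cast h9

end Pool.Agent.H985.CH
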