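import Pool.Agent.H985.CH.Stm
import Pool.Agent.H251.SP.BUCH

/-!
# The Buchstab identity with an explicit error term, and the multiples of squares (tasks BUCHW, SQW)
-/

set_option autoImplicit false

namespace Pool.Agent.H985.CH

open Polynomial Finset
open scoped Classical
open Pool.Agent.H694.Typ (Mn Irn PU mem_Mn mem_Irn card_Mn card_dvd_le card_dvd_eq no_dvd coprime_of_ne wt q_ge)
open Pool.Agent.H251.SP (Rgh bw)

namespace Buchw

open Pool.Agent.H251.SP.BUCH (t claim sum_mult term_le geo_tail)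

variable {K : Type} [Field K] [Fintype K]

theorem term_le' {j : ℕ} {P B : K[X]} (hP : P ∈ Irn K j) (x : ℝ) :
    |bw j B * x - x * t j (P * B)| ≤ if P ∣ B then |x| else 0 := by
  have h1 := term_le (B := B) hP 1 (by simp)
  have h2 : bw j B * x - x * t j (P * B) = (bw j B * 1 - 1 * t j (P * B)) * x := by ring
  rw [h2, abs_mul]
  split_ifs with h
  · rw [if_pos h] at h1
    calc |bw j B * 1 - 1 * t j (P * B)| * |x| ≤ 1 * |x| := by gcongr
      _ = |x| := one_mul _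
  · rw [if_neg h] at h1
    have h3 : |bw j B * 1 - 1 * t j (P * B)| = 0 := le_antisymm h1 (abs_nonneg _)
    rw [h3, zero_mul]

/-- the number of the monic irreducible divisors -/
theorem card_irr_le {f : K[X]} (hf : f ≠ 0) (s : Finset K[X])
    (hs : ∀ P ∈ s, P.Monic ∧ Irreducible P ∧ P ∣ f) : s.card ≤ f.natDegree := by
  have h1 : (∏ P ∈ s, P) ∣ f := by
    refine Finset.prod_dvd_of_coprime ?_ fun P hP => (hs P hP).2.2
    intro P hP Q hQ hPQ
    exact coprime_of_ne (hs P hP).1 (hs P hP).2.1 (hs Q hQ).1 (hs Q hQ).2.1 hPQ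
  have h2 := natDegree_le_of_dvd h1 hf
  rw [natDegree_prod_of_monic _ _ fun P hP => (hs P hP).1] at h2
  refine le_trans ?_ h2
  rw [Finset.card_eq_sum_ones]
  exact Finset.sum_le_sum fun P hP => (hs P hP).2.1.natDegree_pos

/-- the multiples of the squares of irreducible polynomials of degree at least `w` -/
noncomputable def Sq (K : Type) [Field K] [Fintype K] (N w : ℕ) : Finset K[X] :=
  (Mn K N).filter fun f => ∃ P : K[X], P.Monic ∧ Irreducible P ∧ w ≤ P.natDegree ∧ P ^ 2 ∣ f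

theorem card_Sq (N w : ℕ) (_hw : 1 ≤ w) :
    ((Sq K N w).card : ℝ) ≤ (Fintype.card K : ℝ) ^ N * (2 / (Fintype.card K : ℝ) ^ w) := by
  have hq : (2 : ℝ) ≤ (Fintype.card K : ℝ) := q_ge
  have hsub : Sq K N w ⊆ (Ico w (N + 1)).biUnion fun j => (Irn K j).biUnion fun P =>
      (Mn K N).filter fun f => P ^ 2 ∣ f := by
    intro f hf
    unfold Sq at hf
    rw [mem_filter] at hf
    obtain ⟨hf1, P, h1, h2, h3, h4⟩ := hf
    rw [mem_biUnion]
    refine ⟨P.natDegree, ?_, ?_⟩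
    · rw [mem_Ico]
      refine ⟨h3, ?_⟩
      rw [mem_Mn] at hf1
      have h5 := natDegree_le_of_dvd ((dvd_pow_self P two_ne_zero).trans h4) hf1.1.ne_zero
      omega
    · rw [mem_biUnion]
      exact ⟨P, mem_Irn.2 ⟨h1, rfl, h2⟩, mem_filter.2 ⟨hf1, h4⟩⟩
  have h1 : ((Sq K N w).card : ℝ) ≤ ∑ j ∈ Ico w (N + 1), ∑ P ∈ Irn K j,
      ((((Mn K N).filter fun f => P ^ 2 ∣ f)).card : ℝ) := by
    have a1 := (Finset.card_le_card hsub).trans Finset.card_biUnion_le
    have a2 : ∑ j ∈ Ico w (N + 1), ((Irn K j).biUnion fun P =>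
        (Mn K N).filter fun f => P ^ 2 ∣ f).card ≤ ∑ j ∈ Ico w (N + 1), ∑ P ∈ Irn K j,
        (((Mn K N).filter fun f => P ^ 2 ∣ f)).card :=
      Finset.sum_le_sum fun j _ => Finset.card_biUnion_le
    exact_mod_cast a1.trans a2
  refine h1.trans ?_
  have h2 : ∀ j ∈ Ico w (N + 1), ∑ P ∈ Irn K j, ((((Mn K N).filter fun f => P ^ 2 ∣ f)).card : ℝ) ≤
      (Fintype.card K : ℝ) ^ N * (1 / (Fintype.card K : ℝ) ^ j) := by
    intro j _
    have a1 : ∀ P ∈ Irn K j, ((((Mn K N).filter fun f => P ^ 2 ∣ f)).card : ℝ) ≤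
        (Fintype.card K : ℝ) ^ N * ((Fintype.card K : ℝ) ^ (2 * j))⁻¹ := by
      intro P hP
      rw [mem_Irn] at hP
      have a2 := card_dvd_le (n := N) (hP.1.pow 2)
      unfold wt at a2
      rw [hP.1.natDegree_pow, hP.2.1] at a2
      exact a2
    refine (Finset.sum_le_sum a1).trans ?_
    rw [Finset.sum_const, nsmul_eq_mul]
    have a3 : ((Irn K j).card : ℝ) ≤ (Fintype.card K : ℝ) ^ j := by
      have : (Irn K j).card ≤ (Mn K j).card := Finset.card_le_card (Finset.filter_subset _ _)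
      rw [card_Mn] at this
      exact_mod_cast this
    calc ((Irn K j).card : ℝ) * ((Fintype.card K : ℝ) ^ N * ((Fintype.card K : ℝ) ^ (2 * j))⁻¹)
        ≤ (Fintype.card K : ℝ) ^ j * ((Fintype.card K : ℝ) ^ N * ((Fintype.card K : ℝ) ^ (2 * j))⁻¹) := by
          gcongr
      _ = (Fintype.card K : ℝ) ^ N * (1 / (Fintype.card K : ℝ) ^ j) := by
          rw [two_mul, pow_add]
          have : (Fintype.card K : ℝ) ^ j ≠ 0 := by positivity
          field_simp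
  refine (Finset.sum_le_sum h2).trans ?_
  rw [← Finset.mul_sum]
  have h3 := geo_tail hq w (N + 1)
  gcongr

/-- the number of divisors -/
noncomputable def tau {k : ℕ} (h : Fin k → K[X]) (y : ℕ) (f : K[X]) : ℝ :=
  (((SqM K y).filter (fun E => E ∣ Hh h f)).card : ℝ)

theorem Wt_le {k : ℕ} (h : Fin k → K[X]) {lam : K[X] → ℝ} (hl : Bdd lam) (y : ℕ) (f : K[X]) :
    |Wt h lam y f| ≤ tau h y f := by
  unfold Wt tau
  refine (Finset.abs_sum_le_sum_abs _ _).trans ?_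
  refine (Finset.sum_le_sum fun E _ => hl E).trans ?_
  rw [Finset.sum_const, nsmul_eq_mul, mul_one]

theorem sum_le_N {N w : ℕ} (hw : 1 ≤ w) (g : K[X] → ℝ) (hg : ∀ f, 0 ≤ g f) :
    ∑ j ∈ Icc w N, ∑ p ∈ Irn K j, ∑ B ∈ (Mn K (N - j)).filter (fun B => p ∣ B), g (p * B) ≤
      (N : ℝ) * ∑ f ∈ Sq K N w, g f := by
  have h1 : ∀ j ∈ Icc w N, ∑ p ∈ Irn K j, ∑ B ∈ (Mn K (N - j)).filter (fun B => p ∣ B), g (p * B) ≤
      ∑ f ∈ Sq K N w, ∑ p ∈ Irn K j, if p ∣ f then g f else 0 := by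
    intro j hj
    rw [mem_Icc] at hj
    rw [Finset.sum_comm]
    refine Finset.sum_le_sum fun p hp => ?_
    have hp' := mem_Irn.1 hp
    rw [← Finset.sum_filter]
    have h2 : ∑ B ∈ (Mn K (N - j)).filter (fun B => p ∣ B), g (p * B) =
        ∑ f ∈ ((Mn K (N - j)).filter (fun B => p ∣ B)).image (fun B => p * B), g f := by
      rw [Finset.sum_image]
      intro B _ B' _ h
      exact mul_left_cancel₀ hp'.1.ne_zero h
    rw [h2]
    refine Finset.sum_le_sum_of_subset_of_nonneg ?_ fun f _ _ => hg f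
    intro f hf
    rw [mem_image] at hf
    obtain ⟨B, hB, rfl⟩ := hf
    rw [mem_filter, mem_Mn] at hB
    rw [mem_filter]
    refine ⟨?_, dvd_mul_right _ _⟩
    unfold Sq
    rw [mem_filter, mem_Mn]
    refine ⟨⟨hp'.1.mul hB.1.1, ?_⟩, p, hp'.1, hp'.2.2, ?_, ?_⟩
    · rw [hp'.1.natDegree_mul hB.1.1, hp'.2.1, hB.1.2]
      omega
    · rw [hp'.2.1]
      exact hj.1
    · rw [pow_two]
      exact mul_dvd_mul_left p hB.2
  refine (Finset.sum_le_sum h1).trans ?_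
  rw [Finset.sum_comm, Finset.mul_sum]
  refine Finset.sum_le_sum fun f hf => ?_
  unfold Sq at hf
  rw [mem_filter, mem_Mn] at hf
  have h3 : ∑ j ∈ Icc w N, ∑ p ∈ Irn K j, (if p ∣ f then g f else 0) =
      ((((Icc w N).biUnion fun j => Irn K j).filter (fun p => p ∣ f)).card : ℝ) * g f := by
    rw [← Finset.sum_biUnion, ← Finset.sum_filter, Finset.sum_const, nsmul_eq_mul]
    intro a _ b _ hab
    rw [Function.onFun, Finset.disjoint_left]
    intro P h4 h5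
    exact hab ((mem_Irn.1 h4).2.1.symm.trans (mem_Irn.1 h5).2.1)
  rw [h3]
  have h4 : (((Icc w N).biUnion fun j => Irn K j).filter (fun p => p ∣ f)).card ≤ N := by
    rw [← hf.1.2]
    refine card_irr_le hf.1.1.ne_zero _ fun P hP => ?_
    rw [mem_filter, mem_biUnion] at hP
    obtain ⟨⟨j, _, hj⟩, hP2⟩ := hP
    rw [mem_Irn] at hj
    exact ⟨hj.1, hj.2.2, hP2⟩
  have h5 : ((((Icc w N).biUnion fun j => Irn K j).filter (fun p => p ∣ f)).card : ℝ) ≤ N := by
    exact_mod_cast h4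
  exact mul_le_mul_of_nonneg_right h5 (hg f)

end Buchw

open Buchw
open Pool.Agent.H251.SP.BUCH (t claim sum_mult)

theorem buchw : S_buchw := by
  intro K _ _ n z k φ hz hzk hkn
  have e1 : ∑ f ∈ (Mn K n).filter (Rgh k), φ f - ∑ f ∈ (Mn K n).filter (Rgh z), φ f =
      -∑ j ∈ Ico z k, ∑ P ∈ Irn K j, ∑ B ∈ Mn K (n - j), φ (P * B) * t j (P * B) := by
    have h1 : ∑ f ∈ Mn K n, φ f * ((if Rgh k f then (1 : ℝ) else 0) - (if Rgh z f then 1 else 0) +
      ∑ j ∈ Ico z k, ∑ P ∈ (Irn K j).filter (fun P => P ∣ f), t j f) = 0 :=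
      Finset.sum_eq_zero fun f _ => by rw [claim z k hzk, mul_zero]
    have h2 : ∑ f ∈ Mn K n, φ f * ((if Rgh k f then (1 : ℝ) else 0) - (if Rgh z f then 1 else 0) +
      ∑ j ∈ Ico z k, ∑ P ∈ (Irn K j).filter (fun P => P ∣ f), t j f) =
      ∑ f ∈ (Mn K n).filter (Rgh k), φ f - ∑ f ∈ (Mn K n).filter (Rgh z), φ f +
      ∑ j ∈ Ico z k, ∑ P ∈ Irn K j, ∑ B ∈ Mn K (n - j), φ (P * B) * t j (P * B) := by
      rw [Finset.sum_filter, Finset.sum_filter, ← Finset.sum_sub_distrib]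
      have h3 : ∑ j ∈ Ico z k, ∑ P ∈ Irn K j, ∑ B ∈ Mn K (n - j), φ (P * B) * t j (P * B) =
          ∑ f ∈ Mn K n, φ f * ∑ j ∈ Ico z k, ∑ P ∈ (Irn K j).filter (fun P => P ∣ f), t j f := by
        simp only [Finset.mul_sum]
        conv_rhs => rw [Finset.sum_comm]
        refine Finset.sum_congr rfl fun j hj => ?_
        rw [Finset.mem_Ico] at hj
        simp only [Finset.sum_filter]
        conv_rhs => rw [Finset.sum_comm]
        refine Finset.sum_congr rfl fun P hP => ?_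
        rw [mem_Irn] at hP
        rw [← Finset.sum_filter, sum_mult hP.1 (by omega) (fun f => φ f * t j f), hP.2.1]
      rw [h3, ← Finset.sum_add_distrib]
      refine Finset.sum_congr rfl fun f _ => ?_
      rw [mul_add, mul_sub]
      congr 1
      split_ifs <;> ring
    rw [h2] at h1
    linarith
  rw [e1]
  have e2 : -∑ j ∈ Ico z k, ∑ P ∈ Irn K j, ∑ B ∈ Mn K (n - j), φ (P * B) * t j (P * B) +
      ∑ j ∈ Ico z k, ∑ p ∈ Irn K j, ∑ B ∈ Mn K (n - j), bw j B * φ (p * B) =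
      ∑ j ∈ Ico z k, ∑ P ∈ Irn K j, ∑ B ∈ Mn K (n - j),
        (bw j B * φ (P * B) - φ (P * B) * t j (P * B)) := by
    simp only [Finset.sum_sub_distrib]
    ring
  rw [e2]
  refine (Finset.abs_sum_le_sum_abs _ _).trans (Finset.sum_le_sum fun j _ => ?_)
  refine (Finset.abs_sum_le_sum_abs _ _).trans (Finset.sum_le_sum fun P hP => ?_)
  refine (Finset.abs_sum_le_sum_abs _ _).trans ?_
  rw [Finset.sum_filter]
  exact Finset.sum_le_sum fun B _ => term_le' hP _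

theorem sqw (hm : S_momw) : S_sqw := by
  intro k K _ _
  obtain ⟨C, hC⟩ := hm k 2 K
  refine ⟨C + 2, fun N y z D h lam hD hcop hy hl => ?_⟩
  have hq : (2 : ℝ) ≤ (Fintype.card K : ℝ) := q_ge
  set q := (Fintype.card K : ℝ) with hqd
  have hq0 : 0 < q := by linarith
  have hw : 1 ≤ max z 1 := le_max_right _ _
  set X : ℝ := ∑ f ∈ Sq K N (max z 1), tau h y (D * f) with hX
  have htau : ∀ f, 0 ≤ tau h y (D * f) := fun f => by
    unfold tau
    positivity
  have hX0 : 0 ≤ X := Finset.sum_nonneg fun f _ => htau f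
  have h1 : ∑ j ∈ Icc (max z 1) N, ∑ p ∈ Irn K j, ∑ B ∈ (Mn K (N - j)).filter (fun B => p ∣ B),
      |Wt h lam y (D * (p * B))| ≤ (N : ℝ) * X := by
    refine le_trans ?_ (sum_le_N hw (fun f => tau h y (D * f)) htau)
    exact Finset.sum_le_sum fun j _ => Finset.sum_le_sum fun p _ => Finset.sum_le_sum fun B _ =>
      Wt_le h hl y _
  have h2 : X ^ 2 ≤ (((N : ℝ) + 2) ^ (C + 1) * q ^ N * q ^ (-(z : ℝ) / 2)) ^ 2 := by
    have a1 : X ^ 2 ≤ ((Sq K N (max z 1)).card : ℝ) * ∑ f ∈ Sq K N (max z 1), tau h y (D * f) ^ 2 :=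
      sq_sum_le_card_mul_sum_sq
    have a2 : ∑ f ∈ Sq K N (max z 1), tau h y (D * f) ^ 2 ≤ ((N : ℝ) + 2) ^ C * q ^ N := by
      refine le_trans ?_ (hC N y D h hD hcop hy)
      refine Finset.sum_le_sum_of_subset_of_nonneg (Finset.filter_subset _ _) fun f _ _ => by positivity
    have a3 := card_Sq (K := K) N (max z 1) hw
    have a4 : q ^ N * (2 / q ^ (max z 1)) ≤ q ^ N * (2 / q ^ z) := by
      have : q ^ z ≤ q ^ (max z 1) := pow_le_pow_right₀ (by linarith) (le_max_left _ _)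
      gcongr
    have a5 : (q ^ (-(z : ℝ) / 2)) ^ 2 = 1 / q ^ z := by
      rw [← Real.rpow_natCast, ← Real.rpow_mul hq0.le, ← Real.rpow_natCast, one_div, ← Real.rpow_neg hq0.le]
      congr 1
      push_cast
      ring
    have hN : (2 : ℝ) ≤ (N : ℝ) + 2 := by
      have : (0 : ℝ) ≤ (N : ℝ) := Nat.cast_nonneg _
      linarith
    have a6 : 2 * ((N : ℝ) + 2) ^ C ≤ (((N : ℝ) + 2) ^ (C + 1)) ^ 2 := by
      have b1 : 1 ≤ ((N : ℝ) + 2) ^ (C + 1) := one_le_pow₀ (by linarith)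
      calc 2 * ((N : ℝ) + 2) ^ C ≤ ((N : ℝ) + 2) * ((N : ℝ) + 2) ^ C := by gcongr
        _ = ((N : ℝ) + 2) ^ (C + 1) := by ring
        _ ≤ (((N : ℝ) + 2) ^ (C + 1)) ^ 2 := by nlinarith
    calc X ^ 2 ≤ ((Sq K N (max z 1)).card : ℝ) * ∑ f ∈ Sq K N (max z 1), tau h y (D * f) ^ 2 := a1
      _ ≤ (q ^ N * (2 / q ^ z)) * (((N : ℝ) + 2) ^ C * q ^ N) := by
          refine mul_le_mul (a3.trans a4) a2 ?_ (by positivity)
          exact Finset.sum_nonneg fun f _ => by positivity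
      _ = (2 * ((N : ℝ) + 2) ^ C) * ((q ^ N) ^ 2 * (1 / q ^ z)) := by ring
      _ ≤ (((N : ℝ) + 2) ^ (C + 1)) ^ 2 * ((q ^ N) ^ 2 * (1 / q ^ z)) := by
          gcongr
      _ = (((N : ℝ) + 2) ^ (C + 1) * q ^ N * q ^ (-(z : ℝ) / 2)) ^ 2 := by
          rw [mul_pow, mul_pow, a5]
          ring
  have h3 : X ≤ ((N : ℝ) + 2) ^ (C + 1) * q ^ N * q ^ (-(z : ℝ) / 2) :=
    (pow_le_pow_iff_left₀ hX0 (by positivity) two_ne_zero).1 h2
  refine h1.trans ?_
  calc (N : ℝ) * X ≤ ((N : ℝ) + 2) * (((N : ℝ) + 2) ^ (C + 1) * q ^ N * q ^ (-(z : ℝ) / 2)) := by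
        refine mul_le_mul (by linarith) h3 hX0 (by positivity)
    _ = ((N : ℝ) + 2) ^ (C + 2) * q ^ N * q ^ (-(z : ℝ) / 2) := by ring

end Pool.Agent.H985.CH
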